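import Pool.Agent.SFH.Targets

set_option autoImplicit false

/-!
# SFH-NKB: the number of vertices
-/

open Finset

namespace Pool.Agent.SFH

open Pool.Agent.StarF (starForest ramsey)
open Pool.Agent.SFB (Con dg nc Two mem_dg mem_nc)
open Pool.Agent.SFG (Cov Vio Sys Out Typ Tig pf PF)

namespace NKB_

variable {V : Type} [Fintype V] [DecidableEq V]

/-- One more centre. -/
lemma step (G : SimpleGraph V) (a : ℕ → ℕ) (f z K : ℕ) (c : ℕ → V) (D : ℕ → Finset V)
    (h : HS G a f K c) (hz : z ≤ f)
    (hD : ∀ t ∈ range K, D t ⊆ dg G (c t) ∧ (D t).card = a t)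
    (hdsj : ∀ s ∈ range K, ∀ t ∈ range K, s ≠ t → Disjoint (D s) (D t)) (u : V)
    (hne : ∀ t < K, u ≠ c t) (hu : a K + z ≤ (dg G u ∩ (univ \ (range K).biUnion D)).card)
    (htop : K = 0 → ∀ v, (dg G v).card ≤ (dg G u).card) :
    HS G a z (K + 1) (Function.update c K u) := by
  have hcard : ∀ J ⊆ range K, (J.biUnion D).card = ∑ t ∈ J, a t := by
    intro J hJ
    rw [card_biUnion]
    · exact sum_congr rfl fun t ht => (hD t (hJ ht)).2
    · intro s hs t ht hst
      exact hdsj s (hJ hs) t (hJ ht) hst
  have hup : ∀ t < K, Function.update c K u t = c t := fun t ht =>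
    Function.update_of_ne (Nat.ne_of_lt ht) _ _
  refine ⟨?_, ?_, ?_⟩
  · intro s hs t ht hst
    rw [Set.mem_Iio] at hs ht
    rcases Nat.lt_or_ge s K with h1 | h1
    · rcases Nat.lt_or_ge t K with h2 | h2
      · rw [hup s h1, hup t h2] at hst
        exact h.inj h1 h2 hst
      · have h3 : t = K := by omega
        rw [hup s h1, h3, Function.update_self] at hst
        exact absurd hst.symm (hne s h1)
    · have h3 : s = K := by omega
      rcases Nat.lt_or_ge t K with h2 | h2
      · rw [hup t h2, h3, Function.update_self] at hst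
        exact absurd hst (hne t h2)
      · omega
  · intro J hJ hJn
    by_cases hi : K ∈ J
    · have hJ' : J.erase K ⊆ range K := by
        intro t ht
        have h1 := mem_range.1 (hJ (mem_of_mem_erase ht))
        have h2 := ne_of_mem_erase ht
        exact mem_range.2 (by omega)
      have hsub : (J.erase K).biUnion D ∪ (dg G u ∩ (univ \ (range K).biUnion D)) ⊆
          nc G (Function.update c K u) J := by
        intro w hw
        rw [mem_union, mem_biUnion] at hw
        rw [mem_nc]
        rcases hw with ⟨t, ht, hwt⟩ | hw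
        · have h1 := mem_range.1 (hJ' ht)
          refine ⟨t, mem_of_mem_erase ht, ?_⟩
          rw [hup t h1]
          exact (hD t (hJ' ht)).1 hwt
        · refine ⟨K, hi, ?_⟩
          rw [Function.update_self]
          exact (mem_inter.1 hw).1
      have hdis : Disjoint ((J.erase K).biUnion D) (dg G u ∩ (univ \ (range K).biUnion D)) := by
        rw [disjoint_left]
        intro w hw hw'
        have h1 := (mem_sdiff.1 (mem_inter.1 hw').2).2
        apply h1
        rw [mem_biUnion] at hw ⊢
        obtain ⟨t, ht, hwt⟩ := hw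
        exact ⟨t, hJ' ht, hwt⟩
      have h1 := card_le_card hsub
      rw [card_union_of_disjoint hdis, hcard _ hJ'] at h1
      have h2 := sum_erase_add J a hi
      omega
    · have hJ' : J ⊆ range K := by
        intro t ht
        have h1 := mem_range.1 (hJ ht)
        have h2 : t ≠ K := fun h => hi (h ▸ ht)
        exact mem_range.2 (by omega)
      have h1 := h.hal J hJ' hJn
      have h2 : nc G (Function.update c K u) J = nc G c J := by
        unfold nc
        exact biUnion_congr rfl fun t ht => by rw [hup t (mem_range.1 (hJ' ht))]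
      rw [h2]
      omega
  · intro _ v
    rcases Nat.eq_zero_or_pos K with hK | hK
    · subst hK
      rw [Function.update_self]
      exact htop rfl v
    · rw [hup 0 hK]
      exact h.top hK v

end NKB_

/-- The number of vertices. -/
theorem p_NKB (hAVE : Pool.Agent.SFG.T_AVE) : T_NKB := by
  intro V _ _ G Y X L P a f z K r c hP hX h hz hno hcY
  by_contra hcon
  have hN : ∑ t ∈ range K, a t + 2 * a K + 2 * z + r + 2 ≤ Fintype.card V := by omega
  obtain ⟨D, hD, hdsj⟩ := Pool.Agent.StarF.hall (range K) a (fun t => dg G (c t)) (by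
    intro J hJ
    rcases J.eq_empty_or_nonempty with h0 | h0
    · rw [h0]
      simp
    · have h1 := h.hal J hJ h0
      have h2 : (nc G c J).card = (J.biUnion fun t => dg G (c t)).card := rfl
      rw [← h2]
      omega)
  set U : Finset V := (range K).biUnion D with hU
  have hUc : U.card ≤ ∑ t ∈ range K, a t := by
    refine le_trans Finset.card_biUnion_le ?_
    exact Finset.sum_le_sum fun t ht => (hD t ht).2.le
  have h1 := hAVE V G Y X L P hP (univ \ U)
  -- the intersection is large
  have h2 : Fintype.card V ≤ ((univ \ U) ∩ X).card + U.card + (Xᶜ).card := by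
    have h3 : (univ : Finset V) ⊆ (((univ \ U) ∩ X) ∪ U) ∪ Xᶜ := by
      intro x _
      by_cases hx : x ∈ X
      · by_cases hxU : x ∈ U
        · simp [hxU]
        · simp [hx, hxU]
      · simp [hx]
    have h4 := Finset.card_le_card h3
    rw [Finset.card_univ] at h4
    exact h4.trans (le_trans (Finset.card_union_le _ _)
      (Nat.add_le_add_right (Finset.card_union_le _ _) _))
  have h3 : (2 * (a K + z) + 2 : ℝ) ≤ (((univ \ U) ∩ X).card : ℝ) := by
    have h5 : 2 * (a K + z) + 2 ≤ ((univ \ U) ∩ X).card := by omega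
    exact_mod_cast h5
  have h4 : ((a K + z : ℕ) : ℝ) ≤ ∑ v, P v * ((dg G v ∩ (univ \ U)).card : ℝ) := by
    push_cast
    linarith
  -- a good vertex
  obtain ⟨v, hv0, hv⟩ : ∃ v, P v ≠ 0 ∧ a K + z ≤ (dg G v ∩ (univ \ U)).card := by
    by_contra hcon
    have h5 : ∀ v, P v * ((dg G v ∩ (univ \ U)).card : ℝ) ≤ P v * ((a K + z : ℕ) - 1 : ℝ) := by
      intro v
      rcases eq_or_ne (P v) 0 with h6 | h6
      · rw [h6, zero_mul, zero_mul]
      · refine mul_le_mul_of_nonneg_left ?_ (hP.nn v)
        have h7 : ¬ a K + z ≤ (dg G v ∩ (univ \ U)).card := fun h => hcon ⟨v, h6, h⟩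
        have h8 : (dg G v ∩ (univ \ U)).card + 1 ≤ a K + z := by omega
        have h9 : (((dg G v ∩ (univ \ U)).card + 1 : ℕ) : ℝ) ≤ ((a K + z : ℕ) : ℝ) := by
          exact_mod_cast h8
        rw [Nat.cast_add, Nat.cast_one] at h9
        linarith
    have h6 := Finset.sum_le_sum fun v (_ : v ∈ (univ : Finset V)) => h5 v
    rw [← Finset.sum_mul, hP.one, one_mul] at h6
    linarith
  have hvY : v ∈ Y := by
    by_contra h
    exact hv0 (hP.sp v h)
  rcases Nat.eq_zero_or_pos K with hK | hK
  · subst hK
    obtain ⟨u, -, hu⟩ := Finset.exists_max_image (univ : Finset V) (fun w => (dg G w).card)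
      ⟨v, mem_univ v⟩
    have hU0 : U = ∅ := by
      rw [hU]
      rfl
    refine hno ⟨_, NKB_.step G a f z 0 c D h hz hD hdsj u (fun t ht => absurd ht (by omega)) ?_
      (fun _ w => hu w (mem_univ w))⟩
    rw [← hU, hU0, sdiff_empty, inter_univ]
    rw [hU0, sdiff_empty, inter_univ] at hv
    exact hv.trans (hu v (mem_univ v))
  · exact hno ⟨_, NKB_.step G a f z K c D h hz hD hdsj v
      (fun t ht h0 => hcY t ht (h0 ▸ hvY)) hv (fun h0 => absurd h0 (by omega))⟩

end Pool.Agent.SFH
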