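import Pool.Agent.SFH.Targets

set_option autoImplicit false

/-!
# SFH: STC, the structure for maximal systems (adapted from Pool/Agent/SFG/P_STC.lean)
-/

open Finset

namespace Pool.Agent.SFH

open Pool.Agent.StarF (starForest ramsey)
open Pool.Agent.SFB (Con dg nc Two)
open Pool.Agent.SFG (Cov Vio Sys Out Typ Tig pf PF)

namespace STC_

/-- the set `F` if it is small, otherwise the empty set -/
def sm {V : Type} [DecidableEq V] (F : Finset V) (n : ℕ) : Finset V :=
  if F.card ≤ n then F else ∅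

theorem sm_card {V : Type} [DecidableEq V] (F : Finset V) (n : ℕ) : (sm F n).card ≤ n := by
  unfold sm
  split_ifs with h
  · exact h
  · simp

theorem sm_mem {V : Type} [DecidableEq V] {F : Finset V} {n : ℕ} (h : F.card ≤ n) {v : V}
    (hv : v ∈ F) : v ∈ sm F n := by
  unfold sm
  rw [if_pos h]
  exact hv

/-- the final step -/
theorem fin (hTYC : Pool.Agent.SFG.T_TYC) (hCLT : T_CLT) (hCL2 : Pool.Agent.SFB.T_CL2)
    (hBLK : Pool.Agent.SFB.T_BLK) {V : Type} [Fintype V]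
    [DecidableEq V] (G : SimpleGraph V) (a : ℕ → ℕ) (k K q e B W : ℕ) (X0 : Finset V)
    (J1 J2 : Finset ℕ) (hP : Par a k q e (Fintype.card V)) (hK1 : 1 ≤ K) (hKk : K < k)
    (hkB : k ≤ B) (hW : 2 ^ k * B = W) (hBW : B ≤ W) (hWe : 312500 * W ≤ e)
    (hN : Fintype.card V ≤ ∑ t ∈ range K, a t + 2 * a K + B) (h1 : ¬ Con G k a)
    (h2 : ¬ Con Gᶜ k a) (hT : Typ G a k K B B X0 J1 J2) :
    ∃ X : Finset V, (Two G X (1600 * W + 1) ∨ Two Gᶜ X (1600 * W + 1)) ∧
    6 * e ≤ X.card ∧ 6 * e ≤ (Xᶜ).card := by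
  have hT' := hTYC V G a k K B X0 J1 J2 hT
  have hk := hP.k2
  have q1 : 1000 * 2 ^ k * B = 1000 * W := by rw [← hW]; ring
  have q2 : 16 * 2 ^ k * B = 16 * W := by rw [← hW]; ring
  have c1 := hCLT V G a k K q e B B X0 J1 J2 hP hK1 hKk hkB (by omega) hN (by omega) h1 hT
  have c2 := hCLT V Gᶜ a k K q e B (B + 1) X0 J1 J2 hP hK1 hKk hkB (by omega) hN le_rfl h2 hT'
  rw [q2] at c1 c2
  have hcr := (hP.crit hKk hN).1
  have hlo := hP.lo K hKk
  have ha0 : a K ≤ ∑ t ∈ range K, a t := by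
    refine (hP.anti 0 K (Nat.zero_le _) hKk).trans ?_
    exact single_le_sum (f := a) (fun i _ => Nat.zero_le _) (mem_range.2 (by omega : 0 < K))
  have lo1 := hT.lo1
  have lo2 := hT.lo2
  have c3 := hCL2 V G (16 * W) (16 * W) (a K) X0 (by omega) (by omega) (by omega) (by omega)
    (by omega) (by omega)
  have c4 : ∀ u, (symmDiff (dg G u) X0).card ≤ 20 * (16 * W) ∨
      (symmDiff (dg G u) X0ᶜ).card ≤ 20 * (16 * W) := by
    intro u
    have d1 := c1 u
    have d2 := c2 u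
    exact c3 u (by omega) (by omega)
  obtain ⟨X, hX, hb1, hb2⟩ := hBLK V G (a K - 2 * B) (20 * (16 * W)) X0 (by omega) (by omega)
    (by omega) c4
  refine ⟨X, ?_, by omega, by omega⟩
  rcases hX with hX | hX
  · exact Or.inl (hX.mono (by omega))
  · exact Or.inr (hX.mono (by omega))

/-- the largest length of a system with surplus `f` -/
noncomputable def kap {V : Type} [Fintype V] [DecidableEq V] (G : SimpleGraph V) (a : ℕ → ℕ)
    (k f : ℕ) : ℕ := by
  classical
  exact Nat.findGreatest (fun i => ∃ c, HS G a f i c) k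

theorem kap_le {V : Type} [Fintype V] [DecidableEq V] (G : SimpleGraph V) (a : ℕ → ℕ)
    (k f : ℕ) : kap G a k f ≤ k := by
  classical
  unfold kap
  exact Nat.findGreatest_le k

theorem kap_anti {V : Type} [Fintype V] [DecidableEq V] (G : SimpleGraph V) (a : ℕ → ℕ)
    (k f f' : ℕ) (h : f ≤ f') : kap G a k f' ≤ kap G a k f := by
  classical
  unfold kap
  refine Nat.findGreatest_mono_left ?_ k
  rintro i ⟨c, hc⟩
  exact ⟨c, hc.mono h⟩

theorem kap_ex {V : Type} [Fintype V] [DecidableEq V] [Nonempty V] (G : SimpleGraph V)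
    (a : ℕ → ℕ) (k f : ℕ) : ∃ c, HS G a f (kap G a k f) c := by
  classical
  unfold kap
  refine Nat.findGreatest_spec (P := fun i => ∃ c, HS G a f i c) (Nat.zero_le k) ?_
  refine ⟨fun _ => Classical.arbitrary V, ?_, ?_, ?_⟩
  · intro x hx
    simp at hx
  · intro J hJ hne
    rw [range_zero, subset_empty] at hJ
    rw [hJ] at hne
    simp at hne
  · intro h
    exact absurd h (lt_irrefl 0)

theorem kap_max {V : Type} [Fintype V] [DecidableEq V] (G : SimpleGraph V)
    (a : ℕ → ℕ) (k f : ℕ) (h : kap G a k f < k) :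
    ¬ ∃ c, HS G a f (kap G a k f + 1) c := by
  classical
  have h1 := Nat.findGreatest_is_greatest (P := fun i => ∃ c, HS G a f i c) (n := k)
    (k := kap G a k f + 1) (by
      unfold kap
      exact Nat.lt_succ_self _) (by omega)
  exact h1

theorem kap_lt (hEMB : Pool.Agent.SFB.T_EMB) {V : Type} [Fintype V] [DecidableEq V] [Nonempty V]
    (G : SimpleGraph V) (a : ℕ → ℕ) (k z : ℕ) (hkz : k ≤ z) (h : ¬ Con G k a) :
    kap G a k z < k := by
  by_contra hcon
  have h0 : kap G a k z = k := le_antisymm (kap_le G a k z) (not_lt.1 hcon)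
  obtain ⟨c, hc⟩ := kap_ex G a k z
  rw [h0] at hc
  refine h (hEMB V G k a c hc.inj ?_)
  intro J hJ hne
  have h1 := hc.hal J hJ hne
  have h2 : ((range k).image c).card ≤ k := card_image_le.trans (by rw [card_range])
  have h3 := le_card_sdiff ((range k).image c) (nc G c J)
  omega

end STC_

open STC_ in
theorem p_STC (hMMX : Pool.Agent.SFG.T_MMX) (hPGH : T_PGH) (hCOL : T_COL)
    (hTYC : Pool.Agent.SFG.T_TYC) (hCLT : T_CLT) (hCL2 : Pool.Agent.SFB.T_CL2)
    (hBLK : Pool.Agent.SFB.T_BLK) (hEMB : Pool.Agent.SFB.T_EMB) : T_STC := by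
  intro k q hk hq
  obtain ⟨E0, hE0⟩ := hPGH k q (by omega) hq
  refine ⟨E0, ?_⟩
  intro V _ _ G a e hEe hP h1 h2
  have hek := hP.ek
  have hall := hP.all
  have : Nonempty V := Fintype.card_pos_iff.1 (by omega)
  obtain ⟨f, z, Q, hLev, hκ, hκ'⟩ := hE0 e (Fintype.card V) hEe hP.up (kap G a k) (kap Gᶜ a k)
    (kap_le G a k) (kap_le Gᶜ a k) (fun f f' h => kap_anti G a k f f' h)
    (fun f f' h => kap_anti Gᶜ a k f f' h)
  have hK := kap_lt hEMB G a k z hLev.kz h1
  have hK' := kap_lt hEMB Gᶜ a k z hLev.kz h2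
  have hmax := kap_max G a k z hK
  have hmax' := kap_max Gᶜ a k z hK'
  obtain ⟨c, hC⟩ := kap_ex G a k f
  obtain ⟨c', hC'⟩ := kap_ex Gᶜ a k f
  rw [hκ] at hC
  rw [hκ'] at hC'
  obtain ⟨i, hi⟩ : ∃ i, kap G a k z = i := ⟨_, rfl⟩
  obtain ⟨i', hi'⟩ : ∃ i', kap Gᶜ a k z = i' := ⟨_, rfl⟩
  rw [hi] at hK hmax hC
  rw [hi'] at hK' hmax' hC'
  obtain ⟨B, hB⟩ : ∃ B, BB k Q z = B := ⟨_, rfl⟩
  have hgap := hLev.gap
  have hfe := hLev.fe
  have hQ1 := hLev.q1
  have hBform : B = 64 * Q ^ 2 * (z + 6 * k + 3) := by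
    rw [← hB]
    rfl
  have hW : 312500 * (2 ^ k * B) ≤ f := by
    refine le_trans (le_of_eq ?_) hgap
    rw [hBform]
    ring
  have hkB : k ≤ B := by
    rw [hBform]
    have hQ2 : 1 ≤ 64 * Q ^ 2 := by
      have : 1 ≤ Q ^ 2 := Nat.one_le_pow _ _ (by omega)
      omega
    calc k ≤ 1 * (z + 6 * k + 3) := by omega
      _ ≤ 64 * Q ^ 2 * (z + 6 * k + 3) := Nat.mul_le_mul_right _ hQ2
  have hBW : B ≤ 2 ^ k * B := Nat.le_mul_of_pos_left B (by positivity)
  obtain ⟨W, hWW⟩ : ∃ W, 2 ^ k * B = W := ⟨_, rfl⟩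
  rw [hWW] at hW hBW
  have hWe : 312500 * W ≤ e := hW.trans hfe
  obtain ⟨F1, hF1⟩ : ∃ F : Finset V,
      F = univ.filter (fun v => (symmDiff (dg G v) (dg G (c 0))).card ≤ B) := ⟨_, rfl⟩
  obtain ⟨F2, hF2⟩ : ∃ F : Finset V,
      F = univ.filter (fun v => (symmDiff (dg G v) (dg G (c 0))ᶜ).card ≤ B) := ⟨_, rfl⟩
  obtain ⟨F3, hF3⟩ : ∃ F : Finset V,
      F = univ.filter (fun v => (symmDiff (dg Gᶜ v) (dg Gᶜ (c' 0))).card ≤ B) := ⟨_, rfl⟩
  obtain ⟨F4, hF4⟩ : ∃ F : Finset V,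
      F = univ.filter (fun v => (symmDiff (dg Gᶜ v) (dg Gᶜ (c' 0))ᶜ).card ≤ B) :=
    ⟨_, rfl⟩
  obtain ⟨R, hR⟩ : ∃ R : Finset V, R = (((((range i).image c ∪ (range i').image c') ∪
      sm F1 (k + 1)) ∪ sm F2 (k + 1)) ∪ sm F3 (k + 1)) ∪ sm F4 (k + 1) := ⟨_, rfl⟩
  have hRc : R.card ≤ 6 * k + 2 := by
    rw [hR]
    have e1 := card_union_le (((((range i).image c ∪ (range i').image c') ∪
      sm F1 (k + 1)) ∪ sm F2 (k + 1)) ∪ sm F3 (k + 1)) (sm F4 (k + 1))
    have e2 := card_union_le ((((range i).image c ∪ (range i').image c') ∪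
      sm F1 (k + 1)) ∪ sm F2 (k + 1)) (sm F3 (k + 1))
    have e3 := card_union_le (((range i).image c ∪ (range i').image c') ∪
      sm F1 (k + 1)) (sm F2 (k + 1))
    have e4 := card_union_le ((range i).image c ∪ (range i').image c') (sm F1 (k + 1))
    have e5 := card_union_le ((range i).image c) ((range i').image c')
    have e6 : ((range i).image c).card ≤ i := card_image_le.trans (by rw [card_range])
    have e7 : ((range i').image c').card ≤ i' := card_image_le.trans (by rw [card_range])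
    have s1 := sm_card F1 (k + 1)
    have s2 := sm_card F2 (k + 1)
    have s3 := sm_card F3 (k + 1)
    have s4 := sm_card F4 (k + 1)
    omega
  have hcR : ∀ t < i, c t ∈ R := by
    intro t ht
    rw [hR]
    have : c t ∈ (range i).image c := mem_image_of_mem _ (mem_range.2 ht)
    simp only [mem_union]
    tauto
  have hcR' : ∀ t < i', c' t ∈ R := by
    intro t ht
    rw [hR]
    have : c' t ∈ (range i').image c' := mem_image_of_mem _ (mem_range.2 ht)
    simp only [mem_union]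
    tauto
  have hF : ∀ v, (v ∈ sm F1 (k + 1) ∨ v ∈ sm F2 (k + 1) ∨ v ∈ sm F3 (k + 1) ∨
      v ∈ sm F4 (k + 1)) → v ∈ R := by
    intro v hv
    rw [hR]
    simp only [mem_union]
    tauto
  have hYc : 1 ≤ (Rᶜ).card := by
    rw [card_compl]
    omega
  obtain ⟨X, hXY, hXc, hCovs⟩ := hMMX V G (Rᶜ) 1 le_rfl hYc
  have hXe : Rᶜ ⊆ X := by
    rw [Nat.lt_one_iff, card_eq_zero, sdiff_eq_empty_iff_subset] at hXc
    exact hXc
  have hX9 : (Xᶜ).card ≤ 6 * k + 2 := by
    refine (card_le_card ?_).trans hRc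
    intro v hv
    rw [mem_compl] at hv
    by_contra hcon
    exact hv (hXe (mem_compl.2 hcon))
  have hnot : ∀ t < i, c t ∉ Rᶜ := fun t ht h => (mem_compl.1 h) (hcR t ht)
  have hnot' : ∀ t < i', c' t ∉ Rᶜ := fun t ht h => (mem_compl.1 h) (hcR' t ht)
  have key : ∃ X : Finset V, (Two G X (1600 * W + 1) ∨ Two Gᶜ X (1600 * W + 1)) ∧
      6 * e ≤ X.card ∧ 6 * e ≤ (Xᶜ).card := by
    rcases hCovs with ⟨P, hCov⟩ | ⟨P, hCov⟩
    · obtain ⟨hK1, hN, J1, J2, hT⟩ := hCOL V G (Rᶜ) X 1 P a k i q e f z Q c hP hLev hCov hX9 hK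
        hC hmax hnot
        (by
          rw [hB, ← hF1]
          intro hs v hv
          by_contra hcon
          have hv1 : v ∈ F1 := by
            rw [hF1, mem_filter]
            exact ⟨mem_univ _, not_lt.1 hcon⟩
          exact (mem_compl.1 hv) (hF v (Or.inl (sm_mem hs hv1))))
        (by
          rw [hB, ← hF2]
          intro hs v hv
          by_contra hcon
          have hv1 : v ∈ F2 := by
            rw [hF2, mem_filter]
            exact ⟨mem_univ _, not_lt.1 hcon⟩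
          exact (mem_compl.1 hv) (hF v (Or.inr (Or.inl (sm_mem hs hv1)))))
      rw [hB] at hN hT
      exact fin hTYC hCLT hCL2 hBLK G a k i q e B W _ J1 J2 hP hK1 hK hkB hWW hBW hWe hN h1 h2 hT
    · obtain ⟨hK1, hN, J1, J2, hT⟩ := hCOL V Gᶜ (Rᶜ) X 1 P a k i' q e f z Q c' hP hLev hCov hX9
        hK' hC' hmax' hnot'
        (by
          rw [hB, ← hF3]
          intro hs v hv
          by_contra hcon
          have hv1 : v ∈ F3 := by
            rw [hF3, mem_filter]
            exact ⟨mem_univ _, not_lt.1 hcon⟩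
          exact (mem_compl.1 hv) (hF v (Or.inr (Or.inr (Or.inl (sm_mem hs hv1))))))
        (by
          rw [hB, ← hF4]
          intro hs v hv
          by_contra hcon
          have hv1 : v ∈ F4 := by
            rw [hF4, mem_filter]
            exact ⟨mem_univ _, not_lt.1 hcon⟩
          exact (mem_compl.1 hv) (hF v (Or.inr (Or.inr (Or.inr (sm_mem hs hv1))))))
      rw [hB] at hN hT
      have h4 : ¬ Con (Gᶜ)ᶜ k a := by rwa [compl_compl]
      obtain ⟨X, hX, hX1, hX2⟩ := fin hTYC hCLT hCL2 hBLK Gᶜ a k i' q e B W _ J1 J2 hP hK1 hK'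
        hkB hWW hBW hWe hN h2 h4 hT
      rw [compl_compl] at hX
      exact ⟨X, hX.symm, hX1, hX2⟩
  obtain ⟨X', hX', hX1, hX2⟩ := key
  exact ⟨X', 1600 * W + 1, by omega, by omega, hX', hX1, hX2⟩

end Pool.Agent.SFH
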