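import Pool.Agent.SFH.Targets2
import Pool.Agent.SFG.All

/-!
# SFH: the final theorem from the targets
-/

set_option autoImplicit false

open Finset

namespace Pool.Agent.SFH

open Pool.Agent.StarF (starForest ramsey)
open Pool.Agent.SFB (Con dg nc)
open Pool.Agent.SFG (pf PF Gen Rel vv ww supF RelF T_LOW T_CNV T_LOB T_YFN)

namespace Final_

/-- Every star takes at most half of the remaining vertices. -/
lemma halving (a : ℕ → ℕ) (k M : ℕ) (hM : ∀ i < k, ∑ t ∈ range i, a t + 2 * a i ≤ M) :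
    ∀ i ≤ k, 2 ^ i * ∑ t ∈ range i, a t + M ≤ 2 ^ i * M := by
  intro i
  induction i with
  | zero => intro _; simp
  | succ i ih =>
    intro hi
    have h1 := ih (by omega)
    have h2 := hM i (by omega)
    rw [sum_range_succ, pow_succ]
    have h3 : 2 ^ i * (∑ t ∈ range i, a t + 2 * a i) ≤ 2 ^ i * M := Nat.mul_le_mul_left _ h2
    have h4 : 2 ^ i * 2 * (∑ t ∈ range i, a t + a i) + M =
        2 ^ i * (∑ t ∈ range i, a t + 2 * a i) + (2 ^ i * ∑ t ∈ range i, a t + M) := by ring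
    rw [h4]
    calc _ ≤ 2 ^ i * M + 2 ^ i * M := Nat.add_le_add h3 h1
      _ = 2 ^ i * 2 * M := by ring

/-- The parameters. -/
lemma par (k : ℕ) (hk : 2 ≤ k) (δ : ℝ) (hδ : 0 < δ) (hδ1 : δ ≤ 1) : ∃ q : ℕ, 1 ≤ q ∧
    ∀ E0 : ℕ, ∃ n₀ : ℕ, 1 ≤ n₀ ∧ ∀ (a : ℕ → ℕ) (M : ℕ), (∀ s t, s ≤ t → t < k → a t ≤ a s) →
    (∀ t < k, n₀ ≤ a t) → (∀ i < k, ∑ t ∈ range i, a t + 2 * a i ≤ M) →
    (1 + δ) * (2 * (a 0 : ℝ)) ≤ M →
    ∃ e, E0 ≤ e ∧ ∀ N, M ≤ N → N ≤ M + 3 * k → Par a k q e N := by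
  set δ' : ℝ := δ / 2 ^ (k + 5) with hδ'
  have hp : (0 : ℝ) < 2 ^ (k + 5) := by positivity
  have hδp : 0 < δ' := div_pos hδ hp
  have hpd : δ' * 2 ^ (k + 5) = δ := by rw [hδ']; field_simp
  obtain ⟨q, hq⟩ := exists_nat_ge (4 / δ')
  have hq0 : (0 : ℝ) < q := lt_of_lt_of_le (by positivity) hq
  have hq1 : 1 ≤ q := by
    have : 0 < q := by exact_mod_cast hq0
    omega
  refine ⟨q, hq1, ?_⟩
  intro E0
  obtain ⟨n1, hn1⟩ := exists_nat_ge (2 * (100000 * (k : ℝ) ^ 3 + E0 + 1) / δ')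
  refine ⟨n1 + 200 * k ^ 2 + 3 * k + 1, by omega, ?_⟩
  intro a M hanti hbig hM hdom
  have ha0 := hbig 0 (by omega)
  have hM0 := hM 0 (by omega)
  rw [range_zero, sum_empty, zero_add] at hM0
  have hMn : (n1 : ℝ) ≤ M := by
    have h1 : n1 ≤ M := by omega
    exact_mod_cast h1
  have hbigM : 2 * (100000 * (k : ℝ) ^ 3 + E0 + 1) ≤ δ' * M := by
    have h1 : 2 * (100000 * (k : ℝ) ^ 3 + E0 + 1) / δ' ≤ M := hn1.trans hMn
    rw [div_le_iff₀ hδp] at h1
    linarith
  have hMr : (0 : ℝ) ≤ M := Nat.cast_nonneg _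
  have hk3 : (0 : ℝ) ≤ (k : ℝ) ^ 3 := by positivity
  have hE0 : (0 : ℝ) ≤ E0 := Nat.cast_nonneg _
  set e : ℕ := ⌊δ' * M⌋₊ with he
  have he1 : (e : ℝ) ≤ δ' * M := Nat.floor_le (by positivity)
  have he2 : δ' * M < e + 1 := Nat.lt_floor_add_one _
  have he3 : δ' * M / 2 ≤ e := by linarith
  have hke : (100000 * (k : ℝ) ^ 3 + E0) ≤ e := by linarith
  have hall : ∑ t ∈ range k, a t + 16 * e ≤ M := by
    have h1 := halving a k M hM k le_rfl
    have h2 : ((2 ^ k * (16 * e) : ℕ) : ℝ) ≤ (M : ℝ) := by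
      push_cast
      have h3 : (2 : ℝ) ^ k * (16 * e) ≤ 2 ^ k * (16 * (δ' * M)) :=
        mul_le_mul_of_nonneg_left (by linarith) (by positivity)
      have h4 : (2 : ℝ) ^ k * (16 * (δ' * M)) = (δ' * 2 ^ (k + 5)) * M / 2 := by
        rw [pow_add]; ring
      rw [h4, hpd] at h3
      have h5 : δ * M ≤ 1 * M := mul_le_mul_of_nonneg_right hδ1 hMr
      linarith
    have h3 : 2 ^ k * (16 * e) ≤ M := by exact_mod_cast h2
    have h4 : 2 ^ k * (∑ t ∈ range k, a t + 16 * e) ≤ 2 ^ k * M := by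
      rw [Nat.mul_add]
      omega
    exact Nat.le_of_mul_le_mul_left h4 (by positivity)
  have htwo : 2 * a 0 + 16 * e ≤ M := by
    have h1 : (16 : ℝ) * e ≤ δ * M / 4 := by
      have h2 : (128 : ℝ) ≤ 2 ^ (k + 5) := by
        calc (128 : ℝ) = 2 ^ (2 + 5) := by norm_num
          _ ≤ 2 ^ (k + 5) := pow_le_pow_right₀ (by norm_num) (by omega)
      have h3 : 128 * δ' ≤ δ := by
        rw [← hpd]
        nlinarith
      have h4 : 128 * δ' * M ≤ δ * M := mul_le_mul_of_nonneg_right h3 hMr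
      linarith
    have h5 : (1 + δ) * (2 * (a 0 : ℝ) + 16 * e) ≤ (1 + δ) * M := by
      have h6 : (1 + δ) * (16 * (e : ℝ)) ≤ 2 * (δ * M / 4) :=
        mul_le_mul (by linarith) h1 (by positivity) (by norm_num)
      have h7 : 0 ≤ δ * M := by positivity
      nlinarith
    have h8 : 2 * (a 0 : ℝ) + 16 * e ≤ M := le_of_mul_le_mul_left h5 (by linarith)
    exact_mod_cast h8
  refine ⟨e, ?_, ?_⟩
  · have h1 : (E0 : ℝ) ≤ e := by linarith
    exact_mod_cast h1
  · intro N hMN hNM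
    refine ⟨hk, hanti, fun i hi => (hM i hi).trans hMN, hall.trans hMN, htwo.trans hMN, ?_, ?_,
      ?_⟩
    · have h1 : (N : ℝ) ≤ 2 * M := by
        have h2 : N ≤ 2 * M := by omega
        exact_mod_cast h2
      have h3 : 4 ≤ q * δ' := by rwa [div_le_iff₀ hδp] at hq
      have h4 : (q : ℝ) * (δ' * M / 2) ≤ q * e := mul_le_mul_of_nonneg_left he3 hq0.le
      have h5 : 4 * (M : ℝ) ≤ q * δ' * M := mul_le_mul_of_nonneg_right h3 hMr
      have h8 : (N : ℝ) ≤ ((q * e : ℕ) : ℝ) := by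
        push_cast
        linarith
      exact_mod_cast h8
    · intro t ht
      have h1 := hbig t ht
      omega
    · have h1 : ((100000 * k ^ 3 : ℕ) : ℝ) ≤ (e : ℝ) := by
        push_cast
        linarith
      exact_mod_cast h1

/-- The Ramsey number is the block number. -/
lemma bvl (hLOW : T_LOW) (hCNV : T_CNV) (a : ℕ → ℕ) (k M N1 : ℕ)
    (hU : ∀ N, M ≤ N → N ≤ N1 →
      (∀ x y c : ℕ, x + y = N → c + 1 < k → (c < x ∨ c = 0) → pf a k x y c) →
      ∀ G : SimpleGraph (Fin N), Con G k a ∨ Con Gᶜ k a)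
    (hlow : ∀ N < M, ∃ x y c : ℕ, x + y = N ∧ c + 1 < k ∧ (c < x ∨ c = 0) ∧ ¬ pf a k x y c)
    (hN1 : ∀ G : SimpleGraph (Fin N1), Con G k a ∨ Con Gᶜ k a) :
    ramsey (starForest (fun i : Fin k => a i)) (starForest (fun i : Fin k => a i)) =
      sInf {N : ℕ | ∀ x y c : ℕ, x + y = N → c + 1 < k → (c < x ∨ c = 0) →
        PF (fun i : Fin k => a i) x y c} ∧
    M ≤ sInf {N : ℕ | ∀ x y c : ℕ, x + y = N → c + 1 < k → (c < x ∨ c = 0) →
        PF (fun i : Fin k => a i) x y c} := by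
  set S : Set ℕ :=
    {N : ℕ | ∀ x y c : ℕ, x + y = N → c + 1 < k → (c < x ∨ c = 0) →
      PF (fun i : Fin k => a i) x y c} with hS
  set R : Set ℕ := {N : ℕ | ∀ G : SimpleGraph (Fin N),
    (starForest (fun i : Fin k => a i)).IsContained G ∨
      (starForest (fun i : Fin k => a i)).IsContained Gᶜ} with hR
  have hRS : R ⊆ S := by
    intro N hN x y c hxy _ hc
    subst hxy
    by_contra hcon
    obtain ⟨G, h1, h2⟩ := hLOW k (fun i : Fin k => a i) x y c hc hcon
    rcases hN G with h | h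
    · exact h1 h
    · exact h2 h
  have hR1 : N1 ∈ R := fun G => hN1 G
  have hRm : sInf R ∈ R := Nat.sInf_mem ⟨_, hR1⟩
  have hSm : sInf S ∈ S := Nat.sInf_mem ⟨_, hRS hR1⟩
  have h1 : sInf S ≤ sInf R := Nat.sInf_le (hRS hRm)
  have h2 : sInf R ≤ N1 := Nat.sInf_le hR1
  have h3 : M ≤ sInf S := by
    by_contra hcon
    obtain ⟨x, y, c, hxy, hc, hcx, hpf⟩ := hlow (sInf S) (not_le.1 hcon)
    exact hpf ((hCNV k a x y c).mpr (hSm x y c hxy hc hcx))
  have h4 : sInf S ∈ R := fun G => hU (sInf S) h3 (h1.trans h2)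
    (fun x y c hxy hck hc => (hCNV k a x y c).mpr (hSm x y c hxy hck hc)) G
  exact ⟨le_antisymm (Nat.sInf_le h4) h1, h3⟩

/-- An upper bound for the block number. -/
lemma le_value (hCNV : T_CNV) (a : ℕ → ℕ) (k b : ℕ)
    (hU : ∀ x y c : ℕ, x + y = b → c + 1 < k → pf a k x y c) :
    sInf {N : ℕ | ∀ x y c : ℕ, x + y = N → c + 1 < k → (c < x ∨ c = 0) →
      PF (fun i : Fin k => a i) x y c} ≤ b :=
  Nat.sInf_le (fun x y c hxy hc _ => (hCNV k a x y c).1 (hU x y c hxy hc))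

/-- The block number from the two bounds. -/
lemma value (hCNV : T_CNV) (a : ℕ → ℕ) (k M b : ℕ)
    (hlow : ∀ N < M, ∃ x y c : ℕ, x + y = N ∧ c + 1 < k ∧ (c < x ∨ c = 0) ∧ ¬ pf a k x y c)
    (hU : ∀ x y c : ℕ, x + y = b → c + 1 < k → pf a k x y c)
    (hL : ∀ N, M ≤ N → N + 1 ≤ b →
      ∃ x y c : ℕ, x + y = N ∧ c + 1 < k ∧ (c < x ∨ c = 0) ∧ ¬ pf a k x y c) :
    sInf {N : ℕ | ∀ x y c : ℕ, x + y = N → c + 1 < k → (c < x ∨ c = 0) →
      PF (fun i : Fin k => a i) x y c} = b := by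
  apply le_antisymm (le_value hCNV a k b hU)
  apply le_csInf
  · exact ⟨b, fun x y c hxy hc _ => (hCNV k a x y c).1 (hU x y c hxy hc)⟩
  · intro N hN
    by_contra hlt
    push Not at hlt
    have h : ∃ x y c : ℕ, x + y = N ∧ c + 1 < k ∧ (c < x ∨ c = 0) ∧ ¬ pf a k x y c := by
      rcases Nat.lt_or_ge N M with h | h
      · exact hlow N h
      · exact hL N h hlt
    obtain ⟨x, y, c, hxy, hc, hcx, hnp⟩ := h
    exact hnp ((hCNV k a x y c).2 (hN x y c hxy hc hcx))

lemma vv_le (k K m : ℕ) (hK : K < k) : vv k K m ≤ 2 * k := by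
  have h1 : k / (K + 1) ≤ k := Nat.div_le_self _ _
  rw [vv]
  split_ifs <;> omega

lemma ww_le (k K p : ℕ) (hK : K < k) : ww k K p ≤ 2 * k := by
  rw [ww]
  have h1 : min (p + 1) (k - 1 - p) ≤ k := (min_le_right _ _).trans (by omega)
  have h2 : min (K + 1 - p) (p + (k - 1 - K)) ≤ k := (min_le_left _ _).trans (by omega)
  omega

lemma supF_le {k : ℕ} (n : Fin k → ℕ) (j : Fin k) : supF n j ≤ 2 * k :=
  Finset.sup_le (fun P _ => ww_le k j P.card j.2)

end Final_

open Final_ in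
/-- The theorem. -/
theorem final (hUPP : T_UPP) (hLOW : T_LOW) (hCNV : T_CNV) (hLOB : T_LOB) (hYFN : T_YFN)
    (hYUB : T_YUB) (hYUP : T_YUP) (hYLV : T_YLV) (hYLW : T_YLW) (hXUT : T_XUT) (hXLT : T_XLT)
    (k : ℕ) (δ : ℝ) (hδ : 0 < δ) :
    ∃ n₀ : ℕ, ∀ n : Fin k → ℕ, Antitone n → (∀ i, n₀ ≤ n i) →
      (∃ j, ∀ i, (1 + δ) * (2 * n i : ℝ) ≤ ((n j + ∑ l ∈ Iic j, n l : ℕ) : ℝ)) →
      ramsey (starForest n) (starForest n) =
        sInf {N : ℕ | ∀ x y c : ℕ, x + y = N → c + 1 < k → (c < x ∨ c = 0) → PF n x y c} ∧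
      ((∀ j, n j + ∑ l ∈ Iic j, n l ≤ ramsey (starForest n) (starForest n)) ∧
        ∃ j, ramsey (starForest n) (starForest n) ≤ n j + ∑ l ∈ Iic j, n l + (k - 1)) ∧
      ((∀ A B : Finset (Fin k), A ≠ B → ∑ i ∈ A, n i ≤ ∑ i ∈ B, n i →
          ∑ i ∈ A, n i + 5 * k ^ 2 < ∑ i ∈ B, n i) →
        ramsey (starForest n) (starForest n) =
          (univ.filter (fun j : Fin k => 0 < (j : ℕ))).sup
            (fun j => n j + ∑ l ∈ Iic j, n l + max (vv k j (n j)) (supF n j))) ∧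
      (∀ h : k = 3, ramsey (starForest n) (starForest n) =
        max (n ⟨0, by omega⟩ + 2 * n ⟨1, by omega⟩ + 1)
          (n ⟨0, by omega⟩ + n ⟨1, by omega⟩ + 2 * n ⟨2, by omega⟩ +
            (if n ⟨0, by omega⟩ = n ⟨1, by omega⟩ ∨
              n ⟨1, by omega⟩ + n ⟨2, by omega⟩ ≤ n ⟨0, by omega⟩ then 1 else 0))) ∧
      (3 ≤ k → ∀ j : Fin k, (j : ℕ) = 1 →
        (∀ i, i ≠ j → (1 + δ) * ((n i + ∑ l ∈ Iic i, n l : ℕ) : ℝ) ≤
          ((n j + ∑ l ∈ Iic j, n l : ℕ) : ℝ)) →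
        ramsey (starForest n) (starForest n) =
          n j + ∑ l ∈ Iic j, n l + k / 2 - (if k % 4 = 2 ∧ n j % 2 = 0 then 1 else 0)) ∧
      ((∀ i j, n i = n j) → ∀ j, ramsey (starForest n) (starForest n) =
        (k + 1) * n j + k - 2) := by
  rcases Nat.lt_or_ge k 2 with hk | hk
  · refine ⟨1, ?_⟩
    intro n _ hbig hdom
    exfalso
    obtain ⟨j, hj⟩ := hdom
    have h1 := hj j
    have hj0 : (j : ℕ) = 0 := by
      have := j.2
      omega
    have h2 : Iic j = {j} := by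
      ext i
      rw [mem_Iic, mem_singleton]
      constructor
      · intro _
        apply Fin.ext
        have := i.2
        omega
      · intro h
        rw [h]
    rw [h2, sum_singleton] at h1
    push_cast at h1
    have h3 : (1 : ℝ) ≤ n j := by exact_mod_cast hbig j
    nlinarith
  obtain ⟨q, hq1, hpar⟩ := par k hk (min δ 1) (lt_min hδ one_pos) (min_le_right _ _)
  obtain ⟨E0, hE0⟩ := hUPP k q hk hq1
  obtain ⟨n₀, hn0, hpar'⟩ := hpar E0
  obtain ⟨n₁, hn1⟩ := Pool.Agent.SFG.all_final k δ hδ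
  obtain ⟨n₂, hn2⟩ := Pool.Agent.SFG.all_final k (1 / 2 / (k : ℝ)) (by positivity)
  refine ⟨n₀ + n₁ + n₂, ?_⟩
  intro n hanti hbig hdom
  have hanti0 := hanti
  obtain ⟨a, rfl⟩ := Pool.Agent.SFG.Final_.nat_sizes n
  have hanti' : ∀ s t, s ≤ t → t < k → a t ≤ a s := fun s t hst ht =>
    hanti (a := (⟨s, by omega⟩ : Fin k)) (b := ⟨t, ht⟩) hst
  have hbig' : ∀ t < k, n₀ ≤ a t := fun t ht => by
    have := hbig ⟨t, ht⟩
    simp only at this
    omega
  obtain ⟨K, hKr, hKmax⟩ := exists_max_image (range k)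
    (fun i => ∑ t ∈ range (i + 1), a t + a i) ⟨0, mem_range.2 (by omega)⟩
  rw [mem_range] at hKr
  set M : ℕ := ∑ t ∈ range (K + 1), a t + a K with hMdef
  have hMmax : ∀ i < k, ∑ t ∈ range (i + 1), a t + a i ≤ M := fun i hi =>
    hKmax i (mem_range.2 hi)
  have hMlo : ∀ i < k, ∑ t ∈ range i, a t + 2 * a i ≤ M := by
    intro i hi
    have := hMmax i hi
    rw [sum_range_succ] at this
    omega
  have hdom' : (1 + min δ 1) * (2 * (a 0 : ℝ)) ≤ M := by
    obtain ⟨j, hj⟩ := hdom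
    have h1 := hj ⟨0, by omega⟩
    simp only [Pool.Agent.SFG.Final_.sum_Iic] at h1
    have h2 := hMmax j j.2
    have h3 : ((a j + ∑ t ∈ range ((j : ℕ) + 1), a t : ℕ) : ℝ) ≤ M := by
      have : a j + ∑ t ∈ range ((j : ℕ) + 1), a t ≤ M := by omega
      exact_mod_cast this
    have h4 : (1 + min δ 1) * (2 * (a 0 : ℝ)) ≤ (1 + δ) * (2 * (a 0 : ℝ)) :=
      mul_le_mul_of_nonneg_right (by linarith [min_le_left δ 1]) (by positivity)
    linarith
  have hmin : 0 < min δ 1 := lt_min hδ one_pos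
  have ha0 : 1 ≤ a 0 := by
    have := hbig' 0 (by omega)
    omega
  have hK1 : 1 ≤ K := by
    by_contra hK0
    have hK0' : K = 0 := by omega
    rw [hMdef, hK0'] at hdom'
    simp only [zero_add, range_one, sum_singleton] at hdom'
    push_cast at hdom'
    have h3 : (1 : ℝ) ≤ a 0 := by exact_mod_cast ha0
    nlinarith
  obtain ⟨e, he0, hP⟩ := hpar' a M hanti' hbig' hMlo hdom'
  have haK : 1 ≤ a K := by
    have := hbig' K hKr
    omega
  have hlow : ∀ N < M, ∃ x y c : ℕ, x + y = N ∧ c + 1 < k ∧ (c < x ∨ c = 0) ∧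
      ¬ pf a k x y c := by
    intro N hN
    obtain ⟨x, y, hxy, hnp⟩ := hLOB a k K hK1 hKr hanti' haK N hN
    exact ⟨x, y, 0, hxy, by omega, Or.inr rfl, hnp⟩
  have hup := Pool.Agent.SFG.Final_.upper k (by omega) a M
    (fun i hi => by have := hMmax i hi; omega)
  obtain ⟨hmain, hMle⟩ := bvl hLOW hCNV a k M (M + 3 * k - 2)
    (fun N h1 h2 h3 => hE0 a e N he0 (hP N h1 (by omega)) h3) hlow hup
  have hub : ∀ x y c : ℕ, x + y = M + (k - 1) → c + 1 < k → pf a k x y c :=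
    hYUB a k q e _ (hP _ (by omega) (by omega)) (fun i hi _ => by
      have := hMmax i hi
      omega)
  have hle := le_value hCNV a k _ hub
  refine ⟨hmain, ⟨?_, ?_⟩, ?_, ?_, ?_, ?_⟩
  · intro j
    rw [hmain]
    have h1 := hMmax j j.2
    simp only [Pool.Agent.SFG.Final_.sum_Iic]
    omega
  · refine ⟨⟨K, hKr⟩, ?_⟩
    rw [hmain]
    simp only [Pool.Agent.SFG.Final_.sum_Iic]
    omega
  · intro hgen
    rw [hmain]
    have hG : Gen a k (5 * k ^ 2) := (hYFN k a ⟨0, by omega⟩).1 hgen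
    simp only [Pool.Agent.SFG.Final_.sum_Iic]
    set b : ℕ := (univ.filter (fun j : Fin k => 0 < (j : ℕ))).sup
      (fun j => a j + ∑ t ∈ range ((j : ℕ) + 1), a t +
        max (vv k j (a j)) (supF (fun i : Fin k => a i) j)) with hb
    have hbj : ∀ j : Fin k, 0 < (j : ℕ) → a j + ∑ t ∈ range ((j : ℕ) + 1), a t +
        max (vv k j (a j)) (supF (fun i : Fin k => a i) j) ≤ b := fun j hj =>
      Finset.le_sup (f := fun j : Fin k => a j + ∑ t ∈ range ((j : ℕ) + 1), a t +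
        max (vv k j (a j)) (supF (fun i : Fin k => a i) j)) (mem_filter.2 ⟨mem_univ _, hj⟩)
    have hbM : M ≤ b := by
      have := hbj ⟨K, hKr⟩ hK1
      simp only at this
      omega
    have hbu : b ≤ M + 3 * k := by
      refine Finset.sup_le (fun j hj => ?_)
      have h1 := hMmax j j.2
      have h2 := vv_le k j (a j) j.2
      have h3 := supF_le (fun i : Fin k => a i) j
      have h4 : max (vv k j (a j)) (supF (fun i : Fin k => a i) j) ≤ 2 * k := max_le h2 h3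
      omega
    refine value hCNV a k M b hlow ?_ ?_
    · apply hYUP a k q e b (hP b hbM hbu) hG
      · intro i hi hi1
        have h1 := hbj ⟨i, hi⟩ hi1
        have h2 := le_max_left (vv k i (a i)) (supF (fun i : Fin k => a i) ⟨i, hi⟩)
        simp only at h1
        omega
      · intro i hi hi1 P hP1 hP2 hP3 hP4
        have h1 := hbj ⟨i, hi⟩ hi1
        have h2 := le_max_right (vv k i (a i)) (supF (fun i : Fin k => a i) ⟨i, hi⟩)
        have h3 := (hYFN k a ⟨i, hi⟩).2.1 P hP1 hP2 hP3 hP4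
        simp only at h1 h3
        omega
    · intro N hMN hNb
      have hPN := hP N hMN (by omega)
      have h1 : N < b := hNb
      rw [hb, Finset.lt_sup_iff] at h1
      obtain ⟨j, hj, hjN⟩ := h1
      rw [mem_filter] at hj
      have hMj := hMmax j j.2
      rcases Nat.lt_or_ge N (a j + ∑ t ∈ range ((j : ℕ) + 1), a t + vv k j (a j)) with h | h
      · exact hYLV a k q e N j hPN hG hj.2 j.2 (by omega)
      · have h2 : N < a j + ∑ t ∈ range ((j : ℕ) + 1), a t + supF (fun i : Fin k => a i) j := by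
          rcases le_total (vv k j (a j)) (supF (fun i : Fin k => a i) j) with h3 | h3
          · rwa [max_eq_right h3] at hjN
          · rw [max_eq_left h3] at hjN
            omega
        have h3 : 0 < supF (fun i : Fin k => a i) j := by omega
        obtain ⟨P, hP1, hP2, hP3, hP4, hP5⟩ := (hYFN k a j).2.2 h3
        exact hYLW a k q e N j P hPN hG hj.2 j.2 hP1 hP2 hP3 hP4 (by omega)
  · intro h3
    subst h3
    rw [hmain]
    have hs0 := hMmax 0 (by omega)
    have hs1 := hMmax 1 (by omega)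
    have hs2 := hMmax 2 (by omega)
    simp only [sum_range_succ, range_zero, sum_empty, zero_add] at hs0 hs1 hs2
    have hif : (if a 0 = a 1 ∨ a 1 + a 2 ≤ a 0 then 1 else 0) ≤ 1 := by
      split_ifs <;> omega
    have hMv : M = a 0 + 2 * a 1 ∨ M = a 0 + a 1 + 2 * a 2 := by
      have hK' : K = 1 ∨ K = 2 := by omega
      rcases hK' with h | h
      · left
        rw [hMdef, h]
        simp only [sum_range_succ, range_zero, sum_empty, zero_add]
        omega
      · right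
        rw [hMdef, h]
        simp only [sum_range_succ, range_zero, sum_empty, zero_add]
        omega
    have hmx : M ≤ max (a 0 + 2 * a 1 + 1)
        (a 0 + a 1 + 2 * a 2 + (if a 0 = a 1 ∨ a 1 + a 2 ≤ a 0 then 1 else 0)) := by
      rcases hMv with h | h
      · exact le_trans (by omega) (le_max_left _ _)
      · exact le_trans (by omega) (le_max_right _ _)
    have hmu : max (a 0 + 2 * a 1 + 1)
        (a 0 + a 1 + 2 * a 2 + (if a 0 = a 1 ∨ a 1 + a 2 ≤ a 0 then 1 else 0)) ≤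
        M + 3 * 3 := max_le (by omega) (by omega)
    have hP0 := hP M le_rfl (by omega)
    refine value hCNV a 3 M _ hlow ?_ ?_
    · exact hXUT a q e _ (hP _ hmx hmu) rfl
    · intro N hMN hNb
      have h2 := hP0.min 2 (by omega)
      exact hXLT a N (hanti' 0 1 (by omega) (by omega)) (hanti' 1 2 (by omega) (by omega))
        (by omega) (by omega) (by omega) hNb
  · intro hk3 j hj1 hgap
    exact (hn1 _ hanti0 (fun i => le_trans (by omega) (hbig i)) j (by omega) hgap).2.1 hk3 hj1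
  · intro heq j
    have hkr : (0 : ℝ) < k := by
      have : 0 < k := by omega
      exact_mod_cast this
    have hlast : k - 1 < k := by omega
    have heq' : ∀ t < k, a t = a (k - 1) := fun t ht => heq ⟨t, ht⟩ ⟨k - 1, hlast⟩
    have hsum : ∀ i < k, ∑ t ∈ range (i + 1), a t = (i + 1) * a (k - 1) := by
      intro i hi
      rw [sum_congr rfl (fun t ht => heq' t (by rw [mem_range] at ht; omega)), sum_const,
        card_range, smul_eq_mul]
    have h1 := (hn2 _ hanti0 (fun i => le_trans (by omega) (hbig i)) ⟨k - 1, hlast⟩ (by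
      simp only
      omega) (by
      intro i hi
      have hik : (i : ℕ) + 1 ≤ k - 1 := by
        have h2 := i.2
        have h3 : (i : ℕ) ≠ k - 1 := fun h => hi (Fin.ext h)
        omega
      simp only [Pool.Agent.SFG.Final_.sum_Iic]
      rw [hsum i i.2, hsum (k - 1) hlast, heq' i i.2]
      have h4 : (((a (k - 1) + ((i : ℕ) + 1) * a (k - 1) : ℕ)) : ℝ) ≤ k * a (k - 1) := by
        have : a (k - 1) + ((i : ℕ) + 1) * a (k - 1) ≤ k * a (k - 1) := by
          calc a (k - 1) + ((i : ℕ) + 1) * a (k - 1) = ((i : ℕ) + 2) * a (k - 1) := by ring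
            _ ≤ k * a (k - 1) := Nat.mul_le_mul_right _ (by omega)
        exact_mod_cast this
      have h5 : ((a (k - 1) + (k - 1 + 1) * a (k - 1) : ℕ) : ℝ) =
          ((k : ℝ) + 1) * a (k - 1) := by
        have : k - 1 + 1 = k := by omega
        rw [this]
        push_cast
        ring
      rw [h5]
      have h6 : (1 + 1 / 2 / (k : ℝ)) * ((k : ℝ) * a (k - 1)) =
          ((k : ℝ) + 1 / 2) * a (k - 1) := by
        field_simp
      have h7 : (1 + 1 / 2 / (k : ℝ)) * ((a (k - 1) + ((i : ℕ) + 1) * a (k - 1) : ℕ) : ℝ) ≤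
          (1 + 1 / 2 / (k : ℝ)) * ((k : ℝ) * a (k - 1)) :=
        mul_le_mul_of_nonneg_left h4 (by positivity)
      have h8 : (0 : ℝ) ≤ a (k - 1) := Nat.cast_nonneg _
      linarith)).2.2.2 (fun i => heq i _)
    rw [heq j ⟨k - 1, hlast⟩]
    exact h1

end Pool.Agent.SFH
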