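import Pool.Agent.SFH.Targets

/-!
# Block CMN of project SFH (MP_705b7e_co)

Few common non-neighbours, by double counting.
-/

set_option autoImplicit false

open Finset

namespace Pool.Agent.SFH

open Pool.Agent.StarF (starForest ramsey)
open Pool.Agent.SFB (Con dg nc Two mem_dg mem_dg_comm)
open Pool.Agent.SFG (Cov Vio Sys Out Typ Tig pf PF)

namespace CMN_

variable {V : Type} [Fintype V] [DecidableEq V]

/-- Double counting of the pairs `u' ∈ A`, `w ∈ D` that are not adjacent. -/
lemma count (G : SimpleGraph V) (A D : Finset V) :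
    ∑ u' ∈ A, (D \ dg G u').card = ∑ w ∈ D, (A \ dg G w).card := by
  have h1 : ∀ u' ∈ A, (D \ dg G u').card = ∑ w ∈ D, if w ∉ dg G u' then 1 else 0 := by
    intro u' _
    rw [← Finset.card_filter, Finset.sdiff_eq_filter]
  have h2 : ∀ w ∈ D, (A \ dg G w).card = ∑ u' ∈ A, if w ∉ dg G u' then 1 else 0 := by
    intro w _
    rw [← Finset.card_filter, Finset.sdiff_eq_filter]
    congr 1
    apply Finset.filter_congr
    intro x _
    rw [mem_dg_comm]
  rw [Finset.sum_congr rfl h1, Finset.sum_congr rfl h2, Finset.sum_comm]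

end CMN_

theorem p_CMN : T_CMN := by
  intro V _ _ G W Z l u hu hl hW
  by_contra hcon
  push Not at hcon
  set D := Z \ dg G u with hD
  have hinter : ∀ u' : V, D ∩ (Z \ dg G u') = D \ dg G u' := by
    intro u'
    ext x
    simp only [hD, mem_inter, mem_sdiff]
    tauto
  have h1 : ∀ u' ∈ W.erase u, D.card + 1 ≤ 4 * (D \ dg G u').card := by
    intro u' hu'
    have h := hcon u' (mem_of_mem_erase hu') (ne_of_mem_erase hu')
    rw [hinter] at h
    omega
  have h2 : (W.erase u).card * (D.card + 1) ≤ 4 * ∑ u' ∈ W.erase u, (D \ dg G u').card := by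
    rw [Finset.mul_sum, ← smul_eq_mul, ← Finset.sum_const]
    exact Finset.sum_le_sum h1
  rw [CMN_.count] at h2
  have h3 : ∑ w ∈ D, (W.erase u \ dg G w).card ≤ D.card * l := by
    rw [← smul_eq_mul, ← Finset.sum_const]
    refine Finset.sum_le_sum fun w hw => ?_
    refine le_trans (Finset.card_le_card ?_) (hl w (mem_sdiff.1 hw).1)
    exact Finset.sdiff_subset_sdiff (Finset.erase_subset _ _) (le_refl _)
  have h4 : 4 * l + 1 ≤ (W.erase u).card := by
    rw [Finset.card_erase_of_mem hu]
    omega
  have h5 : (4 * l + 1) * (D.card + 1) ≤ 4 * (D.card * l) :=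
    le_trans (Nat.mul_le_mul_right _ h4) (le_trans h2 (Nat.mul_le_mul_left _ h3))
  nlinarith

end Pool.Agent.SFH
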