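import Pool.Agent.SFH.Targets

/-!
# SFH: proof of the target COL (one colour)
-/

set_option autoImplicit false

open Finset

namespace Pool.Agent.SFH

open Pool.Agent.StarF (starForest ramsey)
open Pool.Agent.SFB (Con dg nc Two)
open Pool.Agent.SFG (Cov Vio Sys Out Typ Tig pf PF)

namespace COL_

/-- The constants: `T = Q ^ 2 * (z + 6 k + 3)` and `U = Q * (z + 6 k + 3)`. -/
lemma consts {k e N f z Q : ℕ} (h : Lev k e N f z Q) :
    ∃ T U : ℕ, T = Q ^ 2 * (z + 6 * k + 3) ∧ U = Q * (z + 6 * k + 3) ∧ BB k Q z = 64 * T ∧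
      U ≤ T ∧ z + 6 * k + 3 ≤ U ∧ 20000000 * T ≤ f ∧ Q * U = T := by
  refine ⟨Q ^ 2 * (z + 6 * k + 3), Q * (z + 6 * k + 3), rfl, rfl, ?_, ?_, ?_, ?_, ?_⟩
  · unfold BB
    ring
  · have h1 : Q * (z + 6 * k + 3) = 1 * (Q * (z + 6 * k + 3)) := by ring
    have h2 : Q ^ 2 * (z + 6 * k + 3) = Q * (Q * (z + 6 * k + 3)) := by ring
    rw [h2]
    exact h1.le.trans (Nat.mul_le_mul_right _ h.q1)
  · calc z + 6 * k + 3 = 1 * (z + 6 * k + 3) := by ring
      _ ≤ Q * (z + 6 * k + 3) := Nat.mul_le_mul_right _ h.q1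
  · refine le_trans ?_ h.gap
    have h1 : 1 ≤ 2 ^ k := Nat.one_le_two_pow
    calc 20000000 * (Q ^ 2 * (z + 6 * k + 3))
        = 1 * (20000000 * (Q ^ 2 * (z + 6 * k + 3))) := by ring
      _ ≤ 2 ^ k * (20000000 * (Q ^ 2 * (z + 6 * k + 3))) := Nat.mul_le_mul_right _ h1
      _ = 20000000 * 2 ^ k * Q ^ 2 * (z + 6 * k + 3) := by ring
  · ring

lemma deg {V : Type} [Fintype V] [DecidableEq V] {G : SimpleGraph V} {a : ℕ → ℕ} {f i : ℕ}
    {c : ℕ → V} (h : HS G a f i c) {t : ℕ} (ht : t < i) : a t + f ≤ (dg G (c t)).card := by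
  have h1 := h.hal {t} (singleton_subset_iff.2 (mem_range.2 ht)) (singleton_nonempty t)
  rw [sum_singleton] at h1
  have h2 : nc G c {t} = dg G (c t) := by
    unfold nc
    rw [singleton_biUnion]
  rwa [h2] at h1

end COL_

open COL_ in
theorem p_COL (hVIO : T_VIO) (hNKB : T_NKB) (hSMA : Pool.Agent.SFG.T_SMA)
    (hSMB : Pool.Agent.SFG.T_SMB) (hTYZ : T_TYZ) (hSTR : T_STR) : T_COL := by
  intro V _ _ G Y X L P a k K q e f z Q c hP hL hcov hX hK hHS hmax hcY hF1 hF2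
  obtain ⟨T, U, hT, hU, hB, hUT, hZU, hTf, hQU⟩ := consts hL
  have hfe := hL.fe
  have hk2 := hP.k2
  have hzf : z ≤ f := by omega
  have hN := hNKB V G Y X L P a f z K (6 * k + 2) c hcov hX hHS hzf hmax hcY
  have hK1 : 1 ≤ K := by
    by_contra hcon
    have hK0 : K = 0 := by omega
    subst hK0
    have h1 := hP.two
    rw [range_zero, sum_empty] at hN
    omega
  have hNB : Fintype.card V ≤ ∑ t ∈ range K, a t + 2 * a K + BB k Q z := by omega
  have hcrit := (hP.crit hK hNB).1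
  have haK : 7 * e ≤ a K := by omega
  have hlo := hP.lo K hK
  have ha : ∀ t < K, a K ≤ a t := fun t ht => hP.anti t K ht.le hK
  have ha0 : f ≤ a 0 := by
    have h1 := ha 0 hK1
    omega
  have hvio : ∀ v ∈ Y, ∃ J, Vio G a z K c v J := by
    intro v hv
    refine hVIO V G a f z K c v hHS hzf hK1 hmax ?_
    intro hv2
    obtain ⟨t, ht, htv⟩ := Finset.mem_image.1 hv2
    exact hcY t (Finset.mem_range.1 ht) (htv ▸ hv)
  choose! J hJ using hvio
  have hA := hSMA V G Y X L P a z K Q f (6 * k + 2) c J hcov hX (by omega) hJ hHS.hal hlo hL.up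
  have hBB := hSMB V G Y X L P a z K Q f (6 * k + 2) c J hcov hX (by omega) hJ hHS.hal hlo hL.up
    hK1 ha0
  have hcast : (Q : ℝ) * (((6 * k + 2 : ℕ) : ℝ) + (z : ℝ)) ≤ ((Q * (6 * k + 2 + z) : ℕ) : ℝ) := by
    push_cast
    exact le_rfl
  have hM : Q * (6 * k + 2 + z) + (6 * k + 2) + 1 ≤ 2 * U := by
    have h1 : Q * (6 * k + 2 + z) ≤ U := by
      rw [hU]
      exact Nat.mul_le_mul_left _ (by omega)
    omega
  have hb16 : 16 * (Q * (6 * k + 2 + z) + (6 * k + 2) + 1) * (Q + 1) ≤ BB k Q z := by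
    have hq1 := hL.q1
    calc 16 * (Q * (6 * k + 2 + z) + (6 * k + 2) + 1) * (Q + 1)
        ≤ 16 * (2 * U) * (2 * Q) :=
          Nat.mul_le_mul (Nat.mul_le_mul_left _ hM) (by omega)
      _ = 64 * (Q * U) := by ring
      _ = BB k Q z := by rw [hQU, hB]
  obtain ⟨⟨v1, hv1Y, -, hv1a, hv1b⟩, v2, hv2Y, -, hv2a, hv2b⟩ :=
    hTYZ V G Y X L P a z K (6 * k + 2) (Q * (6 * k + 2 + z)) Q f c J hcov hX hJ (hHS.top hK1)
      (by
        have h1 := deg hHS (t := 0) hK1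
        omega)
      (by omega) hL.up hL.q1 (by omega) (hA.trans hcast) (hBB.trans hcast)
  have hT1 : k + 2 ≤ (univ.filter (fun v => (symmDiff (dg G v) (dg G (c 0))).card ≤
      BB k Q z)).card := by
    by_contra hcon
    have h1 := hF1 (by omega) v1 hv1Y
    omega
  have hT2 : k + 2 ≤ (univ.filter (fun v => (symmDiff (dg G v) (dg G (c 0))ᶜ).card ≤
      BB k Q z)).card := by
    by_contra hcon
    have h1 := hF2 (by omega) v2 hv2Y
    omega
  refine ⟨hK1, hNB, J v1, J v2, hSTR V G a k z K (BB k Q z) c v1 v2 (J v1) (J v2) ha hlo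
    (by omega) (by omega) ?_ (hJ v1 hv1Y) (hJ v2 hv2Y) (hv1a.trans hb16) (hv1b.trans hb16)
    (hv2a.trans hb16) (hv2b.trans hb16) hT1 hT2⟩
  intro t ht
  have h1 := deg hHS ht
  have h2 := ha t ht
  omega

end Pool.Agent.SFH
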