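import Pool.Agent.SFH.Targets

/-!
# SFH: two levels (target PGH)
-/

set_option autoImplicit false

open Finset

namespace Pool.Agent.SFH

open Pool.Agent.StarF (starForest ramsey)
open Pool.Agent.SFB (Con dg nc Two)
open Pool.Agent.SFG (Cov Vio Sys Out Typ Tig pf PF)

/-- One step: the quotient `z = f / C` satisfies the conditions of `Lev`. -/
lemma PGH_step (k e N f Q D : ℕ) (hD : D = 20000000 * 2 ^ k * Q ^ 2) (hQ : 1 ≤ Q)
    (hfe : f ≤ e) (hN : N ≤ Q * f) (h1 : 2 * D * (6 * k + 3) ≤ f) (h2 : 2 * D * (k + 1) ≤ f) :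
    Lev k e N f (f / (2 * D)) Q ∧ 1 ≤ f / (2 * D) ∧ f / (2 * D) ≤ f ∧
      N ≤ 2 * (2 * D) * Q * (f / (2 * D)) := by
  have hDpos : 0 < D := by
    rw [hD]
    positivity
  have hC : 0 < 2 * D := by omega
  have hk1 : k + 1 ≤ f / (2 * D) := by
    rw [Nat.le_div_iff_mul_le hC]
    calc (k + 1) * (2 * D) = 2 * D * (k + 1) := by ring
      _ ≤ f := h2
  have hz : 2 * D * (f / (2 * D)) ≤ f := Nat.mul_div_le f (2 * D)
  refine ⟨⟨hfe, hQ, hN, by omega, ?_⟩, by omega, Nat.div_le_self _ _, ?_⟩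
  · rw [← hD]
    have h3 : 2 * (D * (f / (2 * D) + 6 * k + 3)) =
        2 * D * (f / (2 * D)) + 2 * D * (6 * k + 3) := by ring
    omega
  · have h4 : f < 2 * D * (f / (2 * D) + 1) := by
      have := Nat.lt_mul_div_succ f hC
      simpa using this
    have h5 : 2 * D * (f / (2 * D) + 1) ≤ 2 * (2 * D) * (f / (2 * D)) := by
      have h6 : 2 * D * 1 ≤ 2 * D * (f / (2 * D)) := Nat.mul_le_mul_left _ (by omega)
      calc 2 * D * (f / (2 * D) + 1) = 2 * D * (f / (2 * D)) + 2 * D * 1 := by ring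
        _ ≤ 2 * D * (f / (2 * D)) + 2 * D * (f / (2 * D)) := by omega
        _ = 2 * (2 * D) * (f / (2 * D)) := by ring
    calc N ≤ Q * f := hN
      _ ≤ Q * (2 * (2 * D) * (f / (2 * D))) := Nat.mul_le_mul_left _ (by omega)
      _ = 2 * (2 * D) * Q * (f / (2 * D)) := by ring

/-- The induction. -/
lemma PGH_ind (k : ℕ) : ∀ m Q : ℕ, 1 ≤ Q → ∃ T : ℕ, ∀ e N f : ℕ, T ≤ f → f ≤ e → N ≤ Q * f →
    ∀ κ κ' : ℕ → ℕ, (∀ f, κ f ≤ k) → (∀ f, κ' f ≤ k) → (∀ f f', f ≤ f' → κ f' ≤ κ f) →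
    (∀ f f', f ≤ f' → κ' f' ≤ κ' f) → 2 * k ≤ κ f + κ' f + m →
    ∃ f z Q, Lev k e N f z Q ∧ κ f = κ z ∧ κ' f = κ' z := by
  intro m
  induction m with
  | zero =>
    intro Q hQ
    refine ⟨2 * (20000000 * 2 ^ k * Q ^ 2) * (6 * k + 3) +
      2 * (20000000 * 2 ^ k * Q ^ 2) * (k + 1), ?_⟩
    intro e N f hT hfe hN κ κ' hk hk' hm hm' h2k
    obtain ⟨hL, -, hzf, -⟩ := PGH_step k e N f Q _ rfl hQ hfe hN
      ((Nat.le_add_right _ _).trans hT) ((Nat.le_add_left _ _).trans hT)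
    have h1 := hm _ _ hzf
    have h2 := hm' _ _ hzf
    have h3 := hk (f / (2 * (20000000 * 2 ^ k * Q ^ 2)))
    have h4 := hk' (f / (2 * (20000000 * 2 ^ k * Q ^ 2)))
    exact ⟨f, _, Q, hL, by omega, by omega⟩
  | succ m ih =>
    intro Q hQ
    have hQ' : 1 ≤ 2 * (2 * (20000000 * 2 ^ k * Q ^ 2)) * Q := by
      have : 0 < 2 * (2 * (20000000 * 2 ^ k * Q ^ 2)) * Q := by positivity
      omega
    obtain ⟨T, hT⟩ := ih _ hQ'
    refine ⟨2 * (20000000 * 2 ^ k * Q ^ 2) * (6 * k + 3) +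
      2 * (20000000 * 2 ^ k * Q ^ 2) * (k + 1) + T * (2 * (20000000 * 2 ^ k * Q ^ 2)), ?_⟩
    intro e N f hTf hfe hN κ κ' hk hk' hm hm' h2k
    obtain ⟨hL, -, hzf, hNz⟩ := PGH_step k e N f Q _ rfl hQ hfe hN
      (((Nat.le_add_right _ _).trans (Nat.le_add_right _ _)).trans hTf)
      (((Nat.le_add_left _ _).trans (Nat.le_add_right _ _)).trans hTf)
    have h1 := hm _ _ hzf
    have h2 := hm' _ _ hzf
    by_cases he : κ f = κ (f / (2 * (20000000 * 2 ^ k * Q ^ 2))) ∧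
        κ' f = κ' (f / (2 * (20000000 * 2 ^ k * Q ^ 2)))
    · exact ⟨f, _, Q, hL, he.1, he.2⟩
    · have hC : 0 < 2 * (20000000 * 2 ^ k * Q ^ 2) := by positivity
      have hTz : T ≤ f / (2 * (20000000 * 2 ^ k * Q ^ 2)) := by
        rw [Nat.le_div_iff_mul_le hC]
        exact (Nat.le_add_left _ _).trans hTf
      refine hT e N _ hTz (hzf.trans hfe) hNz κ κ' hk hk' hm hm' ?_
      by_cases h5 : κ f = κ (f / (2 * (20000000 * 2 ^ k * Q ^ 2)))
      · have h6 : κ' f ≠ κ' (f / (2 * (20000000 * 2 ^ k * Q ^ 2))) := fun h => he ⟨h5, h⟩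
        omega
      · omega

/-- PGH. -/
theorem p_PGH : T_PGH := by
  intro k q _ hq
  obtain ⟨T, hT⟩ := PGH_ind k (2 * k) q hq
  refine ⟨T, ?_⟩
  intro e N he hN κ κ' hk hk' hm hm'
  exact hT e N e he le_rfl hN κ κ' hk hk' hm hm' (by omega)

end Pool.Agent.SFH

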