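import Pool.Agent.SFH.Targets

/-!
# SFH: packing of the later stars into two rooms (target PKE)
-/

set_option autoImplicit false

open Finset

namespace Pool.Agent.SFH

open Pool.Agent.StarF (starForest ramsey)
open Pool.Agent.SFB (Con dg nc Two)
open Pool.Agent.SFG (Cov Vio Sys Out Typ Tig pf PF)

/-- Packing of the stars `K + 1, .., i - 1`. -/
lemma PKE_.step (a : ℕ → ℕ) (k K θ w B : ℕ) (_hK : K < k)
    (h1 : ∀ i < k, K < i → ∑ t ∈ Ico (K + 1) i, a t + 2 * a i ≤ a K + B)
    (h2 : ∀ A ⊆ range k, a K + w ≤ θ + ∑ t ∈ A, a t ∨ θ + ∑ t ∈ A, a t + w ≤ a K) (m : ℕ) :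
    K + 1 + m ≤ k → ∃ E1 ⊆ Ico (K + 1) (K + 1 + m),
      (E1 = ∅ ∨ ∑ t ∈ E1, a t + w + θ ≤ a K + B) ∧
      (Ico (K + 1) (K + 1 + m) \ E1 = ∅ ∨
        ∑ t ∈ Ico (K + 1) (K + 1 + m) \ E1, a t + w ≤ θ + B) := by
  induction m with
  | zero =>
    intro _
    refine ⟨∅, empty_subset _, Or.inl rfl, Or.inl ?_⟩
    simp
  | succ m ih =>
    intro hm
    obtain ⟨E, hE, hE1, hE2⟩ := ih (by omega)
    set i := K + 1 + m with hi
    have hik : i < k := by omega
    have hKi : K < i := by omega
    have hico : Ico (K + 1) (K + 1 + (m + 1)) = insert i (Ico (K + 1) i) := by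
      ext x
      simp only [mem_Ico, mem_insert]
      omega
    have hiE : i ∉ E := fun h => by
      have := mem_Ico.1 (hE h)
      omega
    have hiI : i ∉ Ico (K + 1) i := by simp
    have hsum : ∑ t ∈ Ico (K + 1) i \ E, a t + ∑ t ∈ E, a t = ∑ t ∈ Ico (K + 1) i, a t :=
      sum_sdiff hE
    have hins : ∑ t ∈ insert i E, a t = a i + ∑ t ∈ E, a t := sum_insert hiE
    have hA : insert i E ⊆ range k := by
      intro x hx
      rcases mem_insert.1 hx with h | h
      · rw [h]
        exact mem_range.2 hik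
      · have := mem_Ico.1 (hE h)
        exact mem_range.2 (by omega)
    have hb := h1 i hik hKi
    rw [hico]
    rcases h2 _ hA with h | h
    · refine ⟨E, hE.trans (subset_insert _ _), hE1, Or.inr ?_⟩
      have hs : insert i (Ico (K + 1) i) \ E = insert i (Ico (K + 1) i \ E) :=
        insert_sdiff_of_notMem _ hiE
      rw [hs, sum_insert (fun hx => hiI (mem_sdiff.1 hx).1)]
      rw [hins] at h
      omega
    · refine ⟨insert i E, insert_subset_insert _ hE, Or.inr ?_, ?_⟩
      · rw [hins] at h ⊢
        omega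
      · have hs : insert i (Ico (K + 1) i) \ insert i E = Ico (K + 1) i \ E := by
          ext x
          simp only [mem_sdiff, mem_insert]
          constructor
          · rintro ⟨h3, h4⟩
            push Not at h4
            exact ⟨h3.resolve_left h4.1, h4.2⟩
          · rintro ⟨h3, h4⟩
            refine ⟨Or.inr h3, ?_⟩
            rintro (h5 | h5)
            · exact hiI (h5 ▸ h3)
            · exact h4 h5
        rw [hs]
        exact hE2

/-- Packing of the later stars into rooms `a K - θ` and `θ`. -/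
theorem p_PKE : T_PKE := by
  intro a k K θ w B hK _ h1 h2
  have h := PKE_.step a k K θ w B hK h1 h2 (k - (K + 1)) (by omega)
  rwa [show K + 1 + (k - (K + 1)) = k by omega] at h

end Pool.Agent.SFH
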