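import Pool.Agent.SFH.Targets

/-!
# SFH, target PWB: a pointwise bound
-/

set_option autoImplicit false

open Finset

namespace Pool.Agent.SFH

open Pool.Agent.StarF (starForest ramsey)
open Pool.Agent.SFB (Con dg nc Two)
open Pool.Agent.SFG (Cov Vio Sys Out Typ Tig pf PF)

theorem p_PWB (hCMN : T_CMN) : T_PWB := by
  intro V _ _ G W Z l m A u hu hZ hW hm hmW hA
  classical
  obtain ⟨u', hu', hne, hc⟩ := hCMN V G W Z l u hu hZ hW
  have h1 : ({u, u'} : Finset V) ⊆ W := by
    intro x hx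
    rcases mem_insert.1 hx with h | h
    · rw [h]; exact hu
    · rw [mem_singleton.1 h]; exact hu'
  have h2 : ({u, u'} : Finset V).card ≤ m := le_trans card_le_two hm
  obtain ⟨T, hT1, hT2, hT3⟩ := exists_subsuperset_card_eq h1 h2 hmW
  have h3 := hA T hT2 hT3
  have hTu : u ∈ T := hT1 (mem_insert_self _ _)
  have hTu' : u' ∈ T := hT1 (mem_insert_of_mem (mem_singleton_self _))
  set C := (Z \ dg G u) ∩ (Z \ dg G u') with hC
  have hCZ : C ⊆ Z := inter_subset_left.trans sdiff_subset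
  have h4 : (Z \ C) ∪ (dg G u \ Z) ⊆ T.biUnion (fun v => dg G v) := by
    intro x hx
    rw [mem_biUnion]
    rcases mem_union.1 hx with h | h
    · rw [mem_sdiff, hC, mem_inter, mem_sdiff, mem_sdiff] at h
      by_cases hxu : x ∈ dg G u
      · exact ⟨u, hTu, hxu⟩
      · refine ⟨u', hTu', ?_⟩
        by_contra h5
        exact h.2 ⟨⟨h.1, hxu⟩, ⟨h.1, h5⟩⟩
    · exact ⟨u, hTu, (mem_sdiff.1 h).1⟩
  have h5 : Disjoint (Z \ C) (dg G u \ Z) := by
    rw [disjoint_left]
    intro x hx hx'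
    exact (mem_sdiff.1 hx').2 (mem_sdiff.1 hx).1
  have h6 := card_le_card h4
  rw [card_union_of_disjoint h5] at h6
  have h7 := card_sdiff_add_card_eq_card hCZ
  omega

end Pool.Agent.SFH
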