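import Pool.Agent.SFH.Targets

/-!
# SFH: REF, a bounded error in the two block structure
-/

set_option autoImplicit false

open Finset

namespace Pool.Agent.SFH

open Pool.Agent.StarF (starForest ramsey)
open Pool.Agent.SFB (Con dg nc Two)
open Pool.Agent.SFG (Cov Vio Sys Out Typ Tig pf PF)

namespace REF_

section

variable {V : Type} [Fintype V] [DecidableEq V]

lemma inn_le {G : SimpleGraph V} {X : Finset V} {l : ℕ} (h : Two G X l) {w : V} (hw : w ∈ X) :
    (X \ dg G w).card ≤ l := by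
  refine (card_le_card ?_).trans (h.inn w hw)
  intro z hz
  rw [mem_sdiff] at hz
  rw [mem_symmDiff]
  exact Or.inr ⟨hz.1, hz.2⟩

lemma crs_le {G : SimpleGraph V} {X : Finset V} {l : ℕ} (h : Two G X l) {w : V} (hw : w ∈ X) :
    (Xᶜ \ dg Gᶜ w).card ≤ l := by
  refine (card_le_card ?_).trans (h.inn w hw)
  intro z hz
  rw [mem_sdiff, mem_compl, Pool.Agent.SFB.mem_dg_compl] at hz
  rw [mem_symmDiff]
  refine Or.inl ⟨?_, hz.1⟩
  by_contra hcon
  refine hz.2 ⟨?_, hcon⟩
  rintro rfl
  exact hz.1 hw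

end

end REF_

theorem p_REF (hSTS : T_STS) (hVRG : T_VRG) (hRFA : T_RFA) (hRFB : T_RFB) : T_REF := by
  intro V _ _ G a k q e l X hPar hTwo h100 hx hy hcon hcon'
  obtain ⟨K, P, hK1, hKk, hP, hX, hY⟩ := hSTS V G a k q e l X hPar hTwo h100 hx hy hcon
  have hN : X.card + (Xᶜ).card = Fintype.card V := card_add_card_compl X
  have hk2 := hPar.k2
  have hek := hPar.ek
  have hall := hPar.all
  have hlo := hPar.lo K hKk
  have hS : ∑ t ∈ range K \ P, a t + ∑ t ∈ P, a t = ∑ t ∈ range K, a t := sum_sdiff hP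
  have hcr := hPar.crit (m := 2 * (l + k)) hKk (by omega)
  have hmin : ∀ t < K, a K ≤ a t := fun t ht => hPar.anti t K ht.le hKk
  have hcards : (range K \ P).card + P.card = K := by
    have h0 := card_sdiff_add_card_eq_card hP
    rwa [card_range] at h0
  have hRsub : range K \ P ⊆ range K := sdiff_subset
  have hRR : range K \ (range K \ P) = P := by
    rw [sdiff_sdiff_right_self]
    exact inf_eq_right.2 hP
  have hTwo' : Two G Xᶜ l := hTwo.symm
  have hd : Disjoint X Xᶜ := disjoint_compl_right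
  have hd' : Disjoint Xᶜ X := disjoint_compl_left
  have i1 : ∀ w ∈ X, (X \ dg G w).card ≤ l := fun w hw => REF_.inn_le hTwo hw
  have i2 : ∀ w ∈ Xᶜ, (Xᶜ \ dg G w).card ≤ l := fun w hw => REF_.inn_le hTwo' hw
  have i3 : ∀ w ∈ X, (Xᶜ \ dg Gᶜ w).card ≤ l := fun w hw => REF_.crs_le hTwo hw
  have i4 : ∀ w ∈ Xᶜ, (X \ dg Gᶜ w).card ≤ l := by
    intro w hw
    have h0 := REF_.crs_le hTwo' hw
    rwa [compl_compl] at h0
  have kX : k ≤ X.card := by omega
  have kY : k ≤ (Xᶜ).card := by omega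
  have z1 : ∑ t ∈ P, a t + l + k ≤ X.card := by omega
  have z2 : ∑ t ∈ range K \ P, a t + ∑ t ∈ Ico (K + 1) k, a t + l + k ≤ (Xᶜ).card := by omega
  have z3 : ∑ t ∈ range k, a t + 2 * l + k ≤ X.card + (Xᶜ).card := by omega
  have z4 : ∑ t ∈ range K \ P, a t + l + k ≤ (Xᶜ).card := by omega
  have z5 : ∑ t ∈ P, a t + ∑ t ∈ Ico (K + 1) k, a t + l + k ≤ X.card := by omega
  have z6 : ∑ t ∈ range k, a t + 2 * l + k ≤ (Xᶜ).card + X.card := by omega
  have g1 : ∀ T ⊆ X, T.card = P.card + 1 →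
      (T.biUnion (fun v => dg G v)).card ≤ ∑ t ∈ P, a t + a K + k := fun T hT hc =>
    (hVRG V G a k K l P T X X Xᶜ Xᶜ hKk hP hmin hd hd hT hc i1 i2 kY z1 z2 z3 hcon).le
  have g2 : ∀ T ⊆ Xᶜ, T.card = (range K \ P).card + 1 →
      (T.biUnion (fun v => dg G v)).card ≤ ∑ t ∈ range K \ P, a t + a K + k := fun T hT hc =>
    (hVRG V G a k K l (range K \ P) T Xᶜ Xᶜ X X hKk hRsub hmin hd' hd' hT hc i2 i1 kX z4
      (by rw [hRR]; exact z5) z6 hcon).le
  have g3 : ∀ T ⊆ Xᶜ, T.card = P.card + 1 →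
      (T.biUnion (fun v => dg Gᶜ v)).card ≤ ∑ t ∈ P, a t + a K + k := fun T hT hc =>
    (hVRG V Gᶜ a k K l P T Xᶜ X X Xᶜ hKk hP hmin hd' hd hT hc i4 i3 kX z1 z2 z3 hcon').le
  have g4 : ∀ T ⊆ X, T.card = (range K \ P).card + 1 →
      (T.biUnion (fun v => dg Gᶜ v)).card ≤ ∑ t ∈ range K \ P, a t + a K + k := fun T hT hc =>
    (hVRG V Gᶜ a k K l (range K \ P) T X Xᶜ Xᶜ X hKk hRsub hmin hd hd' hT hc i3 i4 kY z4
      (by rw [hRR]; exact z5) z6 hcon').le
  have hAB : (∑ t ∈ P, a t + a K + k) + (∑ t ∈ range K \ P, a t + a K + k) ≤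
      Fintype.card V + 2 * k := by omega
  have l1 : 4 * l + 2 ≤ X.card := by omega
  have l2 : 4 * l + 2 ≤ (Xᶜ).card := by omega
  have ha0 : a K ≤ ∑ t ∈ range K, a t :=
    (hmin 0 (by omega)).trans (single_le_sum (f := a) (fun _ _ => Nat.zero_le _)
      (mem_range.2 (by omega)))
  by_cases hP0 : P = ∅
  · have hsP : ∑ t ∈ P, a t = 0 := by rw [hP0, sum_empty]
    have hcP : P.card = 0 := by rw [hP0, card_empty]
    refine hRFB V G X k l ((range K \ P).card + 1) (∑ t ∈ P, a t + a K + k)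
      (∑ t ∈ range K \ P, a t + a K + k) hTwo (by omega) l1 l2 (by omega) (by omega) (by omega)
      (by omega) ?_ ?_ g4 g2 hAB
    · intro u hu
      have h0 := g1 {u} (singleton_subset_iff.2 hu) (by rw [card_singleton, hcP])
      rwa [singleton_biUnion] at h0
    · intro u hu
      have h0 := g3 {u} (singleton_subset_iff.2 hu) (by rw [card_singleton, hcP])
      rwa [singleton_biUnion] at h0
  · by_cases hR0 : range K \ P = ∅
    · have hsR : ∑ t ∈ range K \ P, a t = 0 := by rw [hR0, sum_empty]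
      have hcR : (range K \ P).card = 0 := by rw [hR0, card_empty]
      have h1 : Two G Xᶜ (12 * k) := by
        refine hRFB V G Xᶜ k l (P.card + 1) (∑ t ∈ range K \ P, a t + a K + k)
          (∑ t ∈ P, a t + a K + k) hTwo' (by omega) l2 ?_ (by omega) (by omega) ?_ ?_ ?_ ?_ g3
          ?_ (by omega)
        · rw [compl_compl]
          exact l1
        · rw [compl_compl]
          omega
        · rw [compl_compl]
          omega
        · intro u hu
          have h0 := g2 {u} (singleton_subset_iff.2 hu) (by rw [card_singleton, hcR])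
          rwa [singleton_biUnion] at h0
        · intro u hu
          rw [compl_compl] at hu
          have h0 := g4 {u} (singleton_subset_iff.2 hu) (by rw [card_singleton, hcR])
          rwa [singleton_biUnion] at h0
        · rw [compl_compl]
          exact g1
      have h2 := h1.symm
      rwa [compl_compl] at h2
    · have hpP : 0 < P.card := card_pos.2 (nonempty_iff_ne_empty.2 hP0)
      have hpR : 0 < (range K \ P).card := card_pos.2 (nonempty_iff_ne_empty.2 hR0)
      exact hRFA V G X k l (P.card + 1) ((range K \ P).card + 1) (∑ t ∈ P, a t + a K + k)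
        (∑ t ∈ range K \ P, a t + a K + k) hTwo (by omega) l1 l2 (by omega) (by omega) (by omega)
        (by omega) (by omega) (by omega) g1 g4 g2 g3 hAB

end Pool.Agent.SFH
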