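import Pool.Agent.SFH.Targets

/-!
# SFH: P_RFA (the first case of the bounded error)
-/

set_option autoImplicit false

open Finset

namespace Pool.Agent.SFH

open Pool.Agent.StarF (starForest ramsey)
open Pool.Agent.SFB (Con dg nc Two)
open Pool.Agent.SFG (Cov Vio Sys Out Typ Tig pf PF)

namespace RFA_

/-- One vertex of the first block. -/
lemma one (hPWB : T_PWB) {V : Type} [Fintype V] [DecidableEq V] {G : SimpleGraph V}
    {X : Finset V} {k l m m' A B : ℕ} (hT : Two G X l) (hk : 1 ≤ k) (hX : 4 * l + 2 ≤ X.card)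
    (hm : 2 ≤ m) (hm' : 2 ≤ m') (hmX : m ≤ X.card) (hmX' : m' ≤ X.card)
    (hA : ∀ T ⊆ X, T.card = m → (T.biUnion (fun v => dg G v)).card ≤ A)
    (hB : ∀ T ⊆ X, T.card = m' → (T.biUnion (fun v => dg Gᶜ v)).card ≤ B)
    (hAB : A + B ≤ Fintype.card V + 2 * k) {u : V} (hu : u ∈ X) :
    (symmDiff (dg G u) X).card ≤ 4 * k := by
  have h1 := hPWB V G X X l m A u hu (fun w hw => by
    refine (card_le_card ?_).trans (hT.inn w hw)
    intro x hx
    rw [mem_symmDiff]
    rw [mem_sdiff] at hx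
    exact Or.inr hx) hX hm hmX hA
  have h2 := hPWB V Gᶜ X Xᶜ l m' B u hu (fun w hw => by
    refine (card_le_card ?_).trans (hT.out w (mem_compl.1 hw))
    intro x hx
    rw [mem_sdiff, Pool.Agent.SFB.mem_dg_compl] at hx
    rw [mem_symmDiff]
    refine Or.inl ⟨?_, fun h => mem_compl.1 h hx.1⟩
    by_contra hc
    exact hx.2 ⟨fun h => mem_compl.1 hw (h ▸ hx.1), hc⟩) hX hm' hmX' hB
  have huu : u ∉ dg G u := by
    rw [Pool.Agent.SFB.mem_dg]
    exact G.irrefl
  have e1 : X \ dg G u = insert u (dg Gᶜ u \ Xᶜ) := by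
    ext x
    rw [mem_sdiff, mem_insert, mem_sdiff, Pool.Agent.SFB.mem_dg_compl, mem_compl, not_not]
    constructor
    · rintro ⟨hx, hx'⟩
      by_cases h : x = u
      · exact Or.inl h
      · exact Or.inr ⟨⟨h, hx'⟩, hx⟩
    · rintro (h | ⟨⟨-, h⟩, h'⟩)
      · subst h
        exact ⟨hu, huu⟩
      · exact ⟨h', h⟩
  have e2 : Xᶜ \ dg Gᶜ u = dg G u \ X := by
    ext x
    rw [mem_sdiff, mem_sdiff, Pool.Agent.SFB.mem_dg_compl, mem_compl]
    constructor
    · rintro ⟨hx, hx'⟩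
      refine ⟨?_, hx⟩
      by_contra hc
      exact hx' ⟨fun h => hx (h ▸ hu), hc⟩
    · rintro ⟨hx, hx'⟩
      exact ⟨hx', fun h => h.2 hx⟩
  have e3 : (X \ dg G u).card = (dg Gᶜ u \ Xᶜ).card + 1 := by
    rw [e1, card_insert_of_notMem]
    rw [mem_sdiff, Pool.Agent.SFB.mem_dg_compl]
    exact fun h => h.1.1 rfl
  rw [e2] at h2
  have e4 : (symmDiff (dg G u) X).card ≤ (dg G u \ X).card + (X \ dg G u).card := by
    rw [symmDiff_def]
    exact card_union_le _ _
  have e5 : X.card + Xᶜ.card = Fintype.card V := card_add_card_compl X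
  omega

end RFA_

theorem p_RFA (hPWB : T_PWB) : T_RFA := by
  intro V _ _ G X k l m m' A B hT hk hX hX' hm hm' h1 h2 h3 h4 a1 a2 a3 a4 hAB
  refine ⟨fun u hu => ?_, fun u hu => ?_⟩
  · have h := RFA_.one hPWB hT hk hX hm hm' h1 h2 a1 a2 hAB hu
    omega
  · have h := RFA_.one hPWB hT.symm hk hX' hm' hm h4 h3 a3 a4 (by omega) (mem_compl.2 hu)
    omega

end Pool.Agent.SFH
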