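import Pool.Agent.SFH.Targets

/-!
# SFH RFB: from a small error to a bounded error, second case (MP_705b7e_co)
-/

set_option autoImplicit false

open Finset

namespace Pool.Agent.SFH

open Pool.Agent.StarF (starForest ramsey)
open Pool.Agent.SFB (Con dg nc Two)
open Pool.Agent.SFG (Cov Vio Sys Out Typ Tig pf PF)

namespace RFB_

section

variable {V : Type} [Fintype V] [DecidableEq V]

omit [Fintype V] in
lemma card_symm (A B : Finset V) : (symmDiff A B).card = (A \ B).card + (B \ A).card := by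
  have h1 : Disjoint (A \ B) (B \ A) := disjoint_sdiff_sdiff
  rw [symmDiff_def, sup_eq_union, card_union_of_disjoint h1]

lemma card_dg (G : SimpleGraph V) (Z : Finset V) (u : V) :
    (dg G u).card + (Z \ dg G u).card = Z.card + (dg G u \ Z).card := by
  have h1 := card_sdiff_add_card_inter Z (dg G u)
  have h2 := card_sdiff_add_card_inter (dg G u) Z
  rw [inter_comm] at h2
  omega

/-- the complement graph inside a set containing the vertex -/
lemma compl_in (G : SimpleGraph V) (Z : Finset V) {u : V} (hu : u ∈ Z) :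
    (dg Gᶜ u \ Zᶜ).card + 1 = (Z \ dg G u).card := by
  have h1 : dg Gᶜ u \ Zᶜ = (Z \ dg G u).erase u := by
    ext v
    rw [mem_sdiff, mem_compl, not_not, Pool.Agent.SFB.mem_dg_compl, mem_erase, mem_sdiff]
    tauto
  have h2 : u ∈ Z \ dg G u := mem_sdiff.2 ⟨hu, Pool.Agent.SFB.not_mem_dg⟩
  rw [h1, card_erase_add_one h2]

/-- the complement graph outside a set containing the vertex -/
lemma compl_out (G : SimpleGraph V) (Z : Finset V) {u : V} (hu : u ∈ Z) :
    (Zᶜ \ dg Gᶜ u) = dg G u \ Z := by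
  ext v
  rw [mem_sdiff, mem_compl, Pool.Agent.SFB.mem_dg_compl, mem_sdiff]
  constructor
  · rintro ⟨h1, h2⟩
    refine ⟨?_, h1⟩
    by_contra h3
    exact h2 ⟨fun h4 => h1 (h4 ▸ hu), h3⟩
  · rintro ⟨h1, h2⟩
    exact ⟨h2, fun h3 => h3.2 h1⟩

lemma double (G : SimpleGraph V) (X : Finset V) :
    ∑ w ∈ Xᶜ, (dg G w \ Xᶜ).card = ∑ u ∈ X, (dg G u \ X).card := by
  classical
  have h1 := sum_card_bipartiteAbove_eq_sum_card_bipartiteBelow (s := X) (t := Xᶜ)
    (fun u w => G.Adj u w)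
  have h2 : ∀ u, (bipartiteAbove (fun u w => G.Adj u w) Xᶜ u) = dg G u \ X := by
    intro u
    ext v
    rw [mem_bipartiteAbove, mem_sdiff, mem_compl, Pool.Agent.SFB.mem_dg]
    tauto
  have h3 : ∀ w, (bipartiteBelow (fun u w => G.Adj u w) X w) = dg G w \ Xᶜ := by
    intro w
    ext v
    rw [mem_bipartiteBelow, mem_sdiff, mem_compl, not_not, Pool.Agent.SFB.mem_dg, G.adj_comm]
    tauto
  simp only [h2, h3] at h1
  exact h1.symm

end

end RFB_

open RFB_ in
theorem p_RFB (hPWB : T_PWB) : T_RFB := by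
  intro V _ _ G X k l m' A B hT hk hx hy hm hmx hmy hxy h1 h2 h3 h4 hAB
  have hV : X.card + (Xᶜ).card = Fintype.card V := card_add_card_compl X
  -- the points of `X`
  have a1 : ∀ u ∈ X, X.card + (dg G u \ X).card ≤ A + (X \ dg G u).card := by
    intro u hu
    have e1 := card_dg G X u
    have e2 := h1 u hu
    omega
  have a2 : ∀ u ∈ X, 4 * ((Xᶜ).card + (X \ dg G u).card) ≤ 4 * B + (dg G u \ X).card + 4 := by
    intro u hu
    have e1 := hPWB V Gᶜ X Xᶜ l m' B u hu (by
      intro w hw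
      have hw' := mem_compl.1 hw
      refine le_trans (card_le_card ?_) (hT.out w hw')
      intro v hv
      rw [mem_sdiff, Pool.Agent.SFB.mem_dg_compl] at hv
      have hvw : v ≠ w := fun h => hw' (h ▸ hv.1)
      rw [mem_symmDiff, mem_compl, not_not]
      left
      refine ⟨?_, hv.1⟩
      by_contra h5
      exact hv.2 ⟨hvw, h5⟩) hx hm hmx h3
    have e2 := compl_in G X hu
    have e3 := compl_out G X hu
    rw [e3] at e1
    omega
  -- the points of the complement
  have b0 : ∀ w ∈ Xᶜ, 1 ≤ (Xᶜ \ dg G w).card := by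
    intro w hw
    exact card_pos.2 ⟨w, mem_sdiff.2 ⟨hw, Pool.Agent.SFB.not_mem_dg⟩⟩
  have b1 : ∀ w ∈ Xᶜ, (Xᶜ \ dg G w).card + X.card ≤ A + (dg G w \ Xᶜ).card + 1 := by
    intro w hw
    have e1 := card_dg Gᶜ X w
    have e2 := h2 w hw
    have e3 := compl_in G Xᶜ hw
    have e4 := compl_out G Xᶜ hw
    rw [compl_compl] at e3 e4
    rw [e4] at e1
    omega
  have b2 : ∀ w ∈ Xᶜ, 4 * ((Xᶜ).card + (dg G w \ Xᶜ).card) ≤ 4 * B + (Xᶜ \ dg G w).card := by
    intro w hw
    exact hPWB V G Xᶜ Xᶜ l m' B w hw (by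
      intro w' hw'
      refine le_trans (card_le_card ?_) (hT.out w' (mem_compl.1 hw'))
      intro v hv
      rw [mem_sdiff] at hv
      rw [mem_symmDiff]
      right
      exact hv) hy hm hmy h4
  have c1 : ∀ u ∈ X, (dg G u \ X).card ≤ 4 * k := by
    intro u hu
    have e1 := a1 u hu
    have e2 := a2 u hu
    omega
  have c2 : ∀ w ∈ Xᶜ, (Xᶜ \ dg G w).card ≤ 4 * k := by
    intro w hw
    have e1 := b1 w hw
    have e2 := b2 w hw
    omega
  have hxA : X.card ≤ A + 4 * k := by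
    by_contra hcon
    have e1 : ∀ w ∈ Xᶜ, 4 * k + 1 ≤ (dg G w \ Xᶜ).card := by
      intro w hw
      have e2 := b1 w hw
      have e3 := b0 w hw
      omega
    have e2 : ∑ w ∈ Xᶜ, (4 * k + 1) ≤ ∑ w ∈ Xᶜ, (dg G w \ Xᶜ).card := sum_le_sum e1
    have e3 : ∑ u ∈ X, (dg G u \ X).card ≤ ∑ u ∈ X, 4 * k := sum_le_sum c1
    rw [double] at e2
    rw [sum_const, smul_eq_mul] at e2 e3
    have e4 : X.card * (4 * k) ≤ (Xᶜ).card * (4 * k) := Nat.mul_le_mul_right _ hxy
    have e5 : (Xᶜ).card * (4 * k + 1) = (Xᶜ).card * (4 * k) + (Xᶜ).card := by ring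
    omega
  constructor
  · intro u hu
    rw [card_symm]
    have e1 := a2 u hu
    have e2 := c1 u hu
    omega
  · intro w hw
    have hw' := mem_compl.2 hw
    rw [card_symm]
    have e1 := b2 w hw'
    have e2 := c2 w hw'
    omega

end Pool.Agent.SFH
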