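import Pool.Agent.SFH.Targets

/-!
# SFH, SLK: the embedding with slack
-/

set_option autoImplicit false

open Finset

namespace Pool.Agent.SFH

open Pool.Agent.StarF (starForest ramsey)
open Pool.Agent.SFB (Con dg nc Two)
open Pool.Agent.SFG (Cov Vio Sys Out Typ Tig pf PF)

namespace SLK_

theorem ex_centres {V : Type} [DecidableEq V] (s : Finset V) (k : ℕ) (v : V)
    (h : k ≤ s.card) : ∃ c : ℕ → V, Set.InjOn c (Set.Iio k) ∧ (∀ t < k, c t ∈ s) := by
  obtain ⟨s', hs', hc⟩ := Finset.exists_subset_card_eq h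
  let f := s'.equivFinOfCardEq hc
  refine ⟨fun t => if ht : t < k then ((f.symm ⟨t, ht⟩ : s') : V) else v, ?_, ?_⟩
  · intro i hi j hj hij
    have hi' : i < k := hi
    have hj' : j < k := hj
    simp only [hi', hj', dif_pos] at hij
    have h1 := Subtype.ext hij
    have h2 := f.symm.injective h1
    exact congrArg Fin.val h2
  · intro t ht
    simp only [ht, dif_pos]
    exact hs' (f.symm ⟨t, ht⟩).2

theorem inner_bound {V : Type} [DecidableEq V] {A B : Finset V} {l : ℕ}
    (h : (symmDiff A B).card ≤ l) : (B \ A).card ≤ l := by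
  have h1 : symmDiff A B = (A \ B) ∪ (B \ A) := rfl
  refine le_trans (card_le_card ?_) h
  rw [h1]
  exact subset_union_right

/-- One centre covers nearly all of its block. -/
theorem piece {V : Type} [DecidableEq V] {D Z C : Finset V} {l k : ℕ}
    (h1 : (Z \ D).card ≤ l) (h2 : C.card ≤ k) : Z.card ≤ ((Z ∩ D) \ C).card + l + k := by
  have h3 : Z.card ≤ (Z \ D).card + (Z ∩ D).card := by
    have h4 : Z ⊆ (Z \ D) ∪ (Z ∩ D) := by
      intro w hw
      by_cases h5 : w ∈ D
      · exact mem_union_right _ (mem_inter.2 ⟨hw, h5⟩)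
      · exact mem_union_left _ (mem_sdiff.2 ⟨hw, h5⟩)
    exact (card_le_card h4).trans (card_union_le _ _)
  have h6 := card_le_card_sdiff_add_card (s := Z ∩ D) (t := C)
  omega

end SLK_

open SLK_ in
theorem p_SLK (hEMB : Pool.Agent.SFB.T_EMB) : T_SLK := by
  intro V _ _ G k l a A B X hT hAB hdis hX hXc hA hB
  rcases Nat.eq_zero_or_pos k with hk | hk
  · -- no star
    subst hk
    by_cases hV : Nonempty V
    · obtain ⟨v⟩ := hV
      refine hEMB V G 0 a (fun _ => v) ?_ ?_
      · intro i hi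
        exact absurd hi (Nat.not_lt_zero i)
      · intro J hJ hne
        obtain ⟨t, ht⟩ := hne
        exact absurd (mem_range.1 (hJ ht)) (Nat.not_lt_zero t)
    · have hE : IsEmpty V := not_nonempty_iff.1 hV
      refine ⟨⟨⟨fun x => (Nat.not_lt_zero _ x.1.2).elim, ?_⟩, ?_⟩⟩
      · intro x
        exact (Nat.not_lt_zero _ x.1.2).elim
      · intro x
        exact (Nat.not_lt_zero _ x.1.2).elim
  obtain ⟨v, hvX⟩ := card_pos.1 (lt_of_lt_of_le hk hX)
  obtain ⟨cA, hA1, hA2⟩ := ex_centres X k v hX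
  obtain ⟨cB, hB1, hB2⟩ := ex_centres Xᶜ k v hXc
  set c : ℕ → V := fun t => if t ∈ A then cA t else cB t with hc
  have hcA : ∀ t ∈ A, c t = cA t := fun t ht => by rw [hc]; exact if_pos ht
  have hcB : ∀ t, t ∉ A → c t = cB t := fun t ht => by rw [hc]; exact if_neg ht
  have hin : Set.InjOn c (Set.Iio k) := by
    intro i hi j hj hij
    have hi' : i < k := hi
    have hj' : j < k := hj
    by_cases h1 : i ∈ A
    · by_cases h2 : j ∈ A
      · rw [hcA i h1, hcA j h2] at hij
        exact hA1 hi hj hij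
      · rw [hcA i h1, hcB j h2] at hij
        exact absurd (hij ▸ hA2 i hi') (mem_compl.1 (hB2 j hj'))
    · by_cases h2 : j ∈ A
      · rw [hcB i h1, hcA j h2] at hij
        exact absurd (hij.symm ▸ hA2 j hj') (mem_compl.1 (hB2 i hi'))
      · rw [hcB i h1, hcB j h2] at hij
        exact hB1 hi hj hij
  refine hEMB V G k a c hin ?_
  intro J hJ hJne
  set C := (range k).image c with hC
  have hCc : C.card ≤ k := by
    refine card_image_le.trans ?_
    rw [card_range]
  -- the two pieces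
  have pA : ∀ t ∈ J, t ∈ A → X.card ≤ ((X ∩ dg G (c t)) \ C).card + l + k ∧
      (X ∩ dg G (c t)) \ C ⊆ nc G c J \ C := by
    intro t ht htA
    have htk : t < k := mem_range.1 (hJ ht)
    have h1 : c t ∈ X := by
      rw [hcA t htA]
      exact hA2 t htk
    refine ⟨piece (inner_bound (hT.inn _ h1)) hCc, ?_⟩
    refine sdiff_subset_sdiff ?_ (Subset.refl _)
    intro w hw
    rw [Pool.Agent.SFB.mem_nc]
    exact ⟨t, ht, (mem_inter.1 hw).2⟩
  have pB : ∀ t ∈ J, t ∉ A → (Xᶜ).card ≤ ((Xᶜ ∩ dg G (c t)) \ C).card + l + k ∧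
      (Xᶜ ∩ dg G (c t)) \ C ⊆ nc G c J \ C := by
    intro t ht htA
    have htk : t < k := mem_range.1 (hJ ht)
    have h1 : c t ∉ X := by
      rw [hcB t htA]
      exact mem_compl.1 (hB2 t htk)
    refine ⟨piece (inner_bound (hT.out _ h1)) hCc, ?_⟩
    refine sdiff_subset_sdiff ?_ (Subset.refl _)
    intro w hw
    rw [Pool.Agent.SFB.mem_nc]
    exact ⟨t, ht, (mem_inter.1 hw).2⟩
  have hBA : ∀ t ∈ J, t ∉ A → t ∈ B := by
    intro t ht htA
    have h1 : t ∈ A ∪ B := by
      rw [hAB]
      exact hJ ht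
    rcases mem_union.1 h1 with h2 | h2
    · exact absurd h2 htA
    · exact h2
  by_cases h1 : ∃ t ∈ J, t ∈ A
  · obtain ⟨t, ht, htA⟩ := h1
    obtain ⟨q1, q2⟩ := pA t ht htA
    have hA' : ∑ s ∈ A, a s + l + k ≤ X.card := by
      rcases hA with h3 | h3
      · rw [h3] at htA
        exact absurd htA (notMem_empty t)
      · exact h3
    by_cases h2 : ∃ u ∈ J, u ∉ A
    · obtain ⟨u, hu, huA⟩ := h2
      obtain ⟨r1, r2⟩ := pB u hu huA
      have hB' : ∑ s ∈ B, a s + l + k ≤ (Xᶜ).card := by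
        rcases hB with h3 | h3
        · have h4 := hBA u hu huA
          rw [h3] at h4
          exact absurd h4 (notMem_empty u)
        · exact h3
      have h5 : Disjoint ((X ∩ dg G (c t)) \ C) ((Xᶜ ∩ dg G (c u)) \ C) := by
        rw [disjoint_left]
        intro w hw hw'
        exact (mem_compl.1 (mem_inter.1 (mem_sdiff.1 hw').1).1)
          (mem_inter.1 (mem_sdiff.1 hw).1).1
      have h6 := card_le_card (union_subset q2 r2)
      rw [card_union_of_disjoint h5] at h6
      have h7 : ∑ s ∈ J, a s ≤ ∑ s ∈ range k, a s := sum_le_sum_of_subset hJ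
      rw [← hAB, sum_union hdis] at h7
      omega
    · push Not at h2
      have h7 : ∑ s ∈ J, a s ≤ ∑ s ∈ A, a s := sum_le_sum_of_subset h2
      have h6 := card_le_card q2
      omega
  · push Not at h1
    obtain ⟨u, hu⟩ := hJne
    obtain ⟨r1, r2⟩ := pB u hu (h1 u hu)
    have hB' : ∑ s ∈ B, a s + l + k ≤ (Xᶜ).card := by
      rcases hB with h3 | h3
      · have h4 := hBA u hu (h1 u hu)
        rw [h3] at h4
        exact absurd h4 (notMem_empty u)
      · exact h3
    have h7 : ∑ s ∈ J, a s ≤ ∑ s ∈ B, a s :=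
      sum_le_sum_of_subset (fun s hs => hBA s hs (h1 s hs))
    have h6 := card_le_card r2
    omega

end Pool.Agent.SFH
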