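import Pool.Agent.SFH.Targets

/-!
# SFH: STR, the sizes
-/

set_option autoImplicit false

open Finset

namespace Pool.Agent.SFH

open Pool.Agent.StarF (starForest ramsey)
open Pool.Agent.SFB (Con dg nc Two)
open Pool.Agent.SFG (Cov Vio Sys Out Typ Tig pf PF)

namespace STR_

variable {V : Type} [Fintype V] [DecidableEq V]

lemma deg_le {G : SimpleGraph V} {a : ℕ → ℕ} {z K : ℕ} {c : ℕ → V} {v : V} {J : Finset ℕ}
    (h : Vio G a z K c v J) : (dg G v).card ≤ ∑ t ∈ J, a t + a K + z :=
  (card_le_card subset_union_left).trans h.2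

end STR_

open STR_ in
theorem p_STR : T_STR := by
  intro V _ _ G a k z K L c v1 v2 J1 J2 htop hlo hzL haK hdeg hV1 hV2 h1 h2 h3 h4 hT1 hT2
  set X0 := dg G (c 0) with hX0
  have d1 := deg_le hV1
  have d2 := deg_le hV2
  -- sizes of X0 and its complement
  have s1 : X0.card ≤ (dg G v1).card + L := by
    have h5 : X0 ⊆ dg G v1 ∪ symmDiff (dg G v1) X0 := by
      intro w hw
      rw [mem_union, mem_symmDiff]
      by_cases hw1 : w ∈ dg G v1
      · exact Or.inl hw1
      · exact Or.inr (Or.inr ⟨hw, hw1⟩)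
    have := (card_le_card h5).trans (card_union_le _ _)
    omega
  have s2 : (X0ᶜ).card ≤ (dg G v2).card + L := by
    have h5 : X0ᶜ ⊆ dg G v2 ∪ symmDiff (dg G v2) X0ᶜ := by
      intro w hw
      rw [mem_union, mem_symmDiff]
      by_cases hw1 : w ∈ dg G v2
      · exact Or.inl hw1
      · exact Or.inr (Or.inr ⟨hw, hw1⟩)
    have := (card_le_card h5).trans (card_union_le _ _)
    omega
  have s3 : X0.card + (X0ᶜ).card = Fintype.card V := Finset.card_add_card_compl X0
  have hdsj : Disjoint J1 J2 := by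
    rw [Finset.disjoint_left]
    intro t ht1 ht2
    have htK : t < K := mem_range.1 (hV1.1 ht1)
    have h5 := hdeg t htK
    have h6 : dg G (c t) ⊆ (nc G c J1 \ dg G v1) ∪ (nc G c J2 \ dg G v2) ∪
        (symmDiff (dg G v1) X0 ∪ symmDiff (dg G v2) X0ᶜ) := by
      intro w hw
      simp only [mem_union, mem_sdiff, mem_symmDiff, mem_compl]
      have hw1 : w ∈ nc G c J1 := Pool.Agent.SFB.mem_nc.2 ⟨t, ht1, hw⟩
      have hw2 : w ∈ nc G c J2 := Pool.Agent.SFB.mem_nc.2 ⟨t, ht2, hw⟩
      tauto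
    have h7 := (card_le_card h6).trans (card_union_le _ _)
    have h8 := card_union_le (nc G c J1 \ dg G v1) (nc G c J2 \ dg G v2)
    have h9 := card_union_le (symmDiff (dg G v1) X0) (symmDiff (dg G v2) X0ᶜ)
    omega
  have hsum : ∑ t ∈ J1, a t + ∑ t ∈ J2, a t = ∑ t ∈ J1 ∪ J2, a t :=
    (Finset.sum_union hdsj).symm
  have huni : J1 ∪ J2 = range K := by
    apply Finset.Subset.antisymm (union_subset hV1.1 hV2.1)
    intro t ht
    by_contra htn
    have h5 : insert t (J1 ∪ J2) ⊆ range K :=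
      insert_subset ht (union_subset hV1.1 hV2.1)
    have h6 := Finset.sum_le_sum_of_subset (f := a) h5
    rw [Finset.sum_insert htn] at h6
    have h7 := htop t (mem_range.1 ht)
    omega
  rw [huni] at hsum
  exact ⟨hdsj, huni, by omega, by omega, by omega, by omega, hT1, hT2⟩

end Pool.Agent.SFH
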