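import Pool.Agent.SFH.Targets

/-!
# SFH: the state of the blocks (target STS)
-/

set_option autoImplicit false

open Finset

namespace Pool.Agent.SFH

open Pool.Agent.StarF (starForest ramsey)
open Pool.Agent.SFB (Con dg nc Two)
open Pool.Agent.SFG (Cov Vio Sys Out Typ Tig pf PF)

namespace STS_

/-- The first `i` stars can be divided between blocks of sizes `x` and `y` with slack `m`. -/
def Fit (a : ℕ → ℕ) (x y m i : ℕ) : Prop := ∃ P ⊆ range i,
  (P = ∅ ∨ ∑ t ∈ P, a t + m ≤ x) ∧
  (range i \ P = ∅ ∨ ∑ t ∈ range i \ P, a t + m ≤ y)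

lemma fit_zero (a : ℕ → ℕ) (x y m : ℕ) : Fit a x y m 0 :=
  ⟨∅, by simp, Or.inl rfl, Or.inl (by simp)⟩

lemma last {p : ℕ → Prop} {k : ℕ} (h0 : p 0) (hk : ¬ p k) : ∃ i < k, p i ∧ ¬ p (i + 1) := by
  by_contra hcon
  push Not at hcon
  have key : ∀ i ≤ k, p i := by
    intro i
    induction i with
    | zero => intro _; exact h0
    | succ n ih => intro hn; exact hcon n (by omega) (ih (by omega))
  exact hk (key k le_rfl)

lemma step {a : ℕ → ℕ} {x y m K : ℕ} {P : Finset ℕ} (hP : P ⊆ range K)
    (h1 : P = ∅ ∨ ∑ t ∈ P, a t + m ≤ x)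
    (h2 : range K \ P = ∅ ∨ ∑ t ∈ range K \ P, a t + m ≤ y)
    (hn : ¬ Fit a x y m (K + 1)) :
    x < ∑ t ∈ P, a t + a K + m ∧ y < ∑ t ∈ range K \ P, a t + a K + m := by
  have hKP : K ∉ P := fun h => absurd (mem_range.1 (hP h)) (lt_irrefl K)
  constructor
  · by_contra hx
    push Not at hx
    apply hn
    refine ⟨insert K P, ?_, Or.inr ?_, ?_⟩
    · intro t ht
      rcases mem_insert.1 ht with h | h
      · rw [h]; exact mem_range.2 (Nat.lt_succ_self K)
      · exact mem_range.2 ((mem_range.1 (hP h)).trans (Nat.lt_succ_self K))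
    · rw [sum_insert hKP]; omega
    · have e1 : range (K + 1) \ insert K P = range K \ P := by
        ext t
        simp only [mem_sdiff, mem_range, mem_insert, not_or]
        constructor
        · rintro ⟨h3, h4, h5⟩
          exact ⟨by omega, h5⟩
        · rintro ⟨h3, h4⟩
          exact ⟨by omega, by omega, h4⟩
      rw [e1]
      exact h2
  · by_contra hy
    push Not at hy
    apply hn
    refine ⟨P, ?_, h1, Or.inr ?_⟩
    · exact hP.trans (range_subset_range.2 (Nat.le_succ K))
    · have e1 : range (K + 1) \ P = insert K (range K \ P) := by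
        ext t
        simp only [mem_sdiff, mem_range, mem_insert]
        constructor
        · rintro ⟨h3, h4⟩
          by_cases h5 : t = K
          · exact Or.inl h5
          · exact Or.inr ⟨by omega, h4⟩
        · rintro (h3 | ⟨h3, h4⟩)
          · rw [h3]; exact ⟨Nat.lt_succ_self K, hKP⟩
          · exact ⟨by omega, h4⟩
      rw [e1, sum_insert (by simp)]
      omega

end STS_

theorem p_STS (hSLK : T_SLK) : T_STS := by
  intro V _ _ G a k q e l X hpar hTwo hl hX hXc hCon
  have hek := hpar.ek
  have hk2 := hpar.k2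
  have hnk : ¬ STS_.Fit a X.card (Xᶜ).card (l + k) k := by
    rintro ⟨P, hP, h1, h2⟩
    apply hCon
    refine hSLK V G k l a P (range k \ P) X hTwo ?_ disjoint_sdiff (by omega) (by omega) ?_ ?_
    · exact union_sdiff_of_subset hP
    · rcases h1 with h | h
      · exact Or.inl h
      · exact Or.inr (by omega)
    · rcases h2 with h | h
      · exact Or.inl h
      · exact Or.inr (by omega)
  obtain ⟨K, hK, ⟨P, hP, h1, h2⟩, hn⟩ := STS_.last (STS_.fit_zero a X.card (Xᶜ).card (l + k)) hnk
  obtain ⟨h3, h4⟩ := STS_.step hP h1 h2 hn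
  refine ⟨K, P, ?_, hK, hP, by omega, by omega⟩
  rcases Nat.eq_zero_or_pos K with h0 | h0
  · exfalso
    subst h0
    have hPe : P = ∅ := by simpa using hP
    subst hPe
    have hc : X.card + (Xᶜ).card = Fintype.card V := card_add_card_compl X
    have htwo := hpar.two
    simp at h3 h4
    omega
  · exact h0

end Pool.Agent.SFH
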