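import Pool.Agent.SFH.Targets

/-!
# SFH-TGC: the tight case with few inner blue edges
-/

set_option autoImplicit false

open Finset

namespace Pool.Agent.SFH

open Pool.Agent.StarF (starForest ramsey)
open Pool.Agent.SFB (Con dg nc Two)
open Pool.Agent.SFG (Cov Vio Sys Out Typ Tig pf PF)

namespace TGC_

/-- Single stars have slack in the complement of `X`. -/
lemma single {a : ℕ → ℕ} {k q e N x y t : ℕ} (hP : Par a k q e N) (hxy : x + y = N)
    (ht : t < k) (hx : x < a t + k + 12 * k) {u : ℕ} (hu : u < k) :
    a u + 2 * k + 2 * (12 * k) ≤ y := by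
  have h1 := hP.pair hu ht
  have h2 := hP.ek
  omega

/-- The condition on the sizes of the stars. -/
lemma size {a : ℕ → ℕ} {k q e N c ε : ℕ} (hP : Par a k q e N) (hc : c ≤ k) (hε : ε ≤ 1) :
    ∀ t < k, k * c + ε + 12 * k + k ≤ a t := by
  intro t ht
  have h1 := (hP.m1 ht).1
  have h4 : k * c ≤ k * (13 * k) := Nat.mul_le_mul_left _ (by omega)
  omega

end TGC_

open TGC_

theorem p_TGC (hFTB : Pool.Agent.SFB.T_FTB) (hFTR : Pool.Agent.SFB.T_FTR)
    (hFTI : Pool.Agent.SFG.T_FTI) : T_TGC := by
  intro V _ _ G a k q e t X v0 hP hT hX hXc hTig hdeg hv0 hdeg0 hc hpf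
  obtain ⟨ht, hlo, hup, hmin⟩ := hTig
  have hsum : X.card + (Xᶜ).card = Fintype.card V := X.card_add_card_compl
  have hk2 := hP.k2
  have he1 := hP.ek
  have hall := hP.all
  have hsl : ∀ u < k, a u + 2 * k + 2 * (12 * k) ≤ (Xᶜ).card := fun u hu =>
    single hP hsum ht hup hu
  obtain ⟨A, hA, hor⟩ := hpf
  have hu : A ∪ range k \ A = range k := union_sdiff_of_subset hA
  have hd : Disjoint A (range k \ A) := disjoint_sdiff
  have hcard : (range k \ A).card + A.card = k := by
    rw [card_sdiff_add_card_eq_card hA, card_range]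
  have hS : ∑ t ∈ range k \ A, a t + ∑ t ∈ A, a t = ∑ t ∈ range k, a t := sum_sdiff hA
  have hm : ∀ t < k, 12 * k ≤ a t := fun t ht => (hP.m1 ht).2.1
  have b1 := (hP.b1 hX).2
  have b2 := (hP.b1 hXc).2
  rcases hor with ⟨h1, h2, h3⟩ | ⟨z, h1, h2, h3, h4⟩
  · left
    refine hFTB V G k (12 * k) (12 * k) a A (range k \ A) X hT hu hd hm le_rfl b1 b2 h1 h2 ?_ ?_
    · intro h5
      have h6 := h3 h5
      obtain ⟨u, hu'⟩ := card_eq_one.1 h5
      have huk : u < k := mem_range.1 (hA (by rw [hu']; exact mem_singleton_self u))
      rw [hu', sum_singleton] at h6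
      rw [hu', sum_singleton, card_singleton]
      have h7 := hmin u huk (by omega)
      omega
    · intro h5
      obtain ⟨u, hu'⟩ := card_eq_one.1 h5
      have huk : u < k := by
        have : u ∈ range k \ A := by rw [hu']; exact mem_singleton_self u
        exact mem_range.1 (mem_sdiff.1 this).1
      rw [hu', sum_singleton, card_singleton]
      have := hsl u huk
      omega
  · right
    by_cases h5 : ∑ t ∈ range k \ A, a t + A.card ≤ (Xᶜ).card
    · refine hFTR V G k (12 * k) (12 * k) a A (range k \ A) X hT hu hd hm le_rfl b1 b2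
        (by omega) h5 ?_ ?_
      · intro h6
        obtain ⟨u, hu'⟩ := card_eq_one.1 h6
        have huk : u < k := mem_range.1 (hA (by rw [hu']; exact mem_singleton_self u))
        have hsA : ∑ t ∈ A, a t = a u := by rw [hu', sum_singleton]
        rw [hsA] at h3 ⊢
        rcases Nat.lt_or_ge (a u) (a t) with h7 | h7
        · have h8 := hmin u huk h7
          omega
        · omega
      · intro h6
        obtain ⟨u, hu'⟩ := card_eq_one.1 h6
        have huk : u < k := by
          have : u ∈ range k \ A := by rw [hu']; exact mem_singleton_self u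
          exact mem_range.1 (mem_sdiff.1 this).1
        have hsB : ∑ t ∈ range k \ A, a t = a u := by rw [hu', sum_singleton]
        rw [hsB]
        have := hsl u huk
        omega
    · have h6 : 2 ≤ (range k \ A).card := by
        by_contra h7
        rcases Nat.lt_or_ge (range k \ A).card 1 with h8 | h8
        · have h9 : range k \ A = ∅ := card_eq_zero.1 (by omega)
          have h10 := h2 h9
          omega
        · obtain ⟨u, hu'⟩ := card_eq_one.1 (show (range k \ A).card = 1 by omega)
          have huk : u < k := by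
            have : u ∈ range k \ A := by rw [hu']; exact mem_singleton_self u
            exact mem_range.1 (mem_sdiff.1 this).1
          have hsB : ∑ t ∈ range k \ A, a t = a u := by rw [hu', sum_singleton]
          rw [hsB] at h5
          have := hsl u huk
          omega
      have hε : X.card * (X.card - a t) % 2 ≤ 1 := by omega
      have b3 := (hP.b1 hX).1
      refine hFTI V G k (12 * k) (X.card - a t) (X.card * (X.card - a t) % 2) a A (range k \ A)
        X v0 hT hu hd h6 hdeg hv0 hdeg0 (by omega) (by omega) (by omega) (by omega) (by omega)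
        (size hP (by omega) hε)

end Pool.Agent.SFH
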