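import Pool.Agent.SFH.Targets

/-!
# SFH-TGD: the tight case with many inner blue edges
-/

set_option autoImplicit false

open Finset

namespace Pool.Agent.SFH

open Pool.Agent.StarF (starForest ramsey)
open Pool.Agent.SFB (Con dg nc Two)
open Pool.Agent.SFG (Cov Vio Sys Out Typ Tig pf PF)

theorem p_TGD (hFTR : Pool.Agent.SFB.T_FTR) (hFTI : Pool.Agent.SFG.T_FTI) : T_TGD := by
  intro V _ _ G a k q e t X hP hT hX hXc hTig hd hk hpf
  obtain ⟨A, hA, hor⟩ := hpf
  have hk2 := hP.k2
  have hek := hP.ek
  have hall := hP.all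
  have hb1 := hP.b1 hX
  have hb1c := hP.b1 hXc
  have hsum : X.card + (Xᶜ).card = Fintype.card V := X.card_add_card_compl
  have hlo := hTig.lo
  have hup := hTig.up
  have htk := hTig.lt
  have hAc : A.card + (range k \ A).card = k := by
    have h1 := card_sdiff_add_card_eq_card hA
    rw [card_range] at h1
    omega
  have hAs : ∑ s ∈ A, a s + ∑ s ∈ range k \ A, a s = ∑ s ∈ range k, a s := by
    rw [add_comm]
    exact sum_sdiff hA
  have huni : A ∪ (range k \ A) = range k := union_sdiff_of_subset hA
  have hdis : Disjoint A (range k \ A) := disjoint_sdiff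
  have hm2 : ∀ s < k, 12 * k ≤ a s := fun s hs => (hP.m1 hs).2.1
  -- the two alternatives
  have hor' : (∑ s ∈ A, a s + A.card ≤ a t ∧
      ∑ s ∈ range k \ A, a s + (range k \ A).card + a t ≤ Fintype.card V ∧
      (A.card = 1 → ∑ s ∈ A, a s + 1 ≤ a t)) ∨
      (∑ s ∈ A, a s + (range k \ A).card ≤ a t ∧
      ∑ s ∈ range k \ A, a s + A.card + a t ≤ Fintype.card V) := by
    rcases hor with ⟨h1, h2, h3⟩ | ⟨z, h1, _, h3, h4⟩
    · left
      refine ⟨h1, by omega, fun h => ?_⟩
      have := h3 h
      omega
    · right
      have hz : z = 0 := by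
        rw [mul_zero, mul_zero, Nat.zero_mod] at h1
        omega
      omega
  -- single stars in `A`
  have hsA : A.card = 1 → ∑ s ∈ A, a s + k + 12 * k ≤ X.card := by
    intro h
    have hlt : ∑ s ∈ A, a s < a t := by
      rcases hor' with ⟨_, _, h3⟩ | ⟨h1, _⟩
      · have := h3 h
        omega
      · omega
    obtain ⟨u, rfl⟩ := card_eq_one.mp h
    rw [sum_singleton] at hlt ⊢
    exact hTig.min u (mem_range.1 (hA (mem_singleton_self u))) hlt
  -- single stars in the complement
  have hsB : (range k \ A).card = 1 → ∑ s ∈ range k \ A, a s + A.card + 12 * k ≤ (Xᶜ).card := by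
    intro h
    obtain ⟨u, hu⟩ := card_eq_one.mp h
    have huk : u < k := by
      have h1 : u ∈ range k \ A := by
        rw [hu]
        exact mem_singleton_self u
      exact mem_range.1 (mem_sdiff.1 h1).1
    have h2 := hP.pair huk htk
    rw [hu, sum_singleton]
    omega
  by_cases hy : ∑ s ∈ range k \ A, a s + A.card ≤ (Xᶜ).card
  · refine hFTR V G k (12 * k) (12 * k) a A (range k \ A) X hT huni hdis hm2 le_rfl hb1.2 hb1c.2
      ?_ hy ?_ hsB
    · rcases hor' with ⟨h1, _, _⟩ | ⟨h1, _⟩
      · rcases A.eq_empty_or_nonempty with rfl | hne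
        · rw [sum_empty]
          rw [card_empty] at hAc
          omega
        · have := hne.card_pos
          omega
      · omega
    · intro h
      have := hsA h
      omega
  · have hB2 : 2 ≤ (range k \ A).card := by
      by_contra hlt
      rcases Nat.lt_or_ge (range k \ A).card 1 with h0 | h0
      · have h1 : range k \ A = ∅ := card_eq_zero.mp (by omega)
        rw [h1, sum_empty] at hy
        omega
      · have h1 : (range k \ A).card = 1 := by omega
        have := hsB h1
        omega
    obtain ⟨v0, hv0⟩ : X.Nonempty := by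
      rw [← card_pos]
      omega
    have hc : X.card - a t ≤ 13 * k := by omega
    have hkc : k * (X.card - a t) ≤ k * (13 * k) := Nat.mul_le_mul_left k hc
    refine hFTI V G k (12 * k) (X.card - a t) 0 a A (range k \ A) X v0 hT huni hdis hB2 hd hv0
      (by rw [add_zero]; exact hd v0 hv0) (by omega) (by omega) (by omega) ?_ (by omega) ?_
    · have hBc : 2 * (X.card - a t) ≤ (range k \ A).card * (X.card - a t) :=
        Nat.mul_le_mul_right _ hB2
      rcases hor' with ⟨_, h2, _⟩ | ⟨_, h2⟩
      · omega
      · omega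
    · intro s hs
      have h3 := (hP.m1 hs).1
      omega

end Pool.Agent.SFH
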