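import Pool.Agent.SFH.Targets

/-!
# SFH: a number far from the forbidden ones (target THE)
-/

set_option autoImplicit false

open Finset

namespace Pool.Agent.SFH

open Pool.Agent.StarF (starForest ramsey)
open Pool.Agent.SFB (Con dg nc Two)
open Pool.Agent.SFG (Cov Vio Sys Out Typ Tig pf PF)

/-- A number far from the forbidden ones. -/
theorem p_THE : T_THE := by
  intro a k m0 lo hi w hw hlo
  by_contra hno
  push Not at hno
  have hcand : ∀ i : ℕ, i ∈ range (2 ^ k + 1) → ∃ A ⊆ range k,
      lo + i * (2 * w) + ∑ t ∈ A, a t < m0 + w ∧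
      m0 < lo + i * (2 * w) + ∑ t ∈ A, a t + w := by
    intro i hi1
    have hi2 : i ≤ 2 ^ k := by
      have := mem_range.1 hi1
      omega
    have h1 : i * (2 * w) ≤ 2 ^ k * (2 * w) := Nat.mul_le_mul_right _ hi2
    exact hno (lo + i * (2 * w)) (Nat.le_add_right _ _) (by omega)
  choose! A hA hA1 hA2 using hcand
  have hcard : (powerset (range k)).card < (range (2 ^ k + 1)).card := by
    rw [card_powerset, card_range, card_range]
    exact Nat.lt_succ_self _
  obtain ⟨i, hi1, j, hj1, hij, hAij⟩ := exists_ne_map_eq_of_card_lt_of_maps_to hcard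
    (f := A) (fun i hi1 => by
      have := hA i hi1
      exact mem_coe.2 (mem_powerset.2 this))
  have key : ∀ i j : ℕ, i ∈ range (2 ^ k + 1) → j ∈ range (2 ^ k + 1) → i < j →
      A i = A j → False := by
    intro i j hi1 hj1 hlt hAij
    have h1 := hA1 j hj1
    have h2 := hA2 i hi1
    rw [← hAij] at h1
    have h3 : (i + 1) * (2 * w) ≤ j * (2 * w) := Nat.mul_le_mul_right _ hlt
    have h4 : (i + 1) * (2 * w) = i * (2 * w) + 2 * w := by ring
    omega
  rcases lt_or_gt_of_ne hij with h | h
  · exact key i j hi1 hj1 h hAij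
  · exact key j i hj1 hi1 h hAij.symm

end Pool.Agent.SFH
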