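import Pool.Agent.SFH.Targets

/-!
# SFH, target TIG: a star which is tight in `X` (helper95)
-/

set_option autoImplicit false

open Finset

namespace Pool.Agent.SFH

open Pool.Agent.StarF (starForest ramsey)
open Pool.Agent.SFB (Con dg nc Two)
open Pool.Agent.SFG (Cov Vio Sys Out Typ Tig pf PF)

namespace TIG_

/-- The smallest tight star. -/
lemma exists_tig (a : ℕ → ℕ) (k l x : ℕ)
    (h : ∃ t < k, a t + 1 ≤ x ∧ x < a t + k + l) :
    ∃ t < k, a t + 1 ≤ x ∧ x < a t + k + l ∧ ∀ u < k, a u < a t → a u + k + l ≤ x := by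
  obtain ⟨t0, ht0, h1, h2⟩ := h
  obtain ⟨t, ht, hmin⟩ := Finset.exists_min_image
    ((range k).filter fun t => a t + 1 ≤ x ∧ x < a t + k + l) a
    ⟨t0, Finset.mem_filter.2 ⟨Finset.mem_range.2 ht0, h1, h2⟩⟩
  rw [Finset.mem_filter, Finset.mem_range] at ht
  refine ⟨t, ht.1, ht.2.1, ht.2.2, fun u hu hut => ?_⟩
  by_contra hcon
  have h3 := hmin u (Finset.mem_filter.2 ⟨Finset.mem_range.2 hu, by omega, by omega⟩)
  omega

/-- Degrees in the complement inside `X`. -/
lemma compl_deg {V : Type} [Fintype V] [DecidableEq V] (G : SimpleGraph V) (X : Finset V)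
    (v : V) : X.card ≤ (dg G v).card + (dg Gᶜ v ∩ X).card + 1 := by
  have h1 : X ⊆ (dg G v ∪ (dg Gᶜ v ∩ X)) ∪ {v} := by
    intro w hw
    by_cases h2 : w = v
    · exact Finset.mem_union_right _ (Finset.mem_singleton.2 h2)
    · apply Finset.mem_union_left
      by_cases h3 : w ∈ dg G v
      · exact Finset.mem_union_left _ h3
      · exact Finset.mem_union_right _
          (Finset.mem_inter.2 ⟨Pool.Agent.SFB.mem_dg_compl.2 ⟨h2, h3⟩, hw⟩)
  have h4 := Finset.card_le_card h1
  have h5 := Finset.card_union_le (dg G v ∪ (dg Gᶜ v ∩ X)) {v}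
  have h6 := Finset.card_union_le (dg G v) (dg Gᶜ v ∩ X)
  rw [Finset.card_singleton] at h5
  omega

end TIG_

open TIG_ in
theorem p_TIG (hE1B : Pool.Agent.SFG.T_E1B) (hPRT : Pool.Agent.SFG.T_PRT) (hTGC : T_TGC)
    (hTGD : T_TGD) : T_TIG := by
  intro V _ _ G a k q e X hP hT hX hXc hpf htight
  obtain ⟨t, ht, h1, h2, h3⟩ := exists_tig a k (12 * k) X.card htight
  have hN : X.card + (Xᶜ).card = Fintype.card V := Finset.card_add_card_compl X
  have e1 := hP.ek
  have k2 := hP.k2
  have hrest := hP.rest ht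
  by_cases hv : ∃ v ∈ X, a t ≤ (dg G v).card
  · obtain ⟨v, hvX, hvd⟩ := hv
    left
    exact hE1B V G k (12 * k) t a X v hT hvX ht hvd (by omega)
  · push Not at hv
    have hdeg : ∀ v ∈ X, X.card - a t ≤ (dg Gᶜ v ∩ X).card := by
      intro v hvX
      have h4 := hv v hvX
      have h5 := compl_deg G X v
      omega
    have hne : X.Nonempty := Finset.card_pos.1 (by omega)
    have htig : Tig a k (12 * k) t X := ⟨ht, h1, h2, h3⟩
    by_cases hc : X.card + 1 < a t + k
    · obtain ⟨v0, hv0, hv0d⟩ := hPRT V Gᶜ X (X.card - a t) hne hdeg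
      have m1 := hP.m1 ht
      exact hTGC V G a k q e t X v0 hP hT hX hXc htig hdeg hv0 hv0d hc
        (hpf _ _ _ hN (by omega) (Or.inl (by omega)))
    · right
      exact hTGD V G a k q e t X hP hT hX hXc htig hdeg (by omega)
        (hpf _ _ _ (by omega) (by omega) (Or.inr rfl))

end Pool.Agent.SFH
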