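import Pool.Agent.SFH.Targets
import Pool.Agent.SFB.P_TYP

/-!
# SFH: target TYZ

Two witnesses.
-/

set_option autoImplicit false

open Finset

namespace Pool.Agent.SFH

open Pool.Agent.StarF (starForest ramsey)
open Pool.Agent.SFB (Con dg nc Two)
open Pool.Agent.SFG (Cov Vio Sys Out Typ Tig pf PF)

/-- Target TYZ. -/
theorem p_TYZ (hAVE : Pool.Agent.SFG.T_AVE) : T_TYZ := by
  classical
  intro V _ _ G Y X Lc P a z K r M Q b c J hcov hX hvio hmax hdeg hN1 hN2 hQ1n hmb hS1 hS2
  set X0 := dg G (c 0) with hX0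
  have hQ1 : (1 : ℝ) ≤ Q := by exact_mod_cast hQ1n
  obtain ⟨m, hm⟩ : ∃ m : ℝ, m = (M : ℝ) + r + 1 := ⟨_, rfl⟩
  have hM0 : (0 : ℝ) ≤ M := Nat.cast_nonneg _
  have hr0 : (0 : ℝ) ≤ r := Nat.cast_nonneg _
  have hm1 : 1 ≤ m := by linarith
  have hmQ : 0 ≤ m * Q := by positivity
  have hmQ1 : m ≤ m * Q := by nlinarith
  have hL : ((16 * (M + r + 1) * (Q + 1) : ℕ) : ℝ) = 16 * m * (Q + 1) := by
    push_cast
    rw [hm]
  have hb4 : 4 * m ≤ (b : ℝ) := by
    rw [hm]
    exact_mod_cast hmb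
  -- the weight
  set p : ℝ := ∑ v, P v * (if 0 ∈ J v then 1 else 0) with hp
  have hp' : ∑ v, P v * (if ¬ (0 ∈ J v) then (1 : ℝ) else 0) = 1 - p := by
    have h1 : (1 : ℝ) = ∑ v, P v := hcov.one.symm
    have h2 : ∑ v, P v * (if ¬ (0 ∈ J v) then (1 : ℝ) else 0) + p = ∑ v, P v := by
      rw [hp, ← sum_add_distrib]
      refine sum_congr rfl fun v _ => ?_
      by_cases hv : 0 ∈ J v
      · simp only [hv, not_true, if_true, if_false]
        ring
      · simp only [hv, not_false_iff, if_true, if_false]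
        ring
    linarith
  set x0 : ℝ := (X0.card : ℝ) with hx0
  set y0 : ℝ := ((X0ᶜ).card : ℝ) with hy0
  have hex : (b : ℝ) ≤ x0 := by
    rw [hx0]
    exact_mod_cast hdeg
  have hxy : x0 + y0 = (Fintype.card V : ℝ) := by
    rw [hx0, hy0]
    exact_mod_cast card_add_card_compl X0
  have hWX : ∀ W : Finset V, (W.card : ℝ) - r ≤ ((W ∩ X).card : ℝ) := by
    intro W
    have h1 : W.card ≤ (W ∩ X).card + (Xᶜ).card := by
      have h2 : W ⊆ (W ∩ X) ∪ Xᶜ := by
        intro w hw
        by_cases hwX : w ∈ X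
        · exact mem_union_left _ (mem_inter.2 ⟨hw, hwX⟩)
        · exact mem_union_right _ (mem_compl.2 hwX)
      exact (card_le_card h2).trans (card_union_le _ _)
    have h3 : W.card ≤ (W ∩ X).card + r := by omega
    have h4 : (W.card : ℝ) ≤ ((W ∩ X).card : ℝ) + r := by exact_mod_cast h3
    linarith
  have hS1' : ∑ v, P v * (if 0 ∈ J v then ((nc G c (J v) \ dg G v).card : ℝ) else 0) +
      ∑ v, P v * (if ¬ (0 ∈ J v) then ((nc G c (J v) \ dg G v).card : ℝ) else 0) ≤
      M := by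
    rw [← sum_add_distrib]
    have h1 : ∀ v ∈ (univ : Finset V),
        P v * (if 0 ∈ J v then ((nc G c (J v) \ dg G v).card : ℝ) else 0) +
        P v * (if ¬ (0 ∈ J v) then ((nc G c (J v) \ dg G v).card : ℝ) else 0) =
        P v * ((nc G c (J v) \ dg G v).card : ℝ) := by
      intro v _
      by_cases hv : 0 ∈ J v <;> simp [hv]
    rw [sum_congr rfl h1]
    exact hS1
  set M1 := ∑ v, P v * (if 0 ∈ J v then ((nc G c (J v) \ dg G v).card : ℝ) else 0) with hM1
  set M2 := ∑ v, P v * (if ¬ (0 ∈ J v) then ((nc G c (J v) \ dg G v).card : ℝ) else 0) with hM2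
  have hM10 : 0 ≤ M1 := sum_nonneg fun v _ => mul_nonneg (hcov.nn v) (by split_ifs <;> positivity)
  have hM20 : 0 ≤ M2 := sum_nonneg fun v _ => mul_nonneg (hcov.nn v) (by split_ifs <;> positivity)
  have hS2' : ∑ v, P v * (if ¬ (0 ∈ J v) then ((dg G v ∩ X0).card : ℝ) else 0) ≤
      M := by
    have h1 : ∀ v ∈ (univ : Finset V),
        P v * (if ¬ (0 ∈ J v) then ((dg G v ∩ X0).card : ℝ) else 0) =
        P v * (if 0 ∈ J v then 0 else ((dg G v ∩ X0).card : ℝ)) := by
      intro v _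
      by_cases hv : 0 ∈ J v <;> simp [hv]
    rw [sum_congr rfl h1]
    exact hS2
  set M3 := ∑ v, P v * (if ¬ (0 ∈ J v) then ((dg G v ∩ X0).card : ℝ) else 0) with hM3
  -- step (1)
  have h1 : x0 - r - 1 ≤ 2 * (p * x0 + M3) := by
    have h2 := hAVE V G Y X Lc P hcov X0
    have h3 := hWX X0
    have h4 : ∑ v, P v * ((dg G v ∩ X0).card : ℝ) ≤ p * x0 + M3 := by
      rw [hp, hM3, sum_mul, ← sum_add_distrib]
      refine sum_le_sum fun v _ => ?_
      by_cases hv : 0 ∈ J v
      · simp only [hv, if_true, not_true, if_false, mul_one, mul_zero, add_zero]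
        refine mul_le_mul_of_nonneg_left ?_ (hcov.nn v)
        rw [hx0]
        exact_mod_cast card_le_card inter_subset_right
      · simp [hv]
    linarith
  have h1' : (1 - 2 * p) * x0 ≤ 2 * m := by linarith
  have hpq : 1 / 4 ≤ p := by
    by_contra hc
    push Not at hc
    have h5 : 1 / 2 * x0 < (1 - 2 * p) * x0 := mul_lt_mul_of_pos_right (by linarith) (by linarith)
    linarith
  -- step (2)
  have hpX : ∀ v, P v ≠ 0 → v ∈ Y := fun v hv => by
    by_contra hc
    exact hv (hcov.sp v hc)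
  have hey : (b : ℝ) ≤ y0 := by
    obtain ⟨v, hv1, hv2⟩ : ∃ v, P v ≠ 0 ∧ 0 ∈ J v := by
      by_contra hc
      push Not at hc
      have : p = 0 := by
        rw [hp]
        refine sum_eq_zero fun v _ => ?_
        by_cases h0 : P v = 0
        · rw [h0, zero_mul]
        · rw [if_neg (hc v h0), mul_zero]
      linarith
    have h2 := hvio v (hpX v hv1)
    obtain ⟨h3, h4⟩ := h2
    have h5 : X0.card ≤ (dg G v ∪ nc G c (J v)).card := by
      refine card_le_card fun w hw => mem_union_right _ (Pool.Agent.SFB.mem_nc.2 ⟨0, hv2, hw⟩)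
    have h6 : ∑ t ∈ J v, a t ≤ ∑ t ∈ range K, a t := sum_le_sum_of_subset h3
    have h8 := card_add_card_compl X0
    have h11 : b ≤ (X0ᶜ).card := by omega
    rw [hy0]
    exact_mod_cast h11
  -- step (4)
  set E := ∑ v, P v * (if ¬ (0 ∈ J v) then ((X0ᶜ \ dg G v).card : ℝ) else 0) with hE
  have hE0 : 0 ≤ E := sum_nonneg fun v _ => mul_nonneg (hcov.nn v) (by split_ifs <;> positivity)
  have h4 : y0 - r - 1 ≤ 2 * (M1 + (1 - p) * y0 - E) := by
    have h2 := hAVE V G Y X Lc P hcov X0ᶜ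
    have h3 := hWX X0ᶜ
    have h5 : ∑ v, P v * ((dg G v ∩ X0ᶜ).card : ℝ) ≤ M1 + (1 - p) * y0 - E := by
      rw [← hp', hM1, hE, sum_mul, ← sum_add_distrib, ← sum_sub_distrib]
      refine sum_le_sum fun v _ => ?_
      by_cases hv : 0 ∈ J v
      · simp only [hv, if_true, not_true, if_false, mul_zero, zero_mul, add_zero, sub_zero]
        refine mul_le_mul_of_nonneg_left ?_ (hcov.nn v)
        have h6 := (Pool.Agent.SFB.TYP_.sd (dg G v) X0 (nc G c (J v)) (hmax v)
          (fun w hw => Pool.Agent.SFB.mem_nc.2 ⟨0, hv, hw⟩)).1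
        have h7 : dg G v ∩ X0ᶜ = dg G v \ X0 := by
          rw [sdiff_eq_inter_compl]
        rw [h7]
        exact_mod_cast h6
      · simp only [hv, not_false_iff, if_true, if_false, mul_zero, zero_add, mul_one]
        rw [← mul_sub]
        refine mul_le_mul_of_nonneg_left ?_ (hcov.nn v)
        have h6 : (X0ᶜ ∩ dg G v).card + (X0ᶜ \ dg G v).card = (X0ᶜ).card :=
          card_inter_add_card_sdiff X0ᶜ (dg G v)
        rw [inter_comm] at h6
        have h7 : ((dg G v ∩ X0ᶜ).card : ℝ) + ((X0ᶜ \ dg G v).card : ℝ) = y0 := by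
          rw [hy0]
          exact_mod_cast h6
        linarith
    linarith
  have hpq' : 1 / 4 ≤ 1 - p := by
    by_contra hc
    push Not at hc
    have h5 : 1 / 2 * y0 < (1 - 2 * (1 - p)) * y0 :=
      mul_lt_mul_of_pos_right (by linarith) (by linarith)
    linarith
  have hNq : y0 ≤ Q * x0 := by
    have h3 : (Fintype.card V : ℝ) ≤ Q * b := by exact_mod_cast hN2
    have h5 : (Q : ℝ) * b ≤ Q * x0 := mul_le_mul_of_nonneg_left hex (by linarith)
    have h6 : 0 ≤ x0 := by rw [hx0]; positivity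
    linarith
  have hE1 : E ≤ m + m * Q := by
    have h2 : (1 - 2 * p) * y0 ≤ 2 * (m * Q) := by
      rcases le_or_gt (1 - 2 * p) 0 with h5 | h5
      · have h6 : 0 ≤ y0 := by rw [hy0]; positivity
        have h7 := mul_nonpos_of_nonpos_of_nonneg h5 h6
        linarith
      · calc (1 - 2 * p) * y0 ≤ (1 - 2 * p) * (Q * x0) := mul_le_mul_of_nonneg_left hNq h5.le
          _ = Q * ((1 - 2 * p) * x0) := by ring
          _ ≤ Q * (2 * m) := mul_le_mul_of_nonneg_left h1' (by linarith)
          _ = 2 * (m * Q) := by ring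
    linarith
  -- step (5)
  constructor
  · obtain ⟨v, hv1, hv2, hv3⟩ := Pool.Agent.SFB.TYP_.pick P hcov.nn (fun v => 0 ∈ J v)
      (fun v => ((symmDiff (dg G v) X0).card : ℝ) + ((nc G c (J v) \ dg G v).card : ℝ))
      ((16 * (M + r + 1) * (Q + 1) : ℕ) : ℝ) (by
        have h2 : ∑ v, P v * (if 0 ∈ J v then ((symmDiff (dg G v) X0).card : ℝ) +
            ((nc G c (J v) \ dg G v).card : ℝ) else 0) ≤ 3 * M1 := by
          rw [hM1, mul_sum]
          refine sum_le_sum fun v _ => ?_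
          by_cases hv : 0 ∈ J v
          · simp only [hv, if_true]
            have h6 := (Pool.Agent.SFB.TYP_.sd (dg G v) X0 (nc G c (J v)) (hmax v)
              (fun w hw => Pool.Agent.SFB.mem_nc.2 ⟨0, hv, hw⟩)).2
            have h7 : ((symmDiff (dg G v) X0).card : ℝ) ≤
              2 * ((nc G c (J v) \ dg G v).card : ℝ) := by exact_mod_cast h6
            have h8 := mul_le_mul_of_nonneg_left h7 (hcov.nn v)
            linarith
          · simp [hv]
        refine lt_of_le_of_lt h2 ?_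
        rw [hL, ← hp]
        have h5 : 16 * m * (Q + 1) * (1 / 4) ≤ 16 * m * (Q + 1) * p :=
          mul_le_mul_of_nonneg_left hpq (by positivity)
        linarith)
    have h0 : (0 : ℝ) ≤ ((symmDiff (dg G v) X0).card : ℝ) := Nat.cast_nonneg _
    have h0' : (0 : ℝ) ≤ ((nc G c (J v) \ dg G v).card : ℝ) := Nat.cast_nonneg _
    refine ⟨v, hpX v hv1, hv2, ?_, ?_⟩
    · have : ((symmDiff (dg G v) X0).card : ℝ) ≤
          ((16 * (M + r + 1) * (Q + 1) : ℕ) : ℝ) := by linarith
      exact_mod_cast this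
    · have : ((nc G c (J v) \ dg G v).card : ℝ) ≤
          ((16 * (M + r + 1) * (Q + 1) : ℕ) : ℝ) := by linarith
      exact_mod_cast this
  · obtain ⟨v, hv1, hv2, hv3⟩ := Pool.Agent.SFB.TYP_.pick P hcov.nn (fun v => ¬ (0 ∈ J v))
      (fun v => ((symmDiff (dg G v) X0ᶜ).card : ℝ) + ((nc G c (J v) \ dg G v).card : ℝ))
      ((16 * (M + r + 1) * (Q + 1) : ℕ) : ℝ) (by
        have h2 : ∑ v, P v * (if ¬ (0 ∈ J v) then ((symmDiff (dg G v) X0ᶜ).card : ℝ) +
            ((nc G c (J v) \ dg G v).card : ℝ) else 0) ≤ M3 + E + M2 := by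
          rw [hM3, hE, hM2, ← sum_add_distrib, ← sum_add_distrib]
          refine sum_le_sum fun v _ => ?_
          by_cases hv : 0 ∈ J v
          · simp [hv]
          · simp only [hv, not_false_iff, if_true]
            have h6 : (symmDiff (dg G v) X0ᶜ).card ≤
                (dg G v ∩ X0).card + (X0ᶜ \ dg G v).card := by
              rw [symmDiff_def]
              refine (card_union_le _ _).trans ?_
              rw [sdiff_eq_inter_compl, compl_compl]
            have h7 : ((symmDiff (dg G v) X0ᶜ).card : ℝ) ≤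
                ((dg G v ∩ X0).card : ℝ) + ((X0ᶜ \ dg G v).card : ℝ) := by exact_mod_cast h6
            have h8 := mul_le_mul_of_nonneg_left h7 (hcov.nn v)
            linarith
        refine lt_of_le_of_lt h2 ?_
        rw [hL, hp']
        have h5 : 16 * m * (Q + 1) * (1 / 4) ≤ 16 * m * (Q + 1) * (1 - p) :=
          mul_le_mul_of_nonneg_left hpq' (by positivity)
        linarith)
    have h0 : (0 : ℝ) ≤ ((symmDiff (dg G v) X0ᶜ).card : ℝ) := Nat.cast_nonneg _
    have h0' : (0 : ℝ) ≤ ((nc G c (J v) \ dg G v).card : ℝ) := Nat.cast_nonneg _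
    refine ⟨v, hpX v hv1, hv2, ?_, ?_⟩
    · have : ((symmDiff (dg G v) X0ᶜ).card : ℝ) ≤
          ((16 * (M + r + 1) * (Q + 1) : ℕ) : ℝ) := by linarith
      exact_mod_cast this
    · have : ((nc G c (J v) \ dg G v).card : ℝ) ≤
          ((16 * (M + r + 1) * (Q + 1) : ℕ) : ℝ) := by linarith
      exact_mod_cast this

end Pool.Agent.SFH
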