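import Pool.Agent.SFH.Targets

/-!
# SFH-UPP: the upper bound
-/

set_option autoImplicit false

open Finset

namespace Pool.Agent.SFH

open Pool.Agent.StarF (starForest ramsey)
open Pool.Agent.SFB (Con dg nc Two)
open Pool.Agent.SFG (Cov Vio Sys Out Typ Tig pf PF)

theorem p_UPP (hSTC : T_STC) (hREF : T_REF) (hEXA : T_EXA) : T_UPP := by
  intro k q hk hq
  obtain ⟨E0, hE0⟩ := hSTC k q hk hq
  refine ⟨E0, fun a e N he hP hfit G => ?_⟩
  have hN : Par a k q e (Fintype.card (Fin N)) := by rwa [Fintype.card_fin]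
  by_contra hcon
  rw [not_or] at hcon
  obtain ⟨h1, h2⟩ := hcon
  obtain ⟨X, l0, hl0, hkl, hX, hX1, hX2⟩ := hE0 (Fin N) G a e he hN h1 h2
  have hf : ∀ x y c : ℕ, x + y = Fintype.card (Fin N) → c + 1 < k → (c < x ∨ c = 0) →
      pf a k x y c := by
    rwa [Fintype.card_fin]
  rcases hX with hX | hX
  · have hT := hREF (Fin N) G a k q e l0 X hN hX hl0 hX1 hX2 h1 h2
    rcases hEXA (Fin N) G a k q e X hN hT hX1 hX2 hf with h | h
    · exact h1 h
    · exact h2 h
  · have hT := hREF (Fin N) Gᶜ a k q e l0 X hN hX hl0 hX1 hX2 h2 (by rwa [compl_compl])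
    rcases hEXA (Fin N) Gᶜ a k q e X hN hT hX1 hX2 hf with h | h
    · exact h2 h
    · rw [compl_compl] at h
      exact h1 h

end Pool.Agent.SFH
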