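import Pool.Agent.SFH.Targets

/-!
# SFH, target VIO: every further vertex has a violator
-/

set_option autoImplicit false

open Finset

namespace Pool.Agent.SFH

open Pool.Agent.StarF (starForest ramsey)
open Pool.Agent.SFB (Con dg nc Two mem_nc mem_dg)
open Pool.Agent.SFG (Cov Vio Sys Out Typ Tig pf PF)

namespace VIO_

/-- The centres with one more vertex. -/
def cc {V : Type} (c : ℕ → V) (K : ℕ) (v : V) (t : ℕ) : V := if t = K then v else c t

lemma cc_K {V : Type} (c : ℕ → V) (K : ℕ) (v : V) : cc c K v K = v := by simp [cc]

lemma cc_ne {V : Type} (c : ℕ → V) (K : ℕ) (v : V) (t : ℕ) (h : t ≠ K) : cc c K v t = c t := by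
  simp [cc, h]

end VIO_

open VIO_ in
theorem p_VIO : T_VIO := by
  intro V _ _ G a f z K c v hc hzf hK0 hcon hv
  by_contra hno
  push Not at hno
  apply hcon
  have hvc : ∀ t < K, c t ≠ v := by
    intro t ht h
    exact hv (mem_image.2 ⟨t, mem_range.2 ht, h⟩)
  refine ⟨cc c K v, ?_, ?_, ?_⟩
  · intro s hs t ht hst
    rw [Set.mem_Iio] at hs ht
    by_cases h1 : s = K
    · by_cases h2 : t = K
      · rw [h1, h2]
      · exfalso
        rw [h1, cc_K, cc_ne c K v t h2] at hst
        exact hvc t (by omega) hst.symm
    · by_cases h2 : t = K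
      · exfalso
        rw [h2, cc_K, cc_ne c K v s h1] at hst
        exact hvc s (by omega) hst
      · rw [cc_ne c K v s h1, cc_ne c K v t h2] at hst
        exact hc.inj (Set.mem_Iio.2 (by omega)) (Set.mem_Iio.2 (by omega)) hst
  · intro J hJ hJne
    by_cases hK : K ∈ J
    · have hsub : J.erase K ⊆ range K := by
        intro t ht
        have h1 := mem_range.1 (hJ (mem_of_mem_erase ht))
        have h2 := ne_of_mem_erase ht
        rw [mem_range]
        omega
      have h1 := hno (J.erase K)
      unfold Vio at h1
      have h2 : ∑ t ∈ J.erase K, a t + a K = ∑ t ∈ J, a t := sum_erase_add J a hK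
      have h3 : nc G (cc c K v) J = dg G v ∪ nc G c (J.erase K) := by
        ext w
        simp only [mem_union, mem_nc]
        constructor
        · rintro ⟨t, ht, hw⟩
          by_cases h5 : t = K
          · left
            rw [h5, cc_K] at hw
            exact hw
          · right
            rw [cc_ne c K v t h5] at hw
            exact ⟨t, mem_erase.2 ⟨h5, ht⟩, hw⟩
        · rintro (h4 | ⟨t, ht, h4⟩)
          · exact ⟨K, hK, by rw [cc_K]; exact h4⟩
          · exact ⟨t, mem_of_mem_erase ht, by
              rw [cc_ne c K v t (ne_of_mem_erase ht)]; exact h4⟩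
      rw [h3]
      by_contra h4
      exact h1 ⟨hsub, by omega⟩
    · have hsub : J ⊆ range K := by
        intro t ht
        have h1 := mem_range.1 (hJ ht)
        have h2 : t ≠ K := fun h => hK (h ▸ ht)
        rw [mem_range]
        omega
      have h1 := hc.hal J hsub hJne
      have h2 : nc G (cc c K v) J = nc G c J := by
        ext w
        rw [mem_nc, mem_nc]
        constructor
        · rintro ⟨t, ht, hw⟩
          rw [cc_ne c K v t (fun h => hK (h ▸ ht))] at hw
          exact ⟨t, ht, hw⟩
        · rintro ⟨t, ht, hw⟩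
          refine ⟨t, ht, ?_⟩
          rw [cc_ne c K v t (fun h => hK (h ▸ ht))]
          exact hw
      rw [h2]
      omega
  · intro _ w
    rw [cc_ne c K v 0 (by omega)]
    exact hc.top hK0 w

end Pool.Agent.SFH
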