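import Pool.Agent.SFH.Targets2

/-!
# SFH: three stars, lower bound (XLT)
-/

set_option autoImplicit false

open Finset

namespace Pool.Agent.SFH

open Pool.Agent.SFG (pf PF Gen Rel vv ww)

/-- The eight subsets of `range 3`, with the sums and the cardinalities of the two sides. -/
lemma XLT_.cases (a : ℕ → ℕ) (A : Finset ℕ) (hA : A ⊆ range 3) :
    (∑ t ∈ A, a t = 0 ∧ A.card = 0 ∧ ∑ t ∈ range 3 \ A, a t = a 0 + a 1 + a 2 ∧
      (range 3 \ A).card = 3) ∨
    (∑ t ∈ A, a t = a 0 ∧ A.card = 1 ∧ ∑ t ∈ range 3 \ A, a t = a 1 + a 2 ∧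
      (range 3 \ A).card = 2) ∨
    (∑ t ∈ A, a t = a 1 ∧ A.card = 1 ∧ ∑ t ∈ range 3 \ A, a t = a 0 + a 2 ∧
      (range 3 \ A).card = 2) ∨
    (∑ t ∈ A, a t = a 2 ∧ A.card = 1 ∧ ∑ t ∈ range 3 \ A, a t = a 0 + a 1 ∧
      (range 3 \ A).card = 2) ∨
    (∑ t ∈ A, a t = a 0 + a 1 ∧ A.card = 2 ∧ ∑ t ∈ range 3 \ A, a t = a 2 ∧
      (range 3 \ A).card = 1) ∨
    (∑ t ∈ A, a t = a 0 + a 2 ∧ A.card = 2 ∧ ∑ t ∈ range 3 \ A, a t = a 1 ∧
      (range 3 \ A).card = 1) ∨
    (∑ t ∈ A, a t = a 1 + a 2 ∧ A.card = 2 ∧ ∑ t ∈ range 3 \ A, a t = a 0 ∧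
      (range 3 \ A).card = 1) ∨
    (∑ t ∈ A, a t = a 0 + a 1 + a 2 ∧ A.card = 3 ∧ ∑ t ∈ range 3 \ A, a t = 0 ∧
      (range 3 \ A).card = 0) := by
  have h1 : A ∈ (range 3).powerset := mem_powerset.2 hA
  have h2 : (range 3).powerset =
      {∅, {0}, {1}, {2}, {0, 1}, {0, 2}, {1, 2}, {0, 1, 2}} := by decide
  rw [h2] at h1
  simp only [mem_insert, mem_singleton] at h1
  rcases h1 with h | h | h | h | h | h | h | h
  · left
    have h3 : range 3 \ A = {0, 1, 2} := by rw [h]; decide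
    rw [h3, h]
    refine ⟨by simp, by simp, ?_, by simp⟩
    rw [sum_insert (by decide), sum_insert (by decide), sum_singleton]
    ring
  · right; left
    have h3 : range 3 \ A = {1, 2} := by rw [h]; decide
    rw [h3, h]
    exact ⟨by simp, by simp, by simp, by simp⟩
  · right; right; left
    have h3 : range 3 \ A = {0, 2} := by rw [h]; decide
    rw [h3, h]
    exact ⟨by simp, by simp, by simp, by simp⟩
  · right; right; right; left
    have h3 : range 3 \ A = {0, 1} := by rw [h]; decide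
    rw [h3, h]
    exact ⟨by simp, by simp, by simp, by simp⟩
  · right; right; right; right; left
    have h3 : range 3 \ A = {2} := by rw [h]; decide
    rw [h3, h]
    exact ⟨by simp, by simp, by simp, by simp⟩
  · right; right; right; right; right; left
    have h3 : range 3 \ A = {1} := by rw [h]; decide
    rw [h3, h]
    exact ⟨by simp, by simp, by simp, by simp⟩
  · right; right; right; right; right; right; left
    have h3 : range 3 \ A = {0} := by rw [h]; decide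
    rw [h3, h]
    exact ⟨by simp, by simp, by simp, by simp⟩
  · right; right; right; right; right; right; right
    have h3 : range 3 \ A = ∅ := by rw [h]; decide
    rw [h3, h]
    refine ⟨?_, by simp, by simp, by simp⟩
    rw [sum_insert (by decide), sum_insert (by decide), sum_singleton]
    ring

/-- The first colouring. -/
lemma XLT_.fst (a : ℕ → ℕ) (h01 : a 1 ≤ a 0) (h2 : 3 ≤ a 2) :
    ¬ pf a 3 (a 1) (a 0 + a 1) 0 := by
  rintro ⟨A, hA, h5 | ⟨z, hz, -, h6, h7⟩⟩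
  · obtain ⟨h6, h7, -⟩ := h5
    rcases XLT_.cases a A hA with h8 | h8 | h8 | h8 | h8 | h8 | h8 | h8 <;>
    · obtain ⟨h9, h10, h11, h12⟩ := h8
      rw [h9, h10] at h6
      rw [h11, h12] at h7
      omega
  · have hz0 : z = 0 := by
      rw [mul_zero, mul_zero] at hz
      omega
    subst hz0
    rcases XLT_.cases a A hA with h8 | h8 | h8 | h8 | h8 | h8 | h8 | h8 <;>
    · obtain ⟨h9, h10, h11, h12⟩ := h8
      rw [h9, h12] at h6
      rw [h10, h11] at h7
      omega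

/-- The second colouring. -/
lemma XLT_.snd (a : ℕ → ℕ) (h01 : a 1 ≤ a 0) (h12 : a 2 ≤ a 1) (h2 : 3 ≤ a 2)
    (h : a 0 = a 1 ∨ a 1 + a 2 ≤ a 0) : ¬ pf a 3 (a 0 + a 2) (a 1 + a 2) 0 := by
  rintro ⟨A, hA, h5 | ⟨z, hz, -, h6, h7⟩⟩
  · obtain ⟨h6, h7, -⟩ := h5
    rcases XLT_.cases a A hA with h8 | h8 | h8 | h8 | h8 | h8 | h8 | h8 <;>
    · obtain ⟨h9, h10, h11, h12⟩ := h8
      rw [h9, h10] at h6
      rw [h11, h12] at h7
      omega
  · have hz0 : z = 0 := by
      rw [mul_zero, mul_zero] at hz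
      omega
    subst hz0
    rcases XLT_.cases a A hA with h8 | h8 | h8 | h8 | h8 | h8 | h8 | h8 <;>
    · obtain ⟨h9, h10, h11, h12⟩ := h8
      rw [h9, h12] at h6
      rw [h10, h11] at h7
      omega

theorem p_XLT : T_XLT := by
  intro a N h01 h12 h2 hN1 hN2 hN3
  rcases Nat.lt_or_ge (a 0 + 2 * a 1) N with h | h
  · have h3 : a 0 = a 1 ∨ a 1 + a 2 ≤ a 0 := by
      by_contra h4
      rw [if_neg h4] at hN3
      rcases le_max_iff.1 hN3 with h5 | h5 <;> omega
    rw [if_pos h3] at hN3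
    have h4 : N = a 0 + a 1 + 2 * a 2 := by
      rcases le_max_iff.1 hN3 with h5 | h5 <;> omega
    exact ⟨a 0 + a 2, a 1 + a 2, 0, by omega, by omega, Or.inr rfl, XLT_.snd a h01 h12 h2 h3⟩
  · exact ⟨a 1, a 0 + a 1, 0, by omega, by omega, Or.inr rfl, XLT_.fst a h01 h2⟩

end Pool.Agent.SFH
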