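import Pool.Agent.SFG.P_YAR
import Pool.Agent.SFG.P_YFN
import Pool.Agent.SFH.Final
import Pool.Agent.SFH.P_PGH
import Pool.Agent.SFH.P_VIO
import Pool.Agent.SFH.P_NKB
import Pool.Agent.SFH.P_TYZ
import Pool.Agent.SFH.P_STR
import Pool.Agent.SFH.P_COL
import Pool.Agent.SFH.P_THE
import Pool.Agent.SFH.P_PKE
import Pool.Agent.SFH.P_CLT
import Pool.Agent.SFH.P_STC
import Pool.Agent.SFH.P_SLK
import Pool.Agent.SFH.P_STS
import Pool.Agent.SFH.P_VRG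
import Pool.Agent.SFH.P_CMN
import Pool.Agent.SFH.P_PWB
import Pool.Agent.SFH.P_RFA
import Pool.Agent.SFH.P_RFB
import Pool.Agent.SFH.P_REF
import Pool.Agent.SFH.P_TGC
import Pool.Agent.SFH.P_TGD
import Pool.Agent.SFH.P_TIG
import Pool.Agent.SFH.P_EXA
import Pool.Agent.SFH.P_UPP
import Pool.Agent.SFH.P_YST
import Pool.Agent.SFH.P_YCV
import Pool.Agent.SFH.P_YUB
import Pool.Agent.SFH.P_YUP
import Pool.Agent.SFH.P_YLV
import Pool.Agent.SFH.P_YLW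
import Pool.Agent.SFH.P_XUT
import Pool.Agent.SFH.P_XLT

/-!
# SFH: the theorem
-/

set_option autoImplicit false

open Finset

namespace Pool.Agent.SFH

open Pool.Agent.StarF (starForest ramsey)
open Pool.Agent.SFG (PF vv supF)

theorem a_COL : T_COL :=
  p_COL p_VIO (p_NKB Pool.Agent.SFG.p_AVE) Pool.Agent.SFG.a_SMA Pool.Agent.SFG.a_SMB
    (p_TYZ Pool.Agent.SFG.p_AVE) p_STR

theorem a_CLT : T_CLT := p_CLT p_THE p_PKE Pool.Agent.SFB.p_EMB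

theorem a_STC : T_STC :=
  p_STC Pool.Agent.SFG.p_MMX p_PGH a_COL Pool.Agent.SFG.p_TYC a_CLT Pool.Agent.SFB.p_CL2
    Pool.Agent.SFB.p_BLK Pool.Agent.SFB.p_EMB

theorem a_PWB : T_PWB := p_PWB p_CMN

theorem a_STS : T_STS := p_STS (p_SLK Pool.Agent.SFB.p_EMB)

theorem a_REF : T_REF :=
  p_REF a_STS (p_VRG Pool.Agent.SFB.p_EMB) (p_RFA a_PWB) (p_RFB a_PWB)

theorem a_TIG : T_TIG :=
  p_TIG (Pool.Agent.SFG.p_E1B Pool.Agent.SFB.p_EMB) Pool.Agent.SFG.p_PRT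
    (p_TGC Pool.Agent.SFG.a_FTB Pool.Agent.SFG.a_FTR Pool.Agent.SFG.a_FTI)
    (p_TGD Pool.Agent.SFG.a_FTR Pool.Agent.SFG.a_FTI)

theorem a_EXA : T_EXA := p_EXA Pool.Agent.SFG.a_FTB Pool.Agent.SFG.a_FTR a_TIG

theorem a_UPP : T_UPP := p_UPP a_STC a_REF a_EXA

theorem a_YST : T_YST := p_YST Pool.Agent.SFG.p_SFT

theorem all_final (k : ℕ) (δ : ℝ) (hδ : 0 < δ) :
    ∃ n₀ : ℕ, ∀ n : Fin k → ℕ, Antitone n → (∀ i, n₀ ≤ n i) →
      (∃ j, ∀ i, (1 + δ) * (2 * n i : ℝ) ≤ ((n j + ∑ l ∈ Iic j, n l : ℕ) : ℝ)) →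
      ramsey (starForest n) (starForest n) =
        sInf {N : ℕ | ∀ x y c : ℕ, x + y = N → c + 1 < k → (c < x ∨ c = 0) → PF n x y c} ∧
      ((∀ j, n j + ∑ l ∈ Iic j, n l ≤ ramsey (starForest n) (starForest n)) ∧
        ∃ j, ramsey (starForest n) (starForest n) ≤ n j + ∑ l ∈ Iic j, n l + (k - 1)) ∧
      ((∀ A B : Finset (Fin k), A ≠ B → ∑ i ∈ A, n i ≤ ∑ i ∈ B, n i →
          ∑ i ∈ A, n i + 5 * k ^ 2 < ∑ i ∈ B, n i) →
        ramsey (starForest n) (starForest n) =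
          (univ.filter (fun j : Fin k => 0 < (j : ℕ))).sup
            (fun j => n j + ∑ l ∈ Iic j, n l + max (vv k j (n j)) (supF n j))) ∧
      (∀ h : k = 3, ramsey (starForest n) (starForest n) =
        max (n ⟨0, by omega⟩ + 2 * n ⟨1, by omega⟩ + 1)
          (n ⟨0, by omega⟩ + n ⟨1, by omega⟩ + 2 * n ⟨2, by omega⟩ +
            (if n ⟨0, by omega⟩ = n ⟨1, by omega⟩ ∨
              n ⟨1, by omega⟩ + n ⟨2, by omega⟩ ≤ n ⟨0, by omega⟩ then 1 else 0))) ∧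
      (3 ≤ k → ∀ j : Fin k, (j : ℕ) = 1 →
        (∀ i, i ≠ j → (1 + δ) * ((n i + ∑ l ∈ Iic i, n l : ℕ) : ℝ) ≤
          ((n j + ∑ l ∈ Iic j, n l : ℕ) : ℝ)) →
        ramsey (starForest n) (starForest n) =
          n j + ∑ l ∈ Iic j, n l + k / 2 - (if k % 4 = 2 ∧ n j % 2 = 0 then 1 else 0)) ∧
      ((∀ i j, n i = n j) → ∀ j, ramsey (starForest n) (starForest n) =
        (k + 1) * n j + k - 2) :=
  final a_UPP Pool.Agent.SFG.a_LOW Pool.Agent.SFG.p_CNV Pool.Agent.SFG.p_LOB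
    Pool.Agent.SFG.p_YFN (p_YUB a_YST) (p_YUP a_YST Pool.Agent.SFG.p_YAR) (p_YLV p_YCV)
    (p_YLW p_YCV) (p_XUT a_YST) p_XLT k δ hδ

end Pool.Agent.SFH
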