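import Pool.Agent.SFG.Targets

/-!
# SFH: exact diagonal Ramsey numbers of star forests, near ties included (MP_705b7e_co): definitions

`k` stars with the sizes `a 0 ≥ .. ≥ a (k - 1)`. The notions `Con`, `dg`, `nc`, `Two` are those of
`Pool.Agent.SFB`, the notions `Cov`, `Vio`, `Sys`, `Out`, `Typ`, `Tig`, `pf`, `PF` those of
`Pool.Agent.SFG`.
-/

set_option autoImplicit false

open Finset

namespace Pool.Agent.SFH

open Pool.Agent.StarF (starForest ramsey)
open Pool.Agent.SFB (Con dg nc Two)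
open Pool.Agent.SFG (Cov Vio Sys Out Typ Tig pf PF)

/-- `k` stars of sizes `a 0, .., a (k - 1)` in a graph with `N` vertices; `e` is the slack. -/
structure Par (a : ℕ → ℕ) (k q e N : ℕ) : Prop where
  k2 : 2 ≤ k
  anti : ∀ s t, s ≤ t → t < k → a t ≤ a s
  lo : ∀ i < k, ∑ t ∈ range i, a t + 2 * a i ≤ N
  all : ∑ t ∈ range k, a t + 16 * e ≤ N
  two : 2 * a 0 + 16 * e ≤ N
  up : N ≤ q * e
  min : ∀ t < k, 200 * k ^ 2 ≤ a t
  big : 100000 * k ^ 3 ≤ e

/-- Two levels of surplus: `f` and the much smaller `z`. -/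
structure Lev (k e N f z Q : ℕ) : Prop where
  fe : f ≤ e
  q1 : 1 ≤ Q
  up : N ≤ Q * f
  kz : k ≤ z
  gap : 20000000 * 2 ^ k * Q ^ 2 * (z + 6 * k + 3) ≤ f

/-- The error of the first structure. -/
def BB (k Q z : ℕ) : ℕ := 64 * Q ^ 2 * (z + 6 * k + 3)

section

variable {V : Type} [Fintype V] [DecidableEq V]

/-- A system of `i` centres with Hall surplus `f`; the first centre has maximal degree. -/
structure HS (G : SimpleGraph V) (a : ℕ → ℕ) (f i : ℕ) (c : ℕ → V) : Prop where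
  inj : Set.InjOn c (Set.Iio i)
  hal : ∀ J ⊆ range i, J.Nonempty → ∑ t ∈ J, a t + f ≤ (nc G c J).card
  top : 0 < i → ∀ v, (dg G v).card ≤ (dg G (c 0)).card

lemma HS.mono {G : SimpleGraph V} {a : ℕ → ℕ} {f f' i : ℕ} {c : ℕ → V} (h : HS G a f i c)
    (hf : f' ≤ f) : HS G a f' i c :=
  ⟨h.inj, fun J hJ hne => (Nat.add_le_add_left hf _).trans (h.hal J hJ hne), h.top⟩

end

namespace Par

variable {a : ℕ → ℕ} {k q e N : ℕ}

lemma k1 (h : Par a k q e N) : k ≤ k ^ 2 ∧ k ≤ k ^ 3 ∧ k ^ 2 ≤ k ^ 3 ∧ 2 * k ≤ k ^ 2 := by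
  have h1 := h.k2
  refine ⟨?_, ?_, ?_, ?_⟩
  · nlinarith
  · calc k = k * 1 * 1 := by ring
      _ ≤ k * k * k := Nat.mul_le_mul (Nat.mul_le_mul_left _ (by omega)) (by omega)
      _ = k ^ 3 := by ring
  · calc k ^ 2 = k * k * 1 := by ring
      _ ≤ k * k * k := Nat.mul_le_mul_left _ (by omega)
      _ = k ^ 3 := by ring
  · nlinarith

lemma ek (h : Par a k q e N) : 100000 * k ≤ e := by
  have h1 := h.k1
  have h2 := h.big
  omega

lemma ek2 (h : Par a k q e N) : 100000 * k ^ 2 ≤ e := by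
  have h1 := h.k1
  have h2 := h.big
  omega

lemma q1 (h : Par a k q e N) : 1 ≤ q := by
  have h1 := h.all
  have h2 := h.up
  have h4 := h.ek
  have h6 := h.k2
  rcases Nat.eq_zero_or_pos q with h5 | h5
  · rw [h5, zero_mul] at h2
    omega
  · exact h5

lemma le0 (h : Par a k q e N) {t : ℕ} (ht : t < k) : a t ≤ a 0 := h.anti 0 t (Nat.zero_le t) ht

/-- Two stars. -/
lemma pair (h : Par a k q e N) {u t : ℕ} (hu : u < k) (ht : t < k) :
    a u + a t + 16 * e ≤ N := by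
  have h1 := h.two
  have h2 := h.le0 hu
  have h3 := h.le0 ht
  omega

/-- The other stars, if one is removed. -/
lemma rest (h : Par a k q e N) {t : ℕ} (ht : t < k) :
    ∑ s ∈ (range k).erase t, a s + a t + 16 * e ≤ N := by
  have h1 := h.all
  have h2 := sum_erase_add (range k) a (mem_range.2 ht)
  omega

lemma part (h : Par a k q e N) {i : ℕ} (hi : i ≤ k) : ∑ t ∈ range i, a t + 16 * e ≤ N := by
  have h1 := h.all
  have h2 : ∑ t ∈ range i, a t ≤ ∑ t ∈ range k, a t :=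
    sum_le_sum_of_subset (range_subset_range.2 hi)
  omega

/-- Sums over intervals. -/
lemma split (_h : Par a k q e N) {K : ℕ} (hK : K < k) :
    ∑ t ∈ range k, a t = ∑ t ∈ range K, a t + a K + ∑ t ∈ Ico (K + 1) k, a t := by
  rw [← sum_range_succ, sum_range_add_sum_Ico a (by omega : K + 1 ≤ k)]

/-- If `N` is at most `S_K + 2 a K + m` then `a K` is large and the later stars are small. -/
lemma crit (h : Par a k q e N) {K m : ℕ} (hK : K < k)
    (hN : N ≤ ∑ t ∈ range K, a t + 2 * a K + m) :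
    16 * e ≤ 2 * a K + m ∧ ∑ t ∈ Ico (K + 1) k, a t + 16 * e ≤ a K + m := by
  have h1 := h.part (i := K) (by omega)
  have h2 := h.all
  have h3 := h.split hK
  constructor
  · omega
  · omega

lemma m1 (h : Par a k q e N) {t : ℕ} (ht : t < k) :
    k * (13 * k) + 1 + 12 * k + k ≤ a t ∧ 12 * k ≤ a t ∧ k + 2 ≤ a t := by
  have h1 := h.min t ht
  have h2 := h.k2
  have h3 := h.k1
  have h4 : k * (13 * k) = 13 * k ^ 2 := by ring
  omega

/-- Blocks are large. -/
lemma b1 (h : Par a k q e N) {x : ℕ} (hx : 6 * e ≤ x) :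
    k * ((12 * k) ^ 2 + 12 * k + 1) + 100 * k ≤ x ∧ (12 * k) * (12 * k + 1) + k < x := by
  have h1 := h.big
  have h2 := h.k2
  have h3 := h.k1
  have h4 : k * ((12 * k) ^ 2 + 12 * k + 1) = 144 * k ^ 3 + 12 * k ^ 2 + k := by ring
  have h5 : (12 * k) * (12 * k + 1) = 144 * k ^ 2 + 12 * k := by ring
  omega

end Par

end Pool.Agent.SFH
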