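import Pool.Agent.SFH.Targets

/-!
# SFH: few neighbours (VRG)
-/

set_option autoImplicit false

open Finset

namespace Pool.Agent.SFH

open Pool.Agent.StarF (starForest ramsey)
open Pool.Agent.SFB (Con dg nc Two)
open Pool.Agent.SFG (Cov Vio Sys Out Typ Tig pf PF)

namespace VRG_

lemma bij {V : Type} [DecidableEq V] [Nonempty V] (s : Finset ℕ) (t : Finset V)
    (h : s.card = t.card) : ∃ f : ℕ → V, Set.InjOn f (s : Set ℕ) ∧ s.image f = t := by
  classical
  let e : s ≃ t := Finset.equivOfCardEq h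
  refine ⟨fun n => if hn : n ∈ s then (e ⟨n, hn⟩ : V) else Classical.arbitrary V, ?_, ?_⟩
  · intro x hx y hy hxy
    have hx' : x ∈ s := hx
    have hy' : y ∈ s := hy
    simp only [dif_pos hx', dif_pos hy'] at hxy
    have h1 := e.injective (Subtype.ext hxy)
    exact congrArg Subtype.val h1
  · ext v
    rw [mem_image]
    constructor
    · rintro ⟨n, hn, rfl⟩
      simp only [dif_pos hn]
      exact (e ⟨n, hn⟩).2
    · intro hv
      refine ⟨(e.symm ⟨v, hv⟩ : ℕ), (e.symm ⟨v, hv⟩).2, ?_⟩
      have h1 : ((e.symm ⟨v, hv⟩ : s) : ℕ) ∈ s := (e.symm ⟨v, hv⟩).2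
      simp only [dif_pos h1]
      simp

lemma big {V : Type} [Fintype V] [DecidableEq V] (G : SimpleGraph V) (c : ℕ → V)
    (J : Finset ℕ) (t : ℕ) (ht : t ∈ J) (Z : Finset V) (l : ℕ)
    (h : (Z \ dg G (c t)).card ≤ l) : Z.card ≤ (nc G c J ∩ Z).card + l := by
  have h1 : Z ⊆ (nc G c J ∩ Z) ∪ (Z \ dg G (c t)) := by
    intro v hv
    rw [mem_union, mem_inter, mem_sdiff]
    by_cases h2 : v ∈ dg G (c t)
    · exact Or.inl ⟨Pool.Agent.SFB.mem_nc.2 ⟨t, ht, h2⟩, hv⟩
    · exact Or.inr ⟨hv, h2⟩
  have h2 := card_le_card h1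
  have h3 := card_union_le (nc G c J ∩ Z) (Z \ dg G (c t))
  omega

end VRG_

open VRG_ in
theorem p_VRG (hEMB : Pool.Agent.SFB.T_EMB) : T_VRG := by
  intro V _ _ G a k K l P T W Z W' Z' hKk hP hmin hWW hZZ hTW hT hW hW' hk h1 h2 h3 hcon
  classical
  by_contra hlt
  push_neg at hlt
  apply hcon
  have hW'ne : W'.Nonempty := by
    rw [← card_pos]
    omega
  obtain ⟨w0, _⟩ := hW'ne
  haveI : Nonempty V := ⟨w0⟩
  have hKP : K ∉ P := fun h => by
    have := mem_range.1 (hP h)
    omega
  set I1 : Finset ℕ := insert K P with hI1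
  set I2 : Finset ℕ := range k \ I1 with hI2
  have hI1k : I1 ⊆ range k := by
    intro t ht
    rw [hI1, mem_insert] at ht
    rcases ht with ht | ht
    · rw [ht]
      exact mem_range.2 hKk
    · have := mem_range.1 (hP ht)
      exact mem_range.2 (by omega)
  have hI1c : I1.card = T.card := by
    rw [hI1, card_insert_of_notMem hKP, hT]
  have hI2c : I2.card ≤ W'.card := by
    have h4 : I2.card ≤ (range k).card := card_le_card sdiff_subset
    rw [card_range] at h4
    omega
  obtain ⟨W'', hW''s, hW''c⟩ := exists_subset_card_eq hI2c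
  obtain ⟨f1, hf1, hf1i⟩ := bij I1 T hI1c
  obtain ⟨f2, hf2, hf2i⟩ := bij I2 W'' hW''c.symm
  have hm1 : ∀ t ∈ I1, f1 t ∈ T := fun t ht => by
    rw [← hf1i]
    exact mem_image_of_mem _ ht
  have hm2 : ∀ t ∈ I2, f2 t ∈ W' := fun t ht => by
    apply hW''s
    rw [← hf2i]
    exact mem_image_of_mem _ ht
  let c : ℕ → V := fun t => if t ∈ I1 then f1 t else f2 t
  have hc1 : ∀ t ∈ I1, c t = f1 t := fun t ht => if_pos ht
  have hc2 : ∀ t, t ∉ I1 → c t = f2 t := fun t ht => if_neg ht
  have hI2m : ∀ t, t < k → t ∉ I1 → t ∈ I2 := fun t ht h => by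
    rw [hI2, mem_sdiff, mem_range]
    exact ⟨ht, h⟩
  have hinj : Set.InjOn c (Set.Iio k) := by
    intro s hs t ht hst
    have hs' : s < k := hs
    have ht' : t < k := ht
    by_cases h4 : s ∈ I1
    · by_cases h5 : t ∈ I1
      · rw [hc1 s h4, hc1 t h5] at hst
        exact hf1 h4 h5 hst
      · exfalso
        rw [hc1 s h4, hc2 t h5] at hst
        have h6 := hTW (hm1 s h4)
        have h7 := hm2 t (hI2m t ht' h5)
        rw [hst] at h6
        exact (disjoint_left.1 hWW) h6 h7
    · by_cases h5 : t ∈ I1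
      · exfalso
        rw [hc2 s h4, hc1 t h5] at hst
        have h6 := hTW (hm1 t h5)
        have h7 := hm2 s (hI2m s hs' h4)
        rw [← hst] at h6
        exact (disjoint_left.1 hWW) h6 h7
      · rw [hc2 s h4, hc2 t h5] at hst
        exact hf2 (hI2m s hs' h4) (hI2m t ht' h5) hst
  apply hEMB V G k a c hinj
  intro J hJ hJne
  have hC : ((range k).image c).card ≤ k := by
    have := card_image_le (s := range k) (f := c)
    rwa [card_range] at this
  have hnc : (nc G c J).card ≤ (nc G c J \ (range k).image c).card + k := by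
    have h4 : nc G c J ⊆ (nc G c J \ (range k).image c) ∪ (range k).image c := by
      intro v hv
      by_cases h5 : v ∈ (range k).image c
      · exact mem_union_right _ h5
      · exact mem_union_left _ (mem_sdiff.2 ⟨hv, h5⟩)
    have h5 := card_le_card h4
    have h6 := card_union_le (nc G c J \ (range k).image c) ((range k).image c)
    omega
  have hsI1 : ∑ t ∈ I1, a t = ∑ t ∈ P, a t + a K := by
    rw [hI1, sum_insert hKP]
    ring
  have hI2e : I2 = (range K \ P) ∪ Ico (K + 1) k := by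
    ext t
    rw [hI2, hI1, mem_sdiff, mem_union, mem_sdiff, mem_insert, mem_Ico, mem_range, mem_range,
      not_or]
    constructor
    · rintro ⟨h4, h5, h6⟩
      by_cases h7 : t < K
      · exact Or.inl ⟨h7, h6⟩
      · exact Or.inr ⟨by omega, h4⟩
    · rintro (⟨h4, h5⟩ | ⟨h4, h5⟩)
      · exact ⟨by omega, by omega, h5⟩
      · refine ⟨h5, by omega, fun h6 => ?_⟩
        have := mem_range.1 (hP h6)
        omega
  have hI2d : Disjoint (range K \ P) (Ico (K + 1) k) := by
    rw [disjoint_left]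
    intro t ht ht'
    rw [mem_sdiff, mem_range] at ht
    rw [mem_Ico] at ht'
    omega
  have hsI2 : ∑ t ∈ I2, a t = ∑ t ∈ range K \ P, a t + ∑ t ∈ Ico (K + 1) k, a t := by
    rw [hI2e, sum_union hI2d]
  by_cases hJ2 : ∃ t ∈ J, t ∉ I1
  · obtain ⟨t2, ht2, ht2'⟩ := hJ2
    have ht2k : t2 < k := mem_range.1 (hJ ht2)
    have h5 : Z'.card ≤ (nc G c J ∩ Z').card + l := by
      apply big G c J t2 ht2 Z' l
      rw [hc2 t2 ht2']
      exact hW' _ (hm2 t2 (hI2m t2 ht2k ht2'))
    by_cases hJ1 : ∃ t ∈ J, t ∈ I1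
    · obtain ⟨t1, ht1, ht1'⟩ := hJ1
      have h4 : Z.card ≤ (nc G c J ∩ Z).card + l := by
        apply big G c J t1 ht1 Z l
        rw [hc1 t1 ht1']
        exact hW _ (hTW (hm1 t1 ht1'))
      have h6 : (nc G c J ∩ Z).card + (nc G c J ∩ Z').card ≤ (nc G c J).card := by
        rw [← card_union_of_disjoint]
        · apply card_le_card
          intro v hv
          rw [mem_union, mem_inter, mem_inter] at hv
          rcases hv with hv | hv
          · exact hv.1
          · exact hv.1
        · rw [disjoint_left]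
          intro v hv hv'
          rw [mem_inter] at hv hv'
          exact (disjoint_left.1 hZZ) hv.2 hv'.2
      have h7 : ∑ t ∈ J, a t ≤ ∑ t ∈ range k, a t := sum_le_sum_of_subset hJ
      omega
    · push_neg at hJ1
      have h6 : J ⊆ I2 := fun t ht => hI2m t (mem_range.1 (hJ ht)) (hJ1 t ht)
      have h7 : ∑ t ∈ J, a t ≤ ∑ t ∈ I2, a t := sum_le_sum_of_subset h6
      have h8 : (nc G c J ∩ Z').card ≤ (nc G c J).card := card_le_card inter_subset_left
      omega
  · push_neg at hJ2
    have hJI : J ⊆ I1 := hJ2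
    by_cases h4 : I1 ⊆ J
    · have h5 : J = I1 := Subset.antisymm hJI h4
      have h6 : nc G c J = T.biUnion (fun v => dg G v) := by
        rw [h5, ← hf1i]
        ext w
        rw [Pool.Agent.SFB.mem_nc, mem_biUnion]
        constructor
        · rintro ⟨t, ht, hw⟩
          rw [hc1 t ht] at hw
          exact ⟨f1 t, mem_image_of_mem _ ht, hw⟩
        · rintro ⟨v, hv, hw⟩
          obtain ⟨t, ht, rfl⟩ := mem_image.1 hv
          refine ⟨t, ht, ?_⟩
          rw [hc1 t ht]
          exact hw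
      have h7 : ∑ t ∈ J, a t = ∑ t ∈ P, a t + a K := by
        rw [h5, hsI1]
      rw [h6] at hnc ⊢
      omega
    · obtain ⟨t0, ht0, ht0'⟩ := not_subset.1 h4
      have h5 : ∑ t ∈ J, a t + a t0 ≤ ∑ t ∈ I1, a t := by
        have h6 : insert t0 J ⊆ I1 := insert_subset ht0 hJI
        have h7 : ∑ t ∈ insert t0 J, a t ≤ ∑ t ∈ I1, a t := sum_le_sum_of_subset h6
        rw [sum_insert ht0'] at h7
        omega
      have h6 : a K ≤ a t0 := by
        rw [hI1, mem_insert] at ht0
        rcases ht0 with h7 | h7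
        · rw [h7]
        · exact hmin t0 (mem_range.1 (hP h7))
      obtain ⟨t1, ht1⟩ := hJne
      have h7 : Z.card ≤ (nc G c J ∩ Z).card + l := by
        apply big G c J t1 ht1 Z l
        rw [hc1 t1 (hJI ht1)]
        exact hW _ (hTW (hm1 t1 (hJI ht1)))
      have h8 : (nc G c J ∩ Z).card ≤ (nc G c J).card := card_le_card inter_subset_left
      omega

end Pool.Agent.SFH
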