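import Pool.Agent.SFH.Targets2

/-!
# SFH: YLW, the lower bound from the second value
-/

set_option autoImplicit false

open Finset

namespace Pool.Agent.SFH

open Pool.Agent.SFG (pf PF Gen Rel vv ww)

namespace YLW_

/-- Cardinality of a proper non-empty subset of `range K`. -/
lemma cards {K : ℕ} {P : Finset ℕ} (h1 : P ⊆ range K) (h2 : P.Nonempty) (h3 : P ≠ range K) :
    1 ≤ P.card ∧ P.card + 1 ≤ K := by
  refine ⟨card_pos.2 h2, ?_⟩
  have h4 := card_lt_card (h1.ssubset_of_ne h3)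
  rw [card_range] at h4
  omega

end YLW_

open YLW_ in
theorem p_YLW (hYCV : T_YCV) : T_YLW := by
  intro a k q e N K P h hG hK1 hKk hP hne hn hR hN
  obtain ⟨hp1, hp2⟩ := cards hP hne hn
  have hS : ∑ t ∈ range K, a t = ∑ t ∈ range K \ P, a t + ∑ t ∈ P, a t :=
    (sum_sdiff hP).symm
  have hN2 := h.lo K hKk
  have hN3 := hN
  rw [sum_range_succ] at hN3
  obtain ⟨p, hp⟩ : ∃ p, p = P.card := ⟨_, rfl⟩
  rw [← hp] at hp1 hp2 hN3
  unfold ww at hN3
  have hkm := (h.m1 hKk).2.2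
  refine ⟨∑ t ∈ P, a t + a K + min (p + 1) (k - 1 - p) - 1,
    N - (∑ t ∈ P, a t + a K + min (p + 1) (k - 1 - p) - 1), 0, ?_, by omega, Or.inr rfl, ?_⟩
  · omega
  refine hYCV a k q e N h hG K _ _ 0 P hK1 hKk (by omega) (by omega) ⟨hP, ?_, ?_, ?_, ?_, ?_⟩
    hR ?_
  · intro h3
    omega
  · intro _
    rw [← hp]
    omega
  · rw [← hp]
    omega
  · rw [← hp]
    omega
  · rw [← hp, mul_zero, mul_zero, Nat.zero_mod]
    omega
  · omega

end Pool.Agent.SFH
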