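import Pool.Agent.SFH.Defs

/-!
# SFH: exact diagonal Ramsey numbers of star forests, near ties included (MP_705b7e_co): targets

The proofs are in the docstrings. Conventions: `k` stars with sizes `a 0 ≥ .. ≥ a (k - 1)`,
`N = |V|`, `s(J) = ∑ t ∈ J, a t`, `S_i = s(range i)`, `E = Ico (K + 1) k`. Outline: for two levels
of surplus `f` and `z` (`z` much smaller) and maximal systems of `K` centres with surplus `f`, none
of length `K + 1` with surplus `z`, the proof of `Pool.Agent.SFG` gives the two block structure with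
an error `l0` which is small compared with `e` (targets PGH to STC; the classification CLT does not
use that the other levels are maximal: the star `K` has many neighbours in both blocks, and its
leaves are divided so that no later star fits tightly). Targets SLK to REF improve the error to
`12 k`. Then the exact part of `Pool.Agent.SFG` applies. `Par` gives `N ≥ S_i + 2 a i` (`lo`),
`N ≥ S_k + 16 e` (`all`), `N ≥ 2 a 0 + 16 e` (`two`), see also `Par.crit`, `Par.part`, `Par.pair`,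
`Par.rest`, `Par.split`, `Par.m1`, `Par.b1`, `Par.ek` in `Defs.lean`.
-/

set_option autoImplicit false

open Finset

namespace Pool.Agent.SFH

open Pool.Agent.StarF (starForest ramsey)
open Pool.Agent.SFB (Con dg nc Two)
open Pool.Agent.SFG (Cov Vio Sys Out Typ Tig pf PF)

/-! ### levels, systems -/

/-- PGH. Two levels on which the two monotone functions are constant. Proof: by induction on `m`:
for every `m` and `Q ≥ 1` there is `T` such that for all `f ≤ e` with `T ≤ f`, `N ≤ Q f` and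
`2 k ≤ κ f + κ' f + m` the conclusion holds. Let `C = 40000000 * 2 ^ k * Q ^ 2`, `z = f / C`. If `T`
is large then `k ≤ z`, `1 ≤ z`, `C * (6 k + 3) ≤ f` and the fourth and fifth condition of `Lev`
hold for `f, z, Q`. If `κ f = κ z` and `κ' f = κ' z` take these. Otherwise
`κ f + κ' f + 1 ≤ κ z + κ' z` (monotone); for `m = 0` this is impossible as `κ z + κ' z ≤ 2 k`; for
`m + 1` use the induction hypothesis for `m`, `z` and `Q' = 2 C Q`: `f < C (z + 1) ≤ 2 C z`, and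
`z ≥ T(m, Q')` if `T` is large. Finally `m = 2 k`, `Q = 2 q`: with `f = e`. -/
def T_PGH : Prop := ∀ k q : ℕ, 1 ≤ k → 1 ≤ q → ∃ E0 : ℕ, ∀ e N : ℕ, E0 ≤ e → N ≤ q * e →
  ∀ κ κ' : ℕ → ℕ, (∀ f, κ f ≤ k) → (∀ f, κ' f ≤ k) → (∀ f f', f ≤ f' → κ f' ≤ κ f) →
  (∀ f f', f ≤ f' → κ' f' ≤ κ' f) →
  ∃ f z Q, Lev k e N f z Q ∧ κ f = κ z ∧ κ' f = κ' z

/-- VIO. Violators. Proof: `c' = Function.update c K v`. It satisfies `inj`, `top` (as `0 < K`), so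
`hal` fails: some nonempty `J' ⊆ range (K + 1)` has `|nc G c' J'| < s(J') + z`; `K ∈ J'`
(otherwise `nc G c' J' = nc G c J'`, `z ≤ f`), `J = J'.erase K`, `nc G c' J' = dg G v ∪ nc G c J`.
(See `Pool/Agent/SFG/P_VIO.lean`.) -/
def T_VIO : Prop := ∀ (V : Type) [Fintype V] [DecidableEq V] (G : SimpleGraph V) (a : ℕ → ℕ)
  (f z K : ℕ) (c : ℕ → V) (v : V), HS G a f K c → z ≤ f → 0 < K →
  (¬ ∃ c' : ℕ → V, HS G a z (K + 1) c') → v ∉ (range K).image c → ∃ J, Vio G a z K c v J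

/-- NKB (from SFG.AVE). The number of vertices. Proof: suppose `N ≥ S_K + 2 a K + 2 z + r + 2`. By
`Pool.Agent.StarF.hall` there are disjoint `D t ⊆ dg (c t)` with `a t` elements, `t < K`;
`W = univ \ (range K).biUnion D`, `|W ∩ X| ≥ N - S_K - r`. By AVE
`∑ v, P v * |dg v ∩ W| ≥ a K + z + 1 / 2`, so some `v` with `P v ≠ 0` (so `v ∈ Y`, different from
the `c t`) has `|dg v ∩ W| ≥ a K + z`. If `K > 0` then `Function.update c K v` is a system of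
length `K + 1` with surplus `z` (for `J ∋ K` the set `nc J` contains the disjoint sets `D t`,
`t ∈ J`, `t < K`, and `dg v ∩ W`). If `K = 0` let `c' 0` be a vertex of maximal degree. (See
`Pool/Agent/SFG/P_EXT.lean`, `P_GRD.lean`.) -/
def T_NKB : Prop := ∀ (V : Type) [Fintype V] [DecidableEq V] (G : SimpleGraph V)
  (Y X : Finset V) (L : ℕ) (P : V → ℝ) (a : ℕ → ℕ) (f z K r : ℕ) (c : ℕ → V),
  Cov G Y X L P → (Xᶜ).card ≤ r → HS G a f K c → z ≤ f →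
  (¬ ∃ c' : ℕ → V, HS G a z (K + 1) c') → (∀ t < K, c t ∉ Y) →
  Fintype.card V ≤ ∑ t ∈ range K, a t + 2 * a K + 2 * z + r + 1

/-- TYZ (from SFG.AVE). Two witnesses. Proof: as TYP in `Pool.Agent.SFG` with general constants
(`Pool/Agent/SFG/P_TYP.lean`, `Pool/Agent/SFB/P_TYP.lean`). `X0 = dg (c 0)`, `p` = the sum of `P v`
over the `v` with `0 ∈ J v`, `B = 16 (M + r + 1) (Q + 1)`.
(1) AVE with `W = X0`: `|X0| - r - 1 ≤ 2 (p |X0| + M)`, so `(1 - 2 p) |X0| ≤ 2 M + r + 1`, and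
`p ≥ 1 / 4` as `|X0| ≥ b > 2 (2 M + r + 1)`.
(2) So some `v ∈ Y` has `0 ∈ J v`, hence `X0 ⊆ nc (J v)` has at most `S_K + a K + z` elements, and
`|X0ᶜ| ≥ b`.
(3) If `0 ∈ J v` then `|dg v \ X0| ≤ |X0 \ dg v| ≤ |nc (J v) \ dg v|` (`|dg v| ≤ |X0|`).
(4) AVE with `W = X0ᶜ`: `|X0ᶜ| - r - 1 ≤ 2 (M + (1 - p) |X0ᶜ| - E)`, `E` = the sum of
`P v * |X0ᶜ \ dg v|` over `0 ∉ J v`. So `2 E ≤ 2 M + r + 1 + (1 - 2 p) |X0ᶜ| ≤
(2 M + r + 1) (1 + Q)` because `|X0ᶜ| ≤ N ≤ Q b ≤ Q |X0|`; and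
`(1 - 2 (1 - p)) |X0ᶜ| ≤ 2 M + r + 1` gives `1 - p ≥ 1 / 4`.
(5) Sum over `0 ∈ J v` of `P v * (|symmDiff| + |nc (J v) \ dg v|) ≤ 3 M < B / 4 ≤ B p`: so some
`v` with `P v ≠ 0`, `0 ∈ J v` has both terms at most `B`. Similarly for `0 ∉ J v`:
`symmDiff (dg v) X0ᶜ = (dg v ∩ X0) ∪ (X0ᶜ \ dg v)`, the sum is at most `M + E + M < B / 4`. -/
def T_TYZ : Prop := ∀ (V : Type) [Fintype V] [DecidableEq V] (G : SimpleGraph V)
  (Y X : Finset V) (L : ℕ) (P : V → ℝ) (a : ℕ → ℕ) (z K r M Q b : ℕ) (c : ℕ → V)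
  (J : V → Finset ℕ),
  Cov G Y X L P → (Xᶜ).card ≤ r → (∀ v ∈ Y, Vio G a z K c v (J v)) →
  (∀ v, (dg G v).card ≤ (dg G (c 0)).card) → b ≤ (dg G (c 0)).card →
  ∑ t ∈ range K, a t + a K + z + b ≤ Fintype.card V → Fintype.card V ≤ Q * b → 1 ≤ Q →
  4 * (M + r + 1) ≤ b →
  ∑ v, P v * ((nc G c (J v) \ dg G v).card : ℝ) ≤ M →
  ∑ v, P v * (if 0 ∈ J v then 0 else ((dg G v ∩ dg G (c 0)).card : ℝ)) ≤ M →
  (∃ v ∈ Y, 0 ∈ J v ∧
    (symmDiff (dg G v) (dg G (c 0))).card ≤ 16 * (M + r + 1) * (Q + 1) ∧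
    (nc G c (J v) \ dg G v).card ≤ 16 * (M + r + 1) * (Q + 1)) ∧
  (∃ v ∈ Y, 0 ∉ J v ∧
    (symmDiff (dg G v) (dg G (c 0))ᶜ).card ≤ 16 * (M + r + 1) * (Q + 1) ∧
    (nc G c (J v) \ dg G v).card ≤ 16 * (M + r + 1) * (Q + 1))

/-- STR. The sizes. Proof: as in `Pool/Agent/SFG/P_STR.lean`. `X0 = dg (c 0)`. If `t ∈ J1 ∩ J2`
then all but `2 B` elements of `dg (c t)` are in `dg v1 ∩ dg v2`, which has at most `2 B` elements:
`|dg (c t)| ≤ 4 B`, contradiction. `|dg v| ≤ |dg v ∪ nc J| ≤ s(J) + a K + z` (Vio), so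
`|X0| ≤ s(J1) + a K + z + B` and `|X0ᶜ| ≤ s(J2) + a K + z + B`; the sum is `N ≥ S_K + 2 a K`. If
some `t < K` is not in `J1 ∪ J2` then `s(J1) + s(J2) ≤ S_K - a t ≤ S_K - a K`, so
`a K ≤ 2 z + 2 B`: contradiction. The lower bounds follow from `|X0| = N - |X0ᶜ|`. -/
def T_STR : Prop := ∀ (V : Type) [Fintype V] [DecidableEq V] (G : SimpleGraph V)
  (a : ℕ → ℕ) (k z K B : ℕ) (c : ℕ → V) (v1 v2 : V) (J1 J2 : Finset ℕ),
  (∀ t < K, a K ≤ a t) → ∑ t ∈ range K, a t + 2 * a K ≤ Fintype.card V → z ≤ B →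
  2 * z + 2 * B < a K → (∀ t < K, 4 * B < (dg G (c t)).card) →
  Vio G a z K c v1 J1 → Vio G a z K c v2 J2 →
  (symmDiff (dg G v1) (dg G (c 0))).card ≤ B → (nc G c J1 \ dg G v1).card ≤ B →
  (symmDiff (dg G v2) (dg G (c 0))ᶜ).card ≤ B → (nc G c J2 \ dg G v2).card ≤ B →
  k + 2 ≤ (univ.filter (fun v => (symmDiff (dg G v) (dg G (c 0))).card ≤ B)).card →
  k + 2 ≤ (univ.filter (fun v => (symmDiff (dg G v) (dg G (c 0))ᶜ).card ≤ B)).card →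
  Typ G a k K B B (dg G (c 0)) J1 J2

/-- COL (from VIO, NKB, SFG.SMA, SFG.SMB, TYZ, STR). One colour. Proof: `r = 6 k + 2`,
`B = BB k Q z`. NKB: `N ≤ S_K + 2 a K + 2 z + 6 k + 3 ≤ S_K + 2 a K + B`. `K = 0` would contradict
`Par.two` (`2 z + 6 k + 3 ≤ 3 e`). By `Par.crit` `2 a K ≥ 16 e - B ≥ 14 e`. VIO gives the violators
`J v` for `v ∈ Y` (choose `J v = ∅` outside; the centres are not in `Y`). SMA and SMB of
`Pool.Agent.SFG` with `k := z`, `e := f`, `q := Q` and this `r` (`Par.lo` for `K`,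
`f ≤ e ≤ a 0`): the sums are at most `M = Q (6 k + 2 + z)`. TYZ with `b = f`
(`f ≤ |dg (c 0)|` by `HS.hal` for `{0}`; `S_K + a K + z + f ≤ N` as `a K ≥ 7 e ≥ z + f`;
`4 (M + r + 1) ≤ 8 Q (z + 6 k + 3) ≤ f`); `16 (M + r + 1) (Q + 1) ≤ B`. The two witnesses are in
`Y`, so the two filter sets have more than `k + 1` elements (hypotheses). STR
(`|dg (c t)| ≥ a t ≥ 7 e > 4 B` by `HS.hal` for `{t}`). -/
def T_COL : Prop := ∀ (V : Type) [Fintype V] [DecidableEq V] (G : SimpleGraph V)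
  (Y X : Finset V) (L : ℕ) (P : V → ℝ) (a : ℕ → ℕ) (k K q e f z Q : ℕ) (c : ℕ → V),
  Par a k q e (Fintype.card V) → Lev k e (Fintype.card V) f z Q → Cov G Y X L P →
  (Xᶜ).card ≤ 6 * k + 2 → K < k → HS G a f K c → (¬ ∃ c' : ℕ → V, HS G a z (K + 1) c') →
  (∀ t < K, c t ∉ Y) →
  ((univ.filter (fun v => (symmDiff (dg G v) (dg G (c 0))).card ≤ BB k Q z)).card ≤ k + 1 →
    ∀ v ∈ Y, BB k Q z < (symmDiff (dg G v) (dg G (c 0))).card) →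
  ((univ.filter (fun v => (symmDiff (dg G v) (dg G (c 0))ᶜ).card ≤ BB k Q z)).card ≤ k + 1 →
    ∀ v ∈ Y, BB k Q z < (symmDiff (dg G v) (dg G (c 0))ᶜ).card) →
  1 ≤ K ∧ Fintype.card V ≤ ∑ t ∈ range K, a t + 2 * a K + BB k Q z ∧
  ∃ J1 J2, Typ G a k K (BB k Q z) (BB k Q z) (dg G (c 0)) J1 J2

/-! ### classification -/

/-- THE. A number far from the forbidden ones. Proof: the candidates `θ = lo + 2 w i`,
`i = 0, .., 2 ^ k`; a set `A ⊆ range k` excludes at most one of them (two candidates differ by at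
least `2 w`, and `A` excludes `θ` only if `m0 < θ + s(A) + w` and `θ + s(A) < m0 + w`), and there
are `2 ^ k` sets `A`. -/
def T_THE : Prop := ∀ (a : ℕ → ℕ) (k m0 lo hi w : ℕ), 1 ≤ w → lo + 2 ^ k * (2 * w) ≤ hi →
  ∃ θ, lo ≤ θ ∧ θ ≤ hi ∧ ∀ A ⊆ range k,
    m0 + w ≤ θ + ∑ t ∈ A, a t ∨ θ + ∑ t ∈ A, a t + w ≤ m0

/-- PKE. Packing of the later stars into rooms `a K - θ` and `θ`. Proof: by induction on `i`,
`K + 1 ≤ i ≤ k`, there is `P' ⊆ Ico (K + 1) i` with the two properties (`Q' = Ico (K + 1) i \ P'`).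
Step: apply the hypothesis to `A = insert i P'`. If `θ + s(P') + a i + w ≤ a K` put `i` into `P'`.
Otherwise `a K + w ≤ θ + s(P') + a i`; `s(P') + s(Q') + 2 a i ≤ a K + B` gives
`s(Q') + a i + w ≤ θ + B`: put `i` into `Q'`. -/
def T_PKE : Prop := ∀ (a : ℕ → ℕ) (k K θ w B : ℕ), K < k → θ ≤ a K →
  (∀ i < k, K < i → ∑ t ∈ Ico (K + 1) i, a t + 2 * a i ≤ a K + B) →
  (∀ A ⊆ range k, a K + w ≤ θ + ∑ t ∈ A, a t ∨ θ + ∑ t ∈ A, a t + w ≤ a K) →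
  ∃ E1 ⊆ Ico (K + 1) k, (E1 = ∅ ∨ ∑ t ∈ E1, a t + w + θ ≤ a K + B) ∧
    (Ico (K + 1) k \ E1 = ∅ ∨ ∑ t ∈ Ico (K + 1) k \ E1, a t + w ≤ θ + B)

/-- CLT (from THE, PKE, SFB.EMB). The classification of the vertices. Proof: suppose that the
three alternatives fail for `u`; `s1 = 16 * 2 ^ k * B`, `w = 8 B`, `d1 = |dg u ∩ X0|`,
`d2 = |dg u \ X0|`; `d1, d2 > s1`, `d1 + d2 > a K + s1`. THE with `m0 = a K`, `lo = a K - d2`
(natural subtraction), `hi = min (a K) d1`: `hi - lo ≥ s1 = 2 ^ k * (2 w)` (as `a K ≥ s1`, by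
`Par.crit`). So `a K ≤ θ + d2`, `θ ≤ d1`, `θ ≤ a K`. PKE (its first condition follows from `Par.lo`
and `N ≤ S_K + 2 a K + B`) gives `E1` and `E2 = E \ E1`. Let `T1, T2` be the filter sets of Typ
(at least `k + 2` elements each, disjoint as `N > 2 M`). Choose distinct centres
`c t ∈ T1 \ {u}` for `t ∈ J1 ∪ E1`, `c t ∈ T2 \ {u}` for `t ∈ J2 ∪ E2`, `c K = u` (see
`Pool/Agent/SFG/P_CL1.lean` and `Pool.Agent.SFB.CL1_.centres`). `C` = the centres, `|C| = k`; for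
`v ∈ T1` `|X0 \ dg v| ≤ M`, for `v ∈ T2` `|X0ᶜ \ dg v| ≤ M`. Note `M + k ≤ 2 B + 1`, `k ≤ B`.
Hall's condition of EMB for nonempty `J ⊆ range k`, `JA = J ∩ (J1 ∪ E1)`, `JB = J ∩ (J2 ∪ E2)`:
both nonempty: `|nc J \ C| ≥ N - 2 M - k ≥ S_k ≥ s(J)` (`Par.all`).
`K ∉ J`, `JB = ∅`: `|nc J \ C| ≥ |X0| - M - k ≥ s(J1) + a K - 2 B - M - k`, and
`s(JA) ≤ s(J1) + s(E1)` with `E1 = ∅` or `s(E1) ≤ a K + B - w`. `K ∉ J`, `JA = ∅`: similarly with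
`X0ᶜ` and `s(E2) ≤ θ + B - w ≤ a K + B - w`.
`J = {K}`: `|dg u \ C| ≥ a K + s1 - k`.
`K ∈ J`, `JA ≠ ∅ = JB`: `|nc J \ C| ≥ |X0| - M + d2 - k ≥ s(J1) + a K - 2 B - M - k + d2`; if
`E1 = ∅` use `d2 > s1 ≥ 2 B + M + k`; otherwise `s(E1) + w + θ ≤ a K + B` and `d2 ≥ a K - θ`.
`K ∈ J`, `JB ≠ ∅ = JA`: `|nc J \ C| ≥ |X0ᶜ| - M + d1 - k`; if `E2 = ∅` use `d1 > s1`; otherwise
`s(E2) + w ≤ θ + B` and `d1 ≥ θ`. So `Con G k a`: contradiction. -/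
def T_CLT : Prop := ∀ (V : Type) [Fintype V] [DecidableEq V] (G : SimpleGraph V) (a : ℕ → ℕ)
  (k K q e B M : ℕ) (X0 : Finset V) (J1 J2 : Finset ℕ), Par a k q e (Fintype.card V) →
  1 ≤ K → K < k → k ≤ B → 1000 * 2 ^ k * B ≤ e →
  Fintype.card V ≤ ∑ t ∈ range K, a t + 2 * a K + B → M ≤ B + 1 → ¬ Con G k a →
  Typ G a k K B M X0 J1 J2 →
  ∀ u, (dg G u).card ≤ a K + 16 * 2 ^ k * B ∨ (dg G u \ X0).card ≤ 16 * 2 ^ k * B ∨
    (dg G u ∩ X0).card ≤ 16 * 2 ^ k * B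

/-- STC (from SFG.MMX, PGH, COL, SFG.TYC, CLT, SFB.CL2, SFB.BLK, SFB.EMB). The structure. Proof:
let `κ f = Nat.findGreatest (fun i => ∃ c, HS G a f i c) k`, `κ'` the same for `Gᶜ` (monotone by
`HS.mono`; length 0 exists). PGH gives `f, z, Q`; `K = κ f = κ z`, `K' = κ' f = κ' z`. `K < k` since
a system of length `k` with surplus `z ≥ k` gives `Con G k a` (SFB.EMB). So there is a system `c`
of `G` with surplus `f` and length `K` and none of length `K + 1` with surplus `z`; the same for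
`Gᶜ`, `K'`, `c'`. Let `R` consist of the centres `c t` (`t < K`), `c' t` (`t < K'`) and of those of
the four filter sets (in COL, for `G` and `c`, and for `Gᶜ` and `c'`) which have at most `k + 1`
elements: `|R| ≤ 2 (k - 1) + 4 (k + 1) = 6 k + 2`. `Y = Rᶜ`; MMX with `L = 1` gives `X ⊆ Y` with
`|Y \ X| < 1`, so `X = Y`, and `Cov G Y X 1 P` or `Cov Gᶜ Y X 1 P`. COL the type of this colour, say
`G'`, with `B = BB k Q z`, TYC the type of `G'ᶜ`, CLT (for `G'` with `M = B` and for `G'ᶜ` with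
`M = B + 1`; same `K`) and SFB.CL2 (with `K := s1`, `L := s1`, `m := a K`, `s1 = 16 * 2 ^ k * B`;
`3 a K ≤ N` as `K ≥ 1`) the hypothesis of SFB.BLK with `20 s1` and `b = a K - 2 B`.
`l0 = 100 s1 + 1`; `100 l0 ≤ 20000000 * 2 ^ k * Q ^ 2 * (z + 6 k + 3) ≤ f ≤ e`, and
`a K ≥ 7 e`, so the blocks have at least `a K - 2 B - 80 s1 ≥ 6 e` elements. (See
`Pool/Agent/SFG/P_STC.lean`.) -/
def T_STC : Prop := ∀ k q : ℕ, 2 ≤ k → 1 ≤ q → ∃ E0 : ℕ, ∀ (V : Type) [Fintype V]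
  [DecidableEq V] (G : SimpleGraph V) (a : ℕ → ℕ) (e : ℕ), E0 ≤ e →
  Par a k q e (Fintype.card V) → ¬ Con G k a → ¬ Con Gᶜ k a →
  ∃ (X : Finset V) (l0 : ℕ), 100 * l0 ≤ e ∧ k ≤ l0 ∧ (Two G X l0 ∨ Two Gᶜ X l0) ∧
    6 * e ≤ X.card ∧ 6 * e ≤ (Xᶜ).card

/-! ### from a small error to a bounded error -/

/-- SLK (from SFB.EMB). The embedding with slack. Proof: distinct centres `c t ∈ X` for `t ∈ A`,
`c t ∈ Xᶜ` for `t ∈ B`. Hall's condition for `J`, `JA = J ∩ A`, `JB = J ∩ B`: `nc J \ C` contains at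
least `|X| - l - |A|` points of `X` if `JA ≠ ∅` and at least `|Xᶜ| - l - |B|` points of `Xᶜ` if
`JB ≠ ∅`. -/
def T_SLK : Prop := ∀ (V : Type) [Fintype V] [DecidableEq V] (G : SimpleGraph V)
  (k l : ℕ) (a : ℕ → ℕ) (A B : Finset ℕ) (X : Finset V), Two G X l → A ∪ B = range k →
  Disjoint A B → k ≤ X.card → k ≤ (Xᶜ).card → (A = ∅ ∨ ∑ t ∈ A, a t + l + k ≤ X.card) →
  (B = ∅ ∨ ∑ t ∈ B, a t + l + k ≤ (Xᶜ).card) → Con G k a

/-- STS (from SLK). The state of the blocks. Proof: let `i ≤ k` be maximal such that some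
`P ⊆ range i` satisfies `P = ∅ ∨ s(P) + l + k ≤ |X|` and
`range i \ P = ∅ ∨ s(range i \ P) + l + k ≤ |Xᶜ|` (`i = 0` works). `i < k` by SLK; `K = i`. Since
`insert K P` and `P` do not work for `i + 1`: `|X| < s(P) + a K + l + k` and
`|Xᶜ| < s(range K \ P) + a K + l + k`. `K = 0` would give `N < 2 a 0 + 2 (l + k)`, contradicting
`Par.two`. -/
def T_STS : Prop := ∀ (V : Type) [Fintype V] [DecidableEq V] (G : SimpleGraph V)
  (a : ℕ → ℕ) (k q e l : ℕ) (X : Finset V), Par a k q e (Fintype.card V) → Two G X l →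
  100 * l ≤ e → 6 * e ≤ X.card → 6 * e ≤ (Xᶜ).card → ¬ Con G k a →
  ∃ (K : ℕ) (P : Finset ℕ), 1 ≤ K ∧ K < k ∧ P ⊆ range K ∧
    X.card ≤ ∑ t ∈ P, a t + a K + l + k ∧
    (Xᶜ).card ≤ ∑ t ∈ range K \ P, a t + a K + l + k

/-- VRG (from SFB.EMB). Few neighbours. Proof: suppose
`s(P) + a K + k ≤ |T.biUnion (dg G)|`. Let `c` map `insert K P` bijectively to `T` and the other
indices of `range k` (those of `(range K \ P) ∪ E`) to distinct points of `W'`; `C` = the centres,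
`|C| = k`. Hall's condition for nonempty `J ⊆ range k`, `J1 = J ∩ insert K P`, `J2 = J \ J1`:
`J2 = ∅`, `J1 = insert K P`: `|nc J \ C| ≥ |T.biUnion (dg G)| - k ≥ s(P) + a K`.
`J2 = ∅`, `J1 ≠ insert K P`: `|nc J \ C| ≥ |Z| - l - k ≥ s(P) ≥ s(J)`, since a star of size at least
`a K` is missing. `J1 = ∅`: `|nc J \ C| ≥ |Z'| - l - k ≥ s(range K \ P) + s(E)`. Both nonempty:
`|nc J \ C| ≥ |Z| + |Z'| - 2 l - k ≥ S_k`. -/
def T_VRG : Prop := ∀ (V : Type) [Fintype V] [DecidableEq V] (G : SimpleGraph V)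
  (a : ℕ → ℕ) (k K l : ℕ) (P : Finset ℕ) (T W Z W' Z' : Finset V), K < k → P ⊆ range K →
  (∀ t < K, a K ≤ a t) → Disjoint W W' → Disjoint Z Z' → T ⊆ W → T.card = P.card + 1 →
  (∀ w ∈ W, (Z \ dg G w).card ≤ l) → (∀ w ∈ W', (Z' \ dg G w).card ≤ l) → k ≤ W'.card →
  ∑ t ∈ P, a t + l + k ≤ Z.card →
  ∑ t ∈ range K \ P, a t + ∑ t ∈ Ico (K + 1) k, a t + l + k ≤ Z'.card →
  ∑ t ∈ range k, a t + 2 * l + k ≤ Z.card + Z'.card → ¬ Con G k a →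
  (T.biUnion (fun v => dg G v)).card < ∑ t ∈ P, a t + a K + k

/-- CMN. Few common non-neighbours. Proof: let `D = Z \ dg G u`. The sum over `u' ∈ W` of
`|D ∩ (Z \ dg G u')|` is the sum over `w ∈ D` of `|W \ dg G w|`, at most `|D| l`. If all
`u' ∈ W.erase u` had `4 |D ∩ (Z \ dg G u')| > |D|` then `(|W| - 1) |D| < 4 |D| l` or
(`|D| = 0`) a contradiction; but `|W| - 1 > 4 l`. -/
def T_CMN : Prop := ∀ (V : Type) [Fintype V] [DecidableEq V] (G : SimpleGraph V)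
  (W Z : Finset V) (l : ℕ) (u : V), u ∈ W → (∀ w ∈ Z, (W \ dg G w).card ≤ l) →
  4 * l + 2 ≤ W.card → ∃ u' ∈ W, u' ≠ u ∧
    4 * ((Z \ dg G u) ∩ (Z \ dg G u')).card ≤ (Z \ dg G u).card

/-- PWB (from CMN). A pointwise bound. Proof: `u'` from CMN, `T` with `{u, u'} ⊆ T ⊆ W`, `|T| = m`;
`T.biUnion (dg G)` contains the disjoint sets `Z \ ((Z \ dg u) ∩ (Z \ dg u'))` and `dg u \ Z`. -/
def T_PWB : Prop := ∀ (V : Type) [Fintype V] [DecidableEq V] (G : SimpleGraph V)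
  (W Z : Finset V) (l m A : ℕ) (u : V), u ∈ W → (∀ w ∈ Z, (W \ dg G w).card ≤ l) →
  4 * l + 2 ≤ W.card → 2 ≤ m → m ≤ W.card →
  (∀ T ⊆ W, T.card = m → (T.biUnion (fun v => dg G v)).card ≤ A) →
  4 * (Z.card + (dg G u \ Z).card) ≤ 4 * A + (Z \ dg G u).card

/-- RFA (from PWB). The first case. Proof: for `u ∈ X` let `D = |X \ dg G u| ≥ 1` (`u` is in this
set) and `t = |dg G u ∩ Xᶜ|`; so `|dg Gᶜ u ∩ X| = D - 1`, `|Xᶜ \ dg Gᶜ u| = t`,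
`|symmDiff (dg G u) X| = D + t`. PWB for `G`, `W = Z = X`: `4 (|X| + t) ≤ 4 A + D`. PWB for `Gᶜ`,
`W = X`, `Z = Xᶜ` (`|X \ dg Gᶜ w| = |X ∩ dg G w| ≤ l` for `w ∈ Xᶜ`):
`4 (|Xᶜ| + D - 1) ≤ 4 B + t`. The sum gives `3 (D + t) ≤ 8 k + 4`, so `D + t ≤ 4 k`. For `u ∈ Xᶜ`
the same with `X` and `Xᶜ`, `A` and `B` exchanged. -/
def T_RFA : Prop := ∀ (V : Type) [Fintype V] [DecidableEq V] (G : SimpleGraph V)
  (X : Finset V) (k l m m' A B : ℕ), Two G X l → 1 ≤ k → 4 * l + 2 ≤ X.card →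
  4 * l + 2 ≤ (Xᶜ).card → 2 ≤ m → 2 ≤ m' → m ≤ X.card → m' ≤ X.card → m ≤ (Xᶜ).card →
  m' ≤ (Xᶜ).card →
  (∀ T ⊆ X, T.card = m → (T.biUnion (fun v => dg G v)).card ≤ A) →
  (∀ T ⊆ X, T.card = m' → (T.biUnion (fun v => dg Gᶜ v)).card ≤ B) →
  (∀ T ⊆ Xᶜ, T.card = m' → (T.biUnion (fun v => dg G v)).card ≤ B) →
  (∀ T ⊆ Xᶜ, T.card = m → (T.biUnion (fun v => dg Gᶜ v)).card ≤ A) →
  A + B ≤ Fintype.card V + 2 * k → Two G X (12 * k)

/-- RFB (from PWB). The second case (`m = 1`). Proof: `D, t` as in RFA for `u ∈ X`, `D', t'` for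
`w ∈ Xᶜ` (`D' = |Xᶜ \ dg G w| ≥ 1`, `t' = |dg G w ∩ X|`), `x = |X|`, `y = |Xᶜ|`. The hypotheses for
one point: `x + t ≤ A + D` and `D' - 1 + x ≤ A + t'`; PWB: `4 (y + D - 1) ≤ 4 B + t` and
`4 (y + t') ≤ 4 B + D'`. Hence `3 t ≤ 8 k + 4`, so `t ≤ 4 k`, and `3 D' ≤ 8 k + 4`, so `D' ≤ 4 k`.
Also `x ≤ A + t'` for all `w ∈ Xᶜ`; the sum over `w ∈ Xᶜ` of `t'` is the sum over `u ∈ X` of `t`
(edges between `X` and `Xᶜ`), at most `4 k x ≤ 4 k y`; so `x ≤ A + 4 k`. Then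
`D ≤ B - y + 1 + t / 4 ≤ x + 2 k - A + 1 + k ≤ 7 k + 1` and `t' ≤ B - y + D' / 4 ≤ 7 k`. So
`D + t ≤ 11 k + 1 ≤ 12 k` and `D' + t' ≤ 11 k`. -/
def T_RFB : Prop := ∀ (V : Type) [Fintype V] [DecidableEq V] (G : SimpleGraph V)
  (X : Finset V) (k l m' A B : ℕ), Two G X l → 1 ≤ k → 4 * l + 2 ≤ X.card →
  4 * l + 2 ≤ (Xᶜ).card → 2 ≤ m' → m' ≤ X.card → m' ≤ (Xᶜ).card → X.card ≤ (Xᶜ).card →
  (∀ u ∈ X, (dg G u).card ≤ A) → (∀ u ∈ Xᶜ, (dg Gᶜ u).card ≤ A) →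
  (∀ T ⊆ X, T.card = m' → (T.biUnion (fun v => dg Gᶜ v)).card ≤ B) →
  (∀ T ⊆ Xᶜ, T.card = m' → (T.biUnion (fun v => dg G v)).card ≤ B) →
  A + B ≤ Fintype.card V + 2 * k → Two G X (12 * k)

/-- REF (from STS, VRG, RFA, RFB). Proof: STS gives `K, P`; `R = range K \ P`; `|P| + |R| = K ≥ 1`.
`A = s(P) + a K + k`, `B = s(R) + a K + k`, so `A + B = S_K + 2 a K + 2 k ≤ N + 2 k` (`Par.lo`), and
`N ≤ S_K + 2 a K + 2 (l + k)`, so by `Par.crit` `s(E) + 16 e ≤ a K + 2 (l + k)`, `a K ≥ 7 e`,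
`|X| ≥ s(P) + a K - l - k`, `|Xᶜ| ≥ s(R) + a K - l - k`. VRG four times (`l := l`): for `G`,
`W = Z = X`, `W' = Z' = Xᶜ`, `P`; for `G`, `W = Z = Xᶜ`, `W' = Z' = X`, `R`; for `Gᶜ`, `W = Xᶜ`,
`Z = X`, `W' = X`, `Z' = Xᶜ`, `P`; for `Gᶜ`, `W = X`, `Z = Xᶜ`, `W' = Xᶜ`, `Z' = X`, `R`
(`range K \ R = P`). If `P ≠ ∅ ≠ R`: RFA with `m = |P| + 1`, `m' = |R| + 1`. If `P = ∅`: RFB
(`|X| ≤ a K + l + k ≤ 2 a K - l - k ≤ |Xᶜ|`). If `R = ∅`: RFB for `Xᶜ` (`Two.symm`), with `A` and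
`B` exchanged. -/
def T_REF : Prop := ∀ (V : Type) [Fintype V] [DecidableEq V] (G : SimpleGraph V)
  (a : ℕ → ℕ) (k q e l : ℕ) (X : Finset V), Par a k q e (Fintype.card V) → Two G X l →
  100 * l ≤ e → 6 * e ≤ X.card → 6 * e ≤ (Xᶜ).card → ¬ Con G k a → ¬ Con Gᶜ k a →
  Two G X (12 * k)

/-! ### the exact part -/

/-- TGC (from SFB.FTB, SFB.FTR, SFG.FTI). The tight case with few inner blue edges. Proof: the
proof of `Pool/Agent/SFG/P_TGC.lean` with `el k q` replaced by `12 * k`; the facts about sizes are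
`Par.pair`, `Par.all`, `Par.m1`, `Par.b1`, `Par.ek`. -/
def T_TGC : Prop := ∀ (V : Type) [Fintype V] [DecidableEq V] (G : SimpleGraph V)
  (a : ℕ → ℕ) (k q e t : ℕ) (X : Finset V) (v0 : V), Par a k q e (Fintype.card V) →
  Two G X (12 * k) → 6 * e ≤ X.card → 6 * e ≤ (Xᶜ).card →
  Tig a k (12 * k) t X → (∀ v ∈ X, X.card - a t ≤ (dg Gᶜ v ∩ X).card) → v0 ∈ X →
  X.card - a t + X.card * (X.card - a t) % 2 ≤ (dg Gᶜ v0 ∩ X).card → X.card + 1 < a t + k →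
  pf a k X.card (Xᶜ).card (X.card - a t) → Con G k a ∨ Con Gᶜ k a

/-- TGD (from SFB.FTR, SFG.FTI). The tight case with many inner blue edges. Proof: the proof of
`Pool/Agent/SFG/P_TGD.lean` with `el k q` replaced by `12 * k`. -/
def T_TGD : Prop := ∀ (V : Type) [Fintype V] [DecidableEq V] (G : SimpleGraph V)
  (a : ℕ → ℕ) (k q e t : ℕ) (X : Finset V), Par a k q e (Fintype.card V) →
  Two G X (12 * k) → 6 * e ≤ X.card → 6 * e ≤ (Xᶜ).card →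
  Tig a k (12 * k) t X → (∀ v ∈ X, X.card - a t ≤ (dg Gᶜ v ∩ X).card) →
  a t + k ≤ X.card + 1 → pf a k (a t) (Fintype.card V - a t) 0 → Con Gᶜ k a

/-- TIG (from SFG.E1B, SFG.PRT, TGC, TGD). A star which is tight in `X`. Proof: the proof of
`Pool/Agent/SFG/P_TIG.lean` with `el k q` replaced by `12 * k` (`Par.rest`). -/
def T_TIG : Prop := ∀ (V : Type) [Fintype V] [DecidableEq V] (G : SimpleGraph V)
  (a : ℕ → ℕ) (k q e : ℕ) (X : Finset V), Par a k q e (Fintype.card V) →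
  Two G X (12 * k) → 6 * e ≤ X.card → 6 * e ≤ (Xᶜ).card →
  (∀ x y c : ℕ, x + y = Fintype.card V → c + 1 < k → (c < x ∨ c = 0) → pf a k x y c) →
  (∃ t < k, a t + 1 ≤ X.card ∧ X.card < a t + k + 12 * k) → Con G k a ∨ Con Gᶜ k a

/-- EXA (from SFB.FTB, SFB.FTR, TIG). Proof: the proof of `Pool/Agent/SFG/P_EXA.lean` with `el k q`
replaced by `12 * k`. -/
def T_EXA : Prop := ∀ (V : Type) [Fintype V] [DecidableEq V] (G : SimpleGraph V)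
  (a : ℕ → ℕ) (k q e : ℕ) (X : Finset V), Par a k q e (Fintype.card V) →
  Two G X (12 * k) → 6 * e ≤ X.card → 6 * e ≤ (Xᶜ).card →
  (∀ x y c : ℕ, x + y = Fintype.card V → c + 1 < k → (c < x ∨ c = 0) → pf a k x y c) →
  Con G k a ∨ Con Gᶜ k a

/-- UPP (from STC, REF, EXA). The upper bound. Proof: `E0` from STC. Suppose neither; STC gives `X`,
`l0` with `Two G X l0` or `Two Gᶜ X l0`; REF (for `G` or `Gᶜ`, `compl_compl`) and EXA. -/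
def T_UPP : Prop := ∀ k q : ℕ, 2 ≤ k → 1 ≤ q → ∃ E0 : ℕ, ∀ (a : ℕ → ℕ) (e N : ℕ), E0 ≤ e →
  Par a k q e N →
  (∀ x y c : ℕ, x + y = N → c + 1 < k → (c < x ∨ c = 0) → pf a k x y c) →
  ∀ G : SimpleGraph (Fin N), Con G k a ∨ Con Gᶜ k a

end Pool.Agent.SFH
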