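import Pool.Agent.SFH.Targets
import Pool.Agent.SFG.Targets3

/-!
# SFH: explicit values of the block number, near ties included (MP_705b7e_co): targets

Conventions of `Pool/Agent/SFH/Targets.lean` and `Pool/Agent/SFG/Targets3.lean`:
`s(J) = ∑ t ∈ J, a t`, `S_i = s(range i)`, `M_K = S_{K+1} + a K = S_K + 2 a K`,
`E = Ico (K + 1) k`, `g = |E| = k - 1 - K`; for `P ⊆ range K` write `Q = range K \ P`, `p = |P|`,
so `|Q| = K - p`. The targets PCK and SFT are those of `Pool.Agent.SFG` (`Targets2.lean`), and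
`Gen`, `Rel`, `Sta`, `vv`, `ww` are from `Pool/Agent/SFG/Targets3.lean`. In `Par a k q e N`:
`e ≥ 100000 * k ^ 3`, every `a t ≥ 200 * k ^ 2`.
-/

set_option autoImplicit false

open Finset

namespace Pool.Agent.SFH

open Pool.Agent.SFG (pf PF T_PCK T_SFT Gen Rel Sta vv ww T_YAR)

/-- The state of a two block colouring without the star forest (without the condition `Rel`). -/
structure Sto (a : ℕ → ℕ) (k K x y c : ℕ) (P : Finset ℕ) : Prop where
  sub : P ⊆ range K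
  x0 : P.card = 0 → x < a K + 1 + c
  x1 : P.card ≠ 0 → x < ∑ t ∈ P, a t + a K + P.card + 1
  x2 : x < ∑ t ∈ P, a t + a K + (k - 1 - P.card)
  y1 : y < ∑ t ∈ range K \ P, a t + a K + (K + 1 - P.card)
  y2 : y + (K + 1 - P.card) * c + x * c % 2 <
    ∑ t ∈ range K \ P, a t + a K + P.card + (k - 1 - K)

/-- YST (from SFG.SFT). The state of a bad colouring. Proof: `C = 2 k`. Let `i ≤ k` be
maximal such that some `P ⊆ range i` satisfies `P = ∅ ∨ s(P) + C ≤ x` and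
`range i \ P = ∅ ∨ s(range i \ P) + C ≤ y`. `i = k` is impossible by SFT. `K = i`; as
`insert K P` and `P` do not work for `K + 1`: `x < s(P) + a K + C`, `y < s(Q) + a K + C`. `K = 0`
would give `N < 2 a 0 + 2 C`: contradiction to `Par.two`. So `N < M_K + 2 C`; by `Par.lo` `N ≥ M_K`,
hence `x > s(P) + a K - C`, `y > s(Q) + a K - C`, and by `Par.crit` `s(E) + 16 e ≤ a K + 2 C`. So
both blocks have slack at least `15 e` for `P ∪ E`, and for `Q ∪ E` respectively. If one of the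
inequalities of `Sto` fails then `pf` holds: `x0` or `x1`: first alternative of `pf` with
`A = insert K P` (the other side: `s(Q) + s(E) + k ≤ y`); `x2`: second alternative with
`A = insert K P`, `z = 0`, `|range k \ A| = k - 1 - p`; `y1`: first alternative with `A = P ∪ E`,
`range k \ A = insert K Q`; `y2`: second alternative with `A = P ∪ E`, `|A| = p + g`,
`z = s(Q) + a K + p + g - y` (natural subtraction, so 0 if this is negative),
`z ≤ (K + 1 - p) c + x c % 2 ≤ k * k` and `s(P) + s(E) + k + z ≤ x`. Finally `Rel` under `Gen`: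
suppose `s(P) + s(E) < s(A) < s(P) + a K`. By `Gen` (for `P ∪ E` and `A`, for `A` and
`insert K P`): `s(P) + s(E) + D < s(A)`, `s(A) + D < s(P) + a K` with `D = 5 k ^ 2`. So
`s(A) + C ≤ x` and `s(range k \ A) = S_k - s(A) < s(Q) + a K - D`, so
`s(range k \ A) + C ≤ y`: SFT, contradiction. -/
def T_YST : Prop := ∀ (a : ℕ → ℕ) (k q e N : ℕ), Par a k q e N →
  ∀ x y c : ℕ, x + y = N → c + 1 < k → ¬ pf a k x y c →
  ∃ K P, 1 ≤ K ∧ K < k ∧ Sto a k K x y c P ∧ (Gen a k (5 * k ^ 2) → Rel a k K P)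

/-- YCV. The converse. Proof: suppose `pf` with `A`, `B = range k \ A`, `D = 5 k ^ 2`. Since
`x + y = N ≥ M_K` (`Par.lo`), `y ≥ s(Q) + a K - k` and `x ≥ s(P) + a K`; by `Par.crit` (`N` is less
than `M_K + 2 k` by `x2`, `y1`) `s(E) + 15 e ≤ a K`.
Case `s(A) ≥ s(P) + a K = s(insert K P)`: if `A ≠ insert K P` then `s(A) > s(P) + a K + D > x`
(`x2`), contradiction in both alternatives. If `A = insert K P`, `|A| = p + 1`,
`|B| = k - 1 - p`: the first alternative contradicts `x0` (`p = 0`, `|A| = 1`) or `x1`, the second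
one contradicts `x2`.
Case `s(A) < s(P) + a K`: by `Rel` `s(A) ≤ s(P) + s(E) = s(P ∪ E)`. If `A ≠ P ∪ E` then
`s(A) + D < s(P) + s(E)`, so `s(B) > s(Q) + a K + D`, but both alternatives give
`s(B) ≤ y + k c + 1 ≤ s(Q) + a K + K + 1 + k * k + 1` (`y1`): contradiction. If `A = P ∪ E`,
`B = insert K Q`, `|B| = K + 1 - p`, `|A| = p + g`: the first alternative contradicts `y1`, the
second one `y2`. (See `Pool/Agent/SFG/P_YCV.lean`.) -/
def T_YCV : Prop := ∀ (a : ℕ → ℕ) (k q e N : ℕ), Par a k q e N → Gen a k (5 * k ^ 2) →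
  ∀ (K x y c : ℕ) (P : Finset ℕ), 1 ≤ K → K < k → x + y = N → c + 1 < k →
  Sto a k K x y c P → Rel a k K P → ∑ t ∈ P, a t + a K ≤ x → ¬ pf a k x y c

/-- YUB (from YST). The general upper bound. Proof: suppose `¬ pf`; YST gives `K, P`;
`N = M_K + f`, `f + 1 ≥ k`. `p ≥ 1`: `x = s(P) + a K + u`, `u + 1 ≤ p + 1` (`x1`),
`u + 1 ≤ k - 1 - p` (`x2`; `u` may be negative), `f - u + 1 ≤ K + 1 - p` (`y1`),
`f - u + 1 ≤ p + g` (`y2`); the sum of the four gives `2 f + 4 ≤ 2 k`: contradiction. `p = 0`: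
`u ≤ c` (`x0`) and `f - u + (K + 1) c < g` (`y2`), so `f < g + c - (K + 1) c ≤ g ≤ k - 2`:
contradiction. -/
def T_YUB : Prop := ∀ (a : ℕ → ℕ) (k q e N : ℕ), Par a k q e N →
  (∀ K < k, 1 ≤ K → ∑ t ∈ range (K + 1), a t + a K + k ≤ N + 1) →
  ∀ x y c : ℕ, x + y = N → c + 1 < k → pf a k x y c

/-- YUP (from YST, SFG.YAR). The upper bound in the generic case. Proof: as in
`Pool/Agent/SFG/P_YUP.lean`: suppose `¬ pf`; YST gives `K, P`, `p = |P|`; `N = M_K + f`, so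
`vv k K (a K) ≤ f` and `ww k K |P'| ≤ f` for the relevant `P'`. Note
`vv k K m ≥ min (K + 1) g`. If `p = 0` and `x < a K` then `y ≥ S_K + a K + f + 1`, so `y1`, `y2`
give `f + 1 ≤ K` and `f + 2 ≤ g`: contradiction. If `p = 0` and `x ≥ a K`, `u = x - a K ≤ c`:
`f < u + (K + 1)` and `f + (K + 1) c + (a K + u) c % 2 < u + g`: YAR gives `f < vv`. If
`1 ≤ p < K`: `f + 2 ≤ min (p + 1) (k - 1 - p) + min (K + 1 - p) (p + g)`: contradiction to
`ww k K p ≤ f`. If `p = K` then `P = range K`: `f + 2 ≤ min (K + 1) (k - 1 - K) + 1`: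
contradiction. -/
def T_YUP : Prop := ∀ (a : ℕ → ℕ) (k q e N : ℕ), Par a k q e N → Gen a k (5 * k ^ 2) →
  (∀ K < k, 1 ≤ K → ∑ t ∈ range (K + 1), a t + a K + vv k K (a K) ≤ N) →
  (∀ K < k, 1 ≤ K → ∀ P ⊆ range K, P.Nonempty → P ≠ range K → Rel a k K P →
    ∑ t ∈ range (K + 1), a t + a K + ww k K P.card ≤ N) →
  ∀ x y c : ℕ, x + y = N → c + 1 < k → pf a k x y c

/-- YLV (from YCV). The lower bound from the first value. Proof: as in
`Pool/Agent/SFG/P_YLV.lean` (`N ≥ M_K` by `Par.lo`, `vv ≤ k`; `P = ∅` satisfies `Rel`: a set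
`A ⊆ range k` with `s(A) < a K` has no element `t ≤ K`, so `A ⊆ E`). -/
def T_YLV : Prop := ∀ (a : ℕ → ℕ) (k q e N K : ℕ), Par a k q e N → Gen a k (5 * k ^ 2) →
  1 ≤ K → K < k → N + 1 ≤ ∑ t ∈ range (K + 1), a t + a K + vv k K (a K) →
  ∃ x y c : ℕ, x + y = N ∧ c + 1 < k ∧ (c < x ∨ c = 0) ∧ ¬ pf a k x y c

/-- YLW (from YCV). The lower bound from the second value. Proof: as in
`Pool/Agent/SFG/P_YLW.lean`. -/
def T_YLW : Prop := ∀ (a : ℕ → ℕ) (k q e N K : ℕ) (P : Finset ℕ), Par a k q e N →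
  Gen a k (5 * k ^ 2) → 1 ≤ K → K < k → P ⊆ range K → P.Nonempty → P ≠ range K →
  Rel a k K P → N + 1 ≤ ∑ t ∈ range (K + 1), a t + a K + ww k K P.card →
  ∃ x y c : ℕ, x + y = N ∧ c + 1 < k ∧ (c < x ∨ c = 0) ∧ ¬ pf a k x y c

/-- XUT (from YST). Three stars, upper bound. Proof: suppose `¬ pf`; YST gives `K, P`, `K` is 1 or
2, `c ≤ 1`; write `x = s(P) + a K + u`, `N = M_K + f` (so `y = s(Q) + a K + f - u`).
`K = 1` (`f ≥ 1`, `g = 1`): `P = ∅`: `u ≤ c`, `f - u + 2 c < 1`: false. `P = {0}`: `u < 1` (`x2`),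
`f - u < 1` (`y1`): false.
`K = 2` (`g = 0`): `P = ∅`: `u ≤ c` and `f - u + 3 c < 0`: false. `P = {0, 1}`: `u < 0` (`x2`),
`f - u < 1` (`y1`): false. `P = {0}` or `P = {1}`: `u < 1` (`x2`), `f - u + 2 c < 1` (`y2`), so
`f = c = u = 0`, hence `a 1 < a 0 < a 1 + a 2` (otherwise `f ≥ 1`), and `pf` holds: `P = {0}`,
`x = a 0 + a 2`, `y = a 1 + a 2`: first alternative with `A = {1, 2}` if `a 0 ≥ a 1 + 2`, second
alternative with `A = {1, 2}`, `z = 0` if `a 0 = a 1 + 1`; `P = {1}`, `x = a 1 + a 2`,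
`y = a 0 + a 2`: first alternative with `A = {0}` if `a 0 ≥ a 1 + 2`, second alternative with
`A = {0}`, `z = 0` if `a 0 = a 1 + 1`. (See `Pool/Agent/SFG/P_XUB.lean`.) -/
def T_XUT : Prop := ∀ (a : ℕ → ℕ) (q e N : ℕ), Par a 3 q e N →
  N = max (a 0 + 2 * a 1 + 1)
    (a 0 + a 1 + 2 * a 2 + (if a 0 = a 1 ∨ a 1 + a 2 ≤ a 0 then 1 else 0)) →
  ∀ x y c : ℕ, x + y = N → c + 1 < 3 → pf a 3 x y c

/-- XLT. Three stars, lower bound. Proof: if `N = a 0 + 2 a 1`: `x = a 1`, `y = a 0 + a 1`, `c = 0`.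
Otherwise `N = a 0 + a 1 + 2 a 2` and `a 0 = a 1 ∨ a 1 + a 2 ≤ a 0`: `x = a 0 + a 2`,
`y = a 1 + a 2`, `c = 0`. Go through the eight sets `A`. (See `Pool/Agent/SFG/P_XLB.lean`.) -/
def T_XLT : Prop := ∀ (a : ℕ → ℕ) (N : ℕ), a 1 ≤ a 0 → a 2 ≤ a 1 → 3 ≤ a 2 →
  a 0 + 2 * a 1 ≤ N → a 0 + a 1 + 2 * a 2 ≤ N →
  N + 1 ≤ max (a 0 + 2 * a 1 + 1)
    (a 0 + a 1 + 2 * a 2 + (if a 0 = a 1 ∨ a 1 + a 2 ≤ a 0 then 1 else 0)) →
  ∃ x y c : ℕ, x + y = N ∧ c + 1 < 3 ∧ (c < x ∨ c = 0) ∧ ¬ pf a 3 x y c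

end Pool.Agent.SFH
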